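import Pool.Agent.Shared.PolyTime.Decode

/-!
More operations: monadic forms, pairing, roots and logarithms, binomials, bounded search,
reachability.
-/

set_option linter.unusedVariables false

namespace N68a2faeb.IsPolyTime

open Pool.Agent.Shared.PolyTime N487b59b3

variable {α β γ δ ε : Type} [N487b59b3 α] [N487b59b3 β] [N487b59b3 γ] [N487b59b3 δ] [N487b59b3 ε]

@[fun_prop]
theorem vecCons {n : ℕ} {a : α → β} {v : α → Fin n → β} (ha : IsPolyTime a) (hv : IsPolyTime v) :
    IsPolyTime (fun x => Matrix.vecCons (a x) (v x)) :=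
  (ha.cons hv.ofFn).of_enc_eq (fun x => by rw [enc_finFun]; simp [List.ofFn_succ])

@[fun_prop]
theorem prodMap {f : α → β → δ} {g : α → γ → ε} {p : α → β × γ}
    (hf : IsPolyTime (fun y : α × β => f y.1 y.2)) (hg : IsPolyTime (fun y : α × γ => g y.1 y.2))
    (hp : IsPolyTime p) : IsPolyTime (fun x => Prod.map (f x) (g x) (p x)) := by
  unfold Prod.map
  fun_prop

@[fun_prop]
theorem sumMap {f : α → β → δ} {g : α → γ → ε} {p : α → β ⊕ γ}
    (hf : IsPolyTime (fun y : α × β => f y.1 y.2)) (hg : IsPolyTime (fun y : α × γ => g y.1 y.2))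
    (hp : IsPolyTime p) : IsPolyTime (fun x => Sum.map (f x) (g x) (p x)) :=
  sumElim (l := fun x b => Sum.inl (f x b)) (r := fun x c => Sum.inr (g x c)) hp hf.inl hg.inr

@[fun_prop]
theorem getLeft? {p : α → β ⊕ γ} (hp : IsPolyTime p) : IsPolyTime (fun x => (p x).getLeft?) :=
  (sumElim (l := fun _ b => some b) (r := fun _ _ => none) hp (by fun_prop) (by fun_prop)).of_eq
    (fun x => by cases p x <;> rfl)

@[fun_prop]
theorem getRight? {p : α → β ⊕ γ} (hp : IsPolyTime p) : IsPolyTime (fun x => (p x).getRight?) :=
  (sumElim (l := fun _ _ => none) (r := fun _ b => some b) hp (by fun_prop) (by fun_prop)).of_eq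
    (fun x => by cases p x <;> rfl)

@[fun_prop]
theorem bind_list {f : α → β → List γ} {l : α → List β} (hl : IsPolyTime l)
    (hf : IsPolyTime (fun p : α × β => f p.1 p.2)) : IsPolyTime (fun x => l x >>= f x) :=
  flatMap hf hl

@[fun_prop]
theorem bind_option {f : α → β → Option γ} {l : α → Option β} (hl : IsPolyTime l)
    (hf : IsPolyTime (fun p : α × β => f p.1 p.2)) : IsPolyTime (fun x => l x >>= f x) :=
  optionBind hl hf

@[fun_prop]
theorem pure_list {f : α → β} (hf : IsPolyTime f) : IsPolyTime (fun x => (pure (f x) : List β)) :=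
  hf.cons (const [])

@[fun_prop]
theorem pure_option {f : α → β} (hf : IsPolyTime f) :
    IsPolyTime (fun x => (pure (f x) : Option β)) := hf.some

@[fun_prop]
theorem fmap_list {f : α → β → γ} {l : α → List β}
    (hf : IsPolyTime (fun p : α × β => f p.1 p.2)) (hl : IsPolyTime l) :
    IsPolyTime (fun x => f x <$> l x) := map hf hl

@[fun_prop]
theorem fmap_option {f : α → β → γ} {l : α → Option β}
    (hf : IsPolyTime (fun p : α × β => f p.1 p.2)) (hl : IsPolyTime l) :
    IsPolyTime (fun x => f x <$> l x) := optionMap hl hf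

@[fun_prop]
theorem optionGet! [Inhabited β] {o : α → Option β} (ho : IsPolyTime o) :
    IsPolyTime (fun x => (o x).get!) :=
  (ho.optionGetD (const default)).of_eq (fun x => by cases o x <;> rfl)

@[fun_prop]
theorem intercalate {s : α → List β} {l : α → List (List β)} (hs : IsPolyTime s)
    (hl : IsPolyTime l) : IsPolyTime (fun x => List.intercalate (s x) (l x)) :=
  IsPolyTime.of_eq (f := fun x => (l x).headD [] ++ (l x).tail.flatMap (fun r => s x ++ r))
    (by fun_prop) (fun x => by
      induction l x with
      | nil => rfl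
      | cons a r ih =>
        cases r with
        | nil => simp [List.intercalate]
        | cons b r =>
          simp only [List.intercalate, List.intersperse_cons_cons, List.flatten_cons] at ih ⊢
          rw [← ih]
          simp)

@[fun_prop]
theorem natPair {f g : α → ℕ} (hf : IsPolyTime f) (hg : IsPolyTime g) :
    IsPolyTime (fun x => Nat.pair (f x) (g x)) := by
  unfold Nat.pair
  fun_prop

/-- Binary search: the greatest `r < 2 ^ k x` with `P x r`, for a downward closed `P x` that holds
at `0`. -/
theorem binarySearch {P : α → ℕ → Bool} {k r : α → ℕ}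
    (hP : IsPolyTime (fun y : α × ℕ => P y.1 y.2)) (hk : IsPolyTime k) (hk' : PolyBdd k)
    (hr : ∀ x, r x < 2 ^ k x) (hspec : ∀ x m, P x m = true ↔ m ≤ r x) : IsPolyTime r := by
  have key : ∀ x i, i ≤ k x → r x / 2 ^ (k x - (i + 1)) * 2 ^ (k x - (i + 1)) =
      (fun s => if P x (s + 2 ^ (k x - (i + 1))) = true ∧ i < k x then s + 2 ^ (k x - (i + 1))
        else s) (r x / 2 ^ (k x - i) * 2 ^ (k x - i)) := by
    intro x i hi
    dsimp only
    rcases hi.eq_or_lt with h | h
    · simp [h]
    · obtain ⟨j, hj⟩ : ∃ j, k x - i = j + 1 := ⟨k x - i - 1, by omega⟩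
      rw [hj, show k x - (i + 1) = j by omega]
      simp only [hspec]
      rw [pow_succ, ← Nat.div_div_eq_div_mul]
      have h1 := Nat.div_add_mod (r x / 2 ^ j) 2
      have h2 := Nat.div_add_mod (r x) (2 ^ j)
      have h3 := Nat.mod_lt (r x) (Nat.two_pow_pos j)
      generalize r x / 2 ^ j = q at h1 h2 ⊢
      generalize r x % 2 ^ j = t at h2 h3
      generalize 2 ^ j = w at h2 h3 ⊢
      generalize q / 2 = u at h1 ⊢
      rcases Nat.mod_two_eq_zero_or_one q with h0 | h0 <;> rw [h0] at h1 <;> subst h1
      · rw [if_neg (fun hh => by nlinarith [hh.1])]; ring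
      · rw [if_pos ⟨by nlinarith, h⟩]; ring
  have key2 : ∀ x i, i ≤ k x → Nat.rec (motive := fun _ => ℕ) 0 (fun i s =>
      if P x (s + 2 ^ (k x - (i + 1))) = true ∧ i < k x then s + 2 ^ (k x - (i + 1)) else s) i =
      r x / 2 ^ (k x - i) * 2 ^ (k x - i) := by
    intro x i
    induction i with
    | zero => intro _; simp [Nat.div_eq_of_lt (hr x)]
    | succ i ih => intro hi; rw [key x i (by omega), ← ih (by omega)]
  refine (natRec (f := fun x i s => if P x (s + 2 ^ (k x - (i + 1))) = true ∧ i < k x then
    s + 2 ^ (k x - (i + 1)) else s) (g := fun _ => 0) (by fun_prop) (by fun_prop) hk hk' k hk'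
    (fun x i hi => ?_)).of_eq (fun x => by rw [key2 x _ le_rfl]; simp)
  rw [key2 x i hi, bsize_nat_le_iff]
  exact (Nat.div_mul_le_self _ _).trans_lt (hr x)

@[fun_prop]
theorem sqrt {f : α → ℕ} (hf : IsPolyTime f) : IsPolyTime (fun x => Nat.sqrt (f x)) :=
  binarySearch (P := fun x m => decide (m * m ≤ f x)) (k := fun x => bsize (f x)) (by fun_prop)
    (by fun_prop) (by fun_prop) (fun x => (Nat.sqrt_le_self _).trans_lt (lt_two_pow_bsize _))
    (fun x m => by simp [Nat.le_sqrt])

@[fun_prop]
theorem natUnpair {f : α → ℕ} (hf : IsPolyTime f) : IsPolyTime (fun x => Nat.unpair (f x)) := by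
  unfold Nat.unpair
  fun_prop

@[fun_prop]
theorem _root_.Pool.Agent.Shared.PolyTime.PolyBdd.log (b : α → ℕ) {n : α → ℕ}
    (hn : IsPolyTime n) : PolyBdd (fun x => Nat.log (b x) (n x)) :=
  (PolyBdd.log2 hn).of_le (fun x => by
    rw [Nat.log2_eq_log_two]
    rcases le_or_gt (b x) 1 with h | h
    · simp [Nat.log_of_left_le_one h]
    · exact Nat.log_anti_left (by norm_num) h)

@[fun_prop]
theorem log {b n : α → ℕ} (hb : IsPolyTime b) (hn : IsPolyTime n) :
    IsPolyTime (fun x => Nat.log (b x) (n x)) := by
  refine IsPolyTime.of_eq (f := fun x => if b x ≤ 1 then 0 else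
    (List.range (bsize (n x))).countP (fun i => decide (b x ^ (min i (bsize (n x)) + 1) ≤ n x)))
    (by fun_prop) (fun x => ?_)
  split_ifs with h
  · exact (Nat.log_of_left_le_one h _).symm
  · rcases Nat.eq_zero_or_pos (n x) with h0 | h0
    · simp [h0]
    have hlt : Nat.log (b x) (n x) < bsize (n x) :=
      (Nat.log_anti_left (by norm_num) (not_le.1 h)).trans_lt
        ((Nat.log_lt_iff_lt_pow (by norm_num) h0.ne').2 (lt_two_pow_bsize _))
    rw [List.countP_eq_length_filter]
    have : (List.range (bsize (n x))).filter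
        (fun i => decide (b x ^ (min i (bsize (n x)) + 1) ≤ n x)) =
        (List.range (bsize (n x))).filter (fun i => decide (i < Nat.log (b x) (n x))) := by
      refine List.filter_congr fun i hi => ?_
      rw [min_eq_left (List.mem_range.1 hi).le, decide_eq_decide,
        ← Nat.le_log_iff_pow_le (not_le.1 h) h0.ne']
      rfl
    rw [this, ← List.countP_eq_length_filter, ← Nat.sub_add_cancel hlt.le, add_comm,
      List.range_add, List.countP_append, List.countP_eq_length.2 (by simp),
      List.countP_eq_zero.2 (by simp)]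
    simp

@[fun_prop]
theorem descFactorial {n k : α → ℕ} (hn : IsPolyTime n) (hk : IsPolyTime k) (hb : PolyBdd k) :
    IsPolyTime (fun x => (n x).descFactorial (k x)) := by
  simp only [Nat.descFactorial_eq_prod_range]
  fun_prop

@[fun_prop]
theorem choose {n k : α → ℕ} (hn : IsPolyTime n) (hk : IsPolyTime k) (hb : PolyBdd k) :
    IsPolyTime (fun x => (n x).choose (k x)) := by
  simp only [Nat.choose_eq_descFactorial_div_factorial]
  fun_prop

/-- Modular exponentiation with a binary exponent. -/
theorem pow_mod {a e m : α → ℕ} (ha : IsPolyTime a) (he : IsPolyTime e) (hm : IsPolyTime m)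
    (hpos : ∀ x, 0 < m x) : IsPolyTime (fun x => a x ^ e x % m x) :=
  (list_rec_bound (fun x (l : List Bool) => a x ^ ofBits l % m x) (fun x => 1 % m x)
    (fun x b _ s => s * s * (bif b then a x else 1) % m x) (fun x => by simp)
    (fun x b r => by
      rw [ofBits_cons, pow_add, two_mul, pow_add]
      cases b <;> simp [Nat.mul_mod])
    (by fun_prop) (by fun_prop) he.bits (fun x => bsize (m x)) (by fun_prop)
    (fun x i => bsize_nat_mono (Nat.mod_lt _ (hpos x)).le)).of_eq (fun x => by rw [ofBits_bits])

@[fun_prop]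
theorem findGreatest {P : α → ℕ → Prop} {inst : ∀ x, DecidablePred (P x)} {n : α → ℕ}
    (hP : IsPolyTime (fun y : α × ℕ => @decide (P y.1 y.2) (inst y.1 y.2))) (hn : IsPolyTime n)
    (hb : PolyBdd n) : IsPolyTime (fun x => @Nat.findGreatest (P x) (inst x) (n x)) :=
  nat_rec (fun x i => Nat.findGreatest (P x) i) (fun _ => 0)
    (fun x i s => bif decide (P x (i + 1)) then i + 1 else s) (fun _ => rfl)
    (fun x i => by rw [Nat.findGreatest_succ]; by_cases h : P x (i + 1) <;> simp [h])
    (by fun_prop)
    (IsPolyTime.cond (hP.comp (g := fun p : α × ℕ × ℕ => (p.1, p.2.1 + 1)) (by fun_prop))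
      (by fun_prop) (by fun_prop)) hn hb n hb
    (fun x i hi => (bsize_nat_le_self _).trans ((Nat.findGreatest_le i).trans hi))

/-- One round of breadth-first search inside the list `V`. -/
def _root_.Pool.Agent.Shared.PolyTime.bfsStep {β : Type} (V : List β) (R : β → β → Bool)
    (S : List β) : List β := V.filter (fun b => S.any (fun a => R a b))

omit [N487b59b3 β] in
theorem reflTransGen_iff_bfs [DecidableEq β] (V : List β) (R : β → β → Prop) [DecidableRel R]
    (u v : β) : Relation.ReflTransGen (fun a b => b ∈ V ∧ R a b) u v ↔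
      v ∈ (bfsStep (u :: V) (fun a b => decide (a = b ∨ (b ∈ V ∧ R a b))))^[V.length + 1] [u] := by
  set F := bfsStep (u :: V) (fun a b => decide (a = b ∨ (b ∈ V ∧ R a b))) with hF
  have hmem : ∀ S b, b ∈ F S ↔ b ∈ u :: V ∧ ∃ a ∈ S, a = b ∨ (b ∈ V ∧ R a b) := by
    intro S b; simp only [hF, bfsStep, List.mem_filter, List.any_eq_true, decide_eq_true_eq]
  have hsub : ∀ i, ∀ b ∈ F^[i] [u], b ∈ u :: V := by
    intro i b hb
    cases i with
    | zero => simp at hb; simp [hb]
    | succ i => rw [Function.iterate_succ_apply', hmem] at hb; exact hb.1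
  have hmono : ∀ i, ∀ b ∈ F^[i] [u], b ∈ F^[i + 1] [u] := by
    intro i b hb
    rw [Function.iterate_succ_apply', hmem]
    exact ⟨hsub i b hb, b, hb, Or.inl rfl⟩
  constructor
  · intro h
    have hstab : ∀ i, (∀ b ∈ F^[i + 1] [u], b ∈ F^[i] [u]) →
        ∀ b ∈ F^[i + 2] [u], b ∈ F^[i + 1] [u] := by
      intro i hi b hb
      rw [Function.iterate_succ_apply', hmem] at hb ⊢
      obtain ⟨h1, a, ha, h2⟩ := hb
      exact ⟨h1, a, hi a ha, h2⟩
    have hcard : ∀ i, (∀ b ∈ F^[i + 1] [u], b ∈ F^[i] [u]) ∨
        i + 2 ≤ (F^[i + 1] [u]).toFinset.card := by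
      intro i
      induction i with
      | zero =>
        by_cases h0 : ∀ b ∈ F^[0 + 1] [u], b ∈ F^[0] [u]
        · exact Or.inl h0
        · right
          push Not at h0
          obtain ⟨b, hb, hb'⟩ := h0
          have : (F^[0] [u]).toFinset ⊂ (F^[0 + 1] [u]).toFinset :=
            ⟨fun c hc => by simpa using hmono 0 c (by simpa using hc),
              fun hc => hb' (by simpa using hc (List.mem_toFinset.2 hb))⟩
          have h1 := Finset.card_lt_card this
          simp only [Function.iterate_zero, id, List.toFinset_cons, List.toFinset_nil,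
            insert_empty_eq, Finset.card_singleton] at h1
          omega
      | succ i ih =>
        by_cases h0 : ∀ b ∈ F^[i + 1 + 1] [u], b ∈ F^[i + 1] [u]
        · exact Or.inl h0
        · right
          rcases ih with ih | ih
          · exact absurd (hstab i ih) h0
          push Not at h0
          obtain ⟨b, hb, hb'⟩ := h0
          have : (F^[i + 1] [u]).toFinset ⊂ (F^[i + 1 + 1] [u]).toFinset :=
            ⟨fun c hc => List.mem_toFinset.2 (hmono _ c (List.mem_toFinset.1 hc)),
              fun hc => hb' (List.mem_toFinset.1 (hc (List.mem_toFinset.2 hb)))⟩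
          have := Finset.card_lt_card this
          omega
    have hfix : ∀ b ∈ F^[V.length + 1 + 1] [u], b ∈ F^[V.length + 1] [u] := by
      rcases hcard (V.length + 1) with h1 | h1
      · exact h1
      · have h2 : (F^[V.length + 1 + 1] [u]).toFinset ⊆ (u :: V).toFinset :=
          fun c hc => List.mem_toFinset.2 (hsub _ c (List.mem_toFinset.1 hc))
        have h3 := (Finset.card_le_card h2).trans (List.toFinset_card_le _)
        rw [List.length_cons] at h3
        omega
    induction h with
    | refl =>
      have : ∀ i, u ∈ F^[i] [u] := fun i => by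
        induction i with
        | zero => simp
        | succ i ih => exact hmono i u ih
      exact this _
    | tail _ hbc ih =>
      refine hfix _ ?_
      rw [Function.iterate_succ_apply', hmem]
      exact ⟨List.mem_cons_of_mem _ hbc.1, _, ih, Or.inr hbc⟩
  · generalize V.length + 1 = i
    induction i generalizing v with
    | zero => intro h; obtain rfl : v = u := by simpa using h
              exact .refl
    | succ i ih =>
      intro h
      rw [Function.iterate_succ_apply', hmem] at h
      obtain ⟨-, a, ha, rfl | h2⟩ := h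
      · exact ih _ ha
      · exact (ih _ ha).tail h2

/-- Reachability inside a given list of vertices. -/
theorem decide_reflTransGen {V : α → List β} {R : α → β → β → Prop} {u v : α → β}
    {inst : ∀ x, Decidable (Relation.ReflTransGen (fun a b => b ∈ V x ∧ R x a b) (u x) (v x))}
    [∀ x a b, Decidable (R x a b)]
    (hR : IsPolyTime (fun p : α × β × β => decide (R p.1 p.2.1 p.2.2))) (hV : IsPolyTime V)
    (hu : IsPolyTime u) (hv : IsPolyTime v) : IsPolyTime (fun x =>
      @decide (Relation.ReflTransGen (fun a b => b ∈ V x ∧ R x a b) (u x) (v x)) (inst x)) := by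
  classical
  have h1 : IsPolyTime (fun p : ((α × List β) × β) × β => decide (R p.1.1.1 p.2 p.1.2)) :=
    hR.comp (g := fun p : ((α × List β) × β) × β => (p.1.1.1, p.2, p.1.2)) (by fun_prop)
  have h := iterate_inv (f := fun x => bfsStep (u x :: V x)
    (fun a b => decide (a = b ∨ (b ∈ V x ∧ R x a b)))) (g := fun x => [u x])
    (n := fun x => (V x).length + 1) (by unfold bfsStep; fun_prop) (by fun_prop) (by fun_prop)
    (by fun_prop) (fun x s => s.Sublist (u x :: V x)) (fun x => by simp)
    (fun x s _ => List.filter_sublist) (fun x => bsize (u x :: V x)) (by fun_prop)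
    (fun x s hs => bsize_sublist hs)
  exact (decide_mem (inst := fun _ => inferInstance) hv h).decide_congr
    (fun x => (reflTransGen_iff_bfs _ _ _ _).symm)

/-- Reachability in a directed graph given by a list of arcs. -/
@[fun_prop]
theorem decide_reflTransGen_arcs {E : α → List (β × β)} {u v : α → β}
    {inst : ∀ x, Decidable (Relation.ReflTransGen (fun a b => (a, b) ∈ E x) (u x) (v x))}
    (hE : IsPolyTime E) (hu : IsPolyTime u) (hv : IsPolyTime v) : IsPolyTime (fun x =>
      @decide (Relation.ReflTransGen (fun a b => (a, b) ∈ E x) (u x) (v x)) (inst x)) := by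
  classical
  refine (decide_reflTransGen (V := fun x => (E x).map Prod.snd) (R := fun x a b => (a, b) ∈ E x)
    (inst := fun _ => inferInstance) (by fun_prop) (by fun_prop) hu hv).decide_congr (fun x => ?_)
  have : (fun a b => b ∈ (E x).map Prod.snd ∧ (a, b) ∈ E x) = fun a b => (a, b) ∈ E x := by
    funext a b
    exact propext ⟨fun h => h.2, fun h => ⟨List.mem_map.2 ⟨_, h, rfl⟩, h⟩⟩
  rw [this]

end N68a2faeb.IsPolyTime
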