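import Pool.Agent.Shared.PolyTime.SM

/-!
Formulas in 3-CNF and the tableau formula of a stack machine (correctness part of Cook-Levin).
-/

namespace Pool.Agent.Shared.PolyTime

open Function

/-- A literal: a variable and the truth value that makes the literal true. -/
abbrev Lit (V : Type) : Type := V × Bool

/-- A clause with three literals. -/
abbrev Clause3 (V : Type) : Type := Lit V × Lit V × Lit V

/-- The assignment `ν` satisfies the clause. -/
def Clause3.Holds {V : Type} (ν : V → Bool) (c : Clause3 V) : Prop :=
  ν c.1.1 = c.1.2 ∨ ν c.2.1.1 = c.2.1.2 ∨ ν c.2.2.1 = c.2.2.2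

/-- The three variables of the clause are distinct. -/
def Clause3.Distinct {V : Type} (c : Clause3 V) : Prop :=
  c.1.1 ≠ c.2.1.1 ∧ c.1.1 ≠ c.2.2.1 ∧ c.2.1.1 ≠ c.2.2.1

/-- The 3-CNF formula is satisfiable. -/
def Sat3 {V : Type} (φ : List (Clause3 V)) : Prop := ∃ ν : V → Bool, ∀ c ∈ φ, c.Holds ν

/-- Every clause has three distinct variables. -/
def Distinct3 {V : Type} (φ : List (Clause3 V)) : Prop := ∀ c ∈ φ, c.Distinct

/-- Rename the variables of a clause. -/
def Clause3.rename {V W : Type} (ρ : V → W) (c : Clause3 V) : Clause3 W :=
  ((ρ c.1.1, c.1.2), (ρ c.2.1.1, c.2.1.2), (ρ c.2.2.1, c.2.2.2))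

theorem sat3_rename {V W : Type} {ρ : V → W} (hρ : Injective ρ) (φ : List (Clause3 V)) :
    Sat3 (φ.map (Clause3.rename ρ)) ↔ Sat3 φ := by
  constructor
  · rintro ⟨ν, hν⟩
    exact ⟨fun v => ν (ρ v), fun c hc => hν _ (List.mem_map_of_mem hc)⟩
  · rintro ⟨ν, hν⟩
    refine ⟨Function.extend ρ ν (fun _ => false), fun c hc => ?_⟩
    obtain ⟨c', hc', rfl⟩ := List.mem_map.1 hc
    have := hν c' hc'
    simpa only [Clause3.Holds, Clause3.rename, hρ.extend_apply] using this

theorem distinct3_rename {V W : Type} {ρ : V → W} (hρ : Injective ρ) {φ : List (Clause3 V)}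
    (h : Distinct3 φ) : Distinct3 (φ.map (Clause3.rename ρ)) := by
  intro c hc
  obtain ⟨c', hc', rfl⟩ := List.mem_map.1 hc
  obtain ⟨h1, h2, h3⟩ := h c' hc'
  exact ⟨hρ.ne h1, hρ.ne h2, hρ.ne h3⟩

/-- Two clauses expressing `l ∨ l'` with the help of the variable `y`. -/
def pad2 {V : Type} (y : V) (l l' : Lit V) : List (Clause3 V) :=
  [(l, l', (y, true)), (l, l', (y, false))]

/-- Four clauses expressing the literal `l` with the help of the variables `y`, `z`. -/
def pad1 {V : Type} (y z : V) (l : Lit V) : List (Clause3 V) :=
  pad2 y l (z, true) ++ pad2 y l (z, false)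

theorem holds_pad2 {V : Type} (ν : V → Bool) (y : V) (l l' : Lit V) :
    (∀ c ∈ pad2 y l l', c.Holds ν) ↔ ν l.1 = l.2 ∨ ν l'.1 = l'.2 := by
  simp only [pad2, List.mem_cons, List.not_mem_nil, or_false, forall_eq_or_imp, forall_eq,
    Clause3.Holds]
  cases ν y <;> simp

theorem holds_pad1 {V : Type} (ν : V → Bool) (y z : V) (l : Lit V) :
    (∀ c ∈ pad1 y z l, c.Holds ν) ↔ ν l.1 = l.2 := by
  simp only [pad1, List.forall_mem_append, holds_pad2]
  cases ν z <;> simp

theorem distinct_pad2 {V : Type} {y : V} {l l' : Lit V} (h1 : l.1 ≠ l'.1) (h2 : l.1 ≠ y)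
    (h3 : l'.1 ≠ y) : Distinct3 (pad2 y l l') := by
  intro c hc
  simp only [pad2, List.mem_cons, List.not_mem_nil, or_false] at hc
  rcases hc with rfl | rfl <;> exact ⟨h1, h2, h3⟩

theorem distinct_pad1 {V : Type} {y z : V} {l : Lit V} (h1 : l.1 ≠ z) (h2 : l.1 ≠ y)
    (h3 : z ≠ y) : Distinct3 (pad1 y z l) := by
  intro c hc
  rcases List.mem_append.1 hc with hc | hc
  · exact distinct_pad2 h1 h2 h3 c hc
  · exact distinct_pad2 h1 h2 h3 c hc

namespace Tableau

variable {K : Type} [DecidableEq K] (M : SM K)

/-- Kinds of variables: control state, stack cell content, padding. -/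
abbrev Kind : Type := Option M.Q ⊕ (K × Option Bool) ⊕ Bool

/-- Variables: time, position, kind. -/
abbrev Var : Type := ℕ × ℕ × Kind M

/-- At time `t` the control state is `q`. -/
def sv (t : ℕ) (q : Option M.Q) : Var M := (t, 0, Sum.inl q)

/-- At time `t` cell `i` of stack `k` holds `s`. -/
def cv (t i : ℕ) (k : K) (s : Option Bool) : Var M := (t, i, Sum.inr (Sum.inl (k, s)))

/-- Padding variables. -/
def pv (b : Bool) : Var M := (0, 0, Sum.inr (Sum.inr b))

/-- How stack `k` moves in state `q`: `none` stays, `some none` pops, `some (some b)` pushes. -/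
def mv (q : Option M.Q) (k : K) : Option (Option Bool) :=
  match q with
  | none => none
  | some q => match M.δ q with
    | .push k' b _ => if k = k' then some (some b) else none
    | .pop k' _ _ _ => if k = k' then some none else none

/-- The old cell that determines the new cell `i`. -/
def src (m : Option (Option Bool)) (i : ℕ) : ℕ :=
  match m with
  | none => i
  | some none => i + 1
  | some (some _) => i - 1

/-- The new content of cell `i` from the content of the old cell. -/
def tr (m : Option (Option Bool)) (i : ℕ) (s : Option Bool) : Option Bool :=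
  match m with
  | none => s
  | some none => s
  | some (some b) => if i = 0 then some b else s

/-- The stack inspected in state `q`. -/
def insp (a : K) (q : Option M.Q) : K :=
  match q with
  | none => a
  | some q => match M.δ q with
    | .push k' _ _ => k'
    | .pop k' _ _ _ => k'

/-- The next state from the top cell of the inspected stack. -/
def nxt (q : Option M.Q) (s : Option Bool) : Option M.Q :=
  match q with
  | none => none
  | some q => match M.δ q with
    | .push _ _ q' => q'
    | .pop _ qE qF qT => match s with
      | none => qE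
      | some false => qF
      | some true => qT

theorem src_le (m : Option (Option Bool)) (i : ℕ) : src m i ≤ i + 1 := by
  rcases m with _ | _ | _ <;> simp only [src] <;> omega

theorem step_state (a : K) (c : Option M.Q × Stk K) :
    (M.step c).1 = nxt M c.1 ((c.2 (insp M a c.1))[0]?) := by
  obtain ⟨_ | q, S⟩ := c
  · rfl
  · simp only [SM.step_some, nxt, insp]
    cases M.δ q with
    | push k b q' => rfl
    | pop k qE qF qT =>
      simp only [Instr.next]
      rcases S k with _ | ⟨_ | _, l⟩ <;> rfl

theorem step_cell (c : Option M.Q × Stk K) (k : K) (i : ℕ) :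
    ((M.step c).2 k)[i]? = tr (mv M c.1 k) i ((c.2 k)[src (mv M c.1 k) i]?) := by
  obtain ⟨_ | q, S⟩ := c
  · rfl
  · simp only [SM.step_some, mv]
    cases M.δ q with
    | push k' b q' =>
      by_cases h : k = k'
      · subst h
        cases i <;> simp [Instr.upd, tr, src]
      · simp [Instr.upd, tr, src, h]
    | pop k' qE qF qT =>
      by_cases h : k = k'
      · subst h
        simp [Instr.upd, tr, src]
      · simp [Instr.upd, tr, src, h]

/-- The clause that propagates a cell. -/
def cellCl (q : Option M.Q) (k : K) (s : Option Bool) (t i : ℕ) : Clause3 (Var M) :=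
  ((sv M t q, false), (cv M t (src (mv M q k) i) k s, false),
    (cv M (t + 1) i k (tr (mv M q k) i s), true))

/-- The clause that propagates the control state. -/
def stateCl (a : K) (q : Option M.Q) (s : Option Bool) (t : ℕ) : Clause3 (Var M) :=
  ((sv M t q, false), (cv M t 0 (insp M a q) s, false), (sv M (t + 1) (nxt M q s), true))

/-- The clauses describing the initial content of cell `i` of stack `k`: stack `a` holds `y`
followed by `m` free bits, the other stacks are empty. -/
def initCl (a : K) (y : List Bool) (m : ℕ) (k : K) (i : ℕ) : List (Clause3 (Var M)) :=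
  if k = a ∧ y.length ≤ i ∧ i < y.length + m then
    pad2 (pv M false) (cv M 0 i k (some false), true) (cv M 0 i k (some true), true)
  else pad1 (pv M false) (pv M true) (cv M 0 i k (if k = a then y[i]? else none), true)

/-- The tableau formula; `Qs`, `Ks` list all control states and all stacks. -/
def formula (a : K) (Qs : List (Option M.Q)) (Ks : List K) (y : List Bool) (m T : ℕ) :
    List (Clause3 (Var M)) :=
  pad1 (pv M false) (pv M true) (sv M 0 M.start, true) ++
  pad1 (pv M false) (pv M true) (cv M T 0 a (some false), false) ++
  (Ks.flatMap fun k => (List.range (T + 1)).flatMap fun i => initCl M a y m k i) ++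
  (Qs.flatMap fun q => [none, some false, some true].flatMap fun s =>
    (List.range T).map fun t => stateCl M a q s t) ++
  (Qs.flatMap fun q => Ks.flatMap fun k => [none, some false, some true].flatMap fun s =>
    (List.range T).flatMap fun t => (List.range (T + 1)).map fun i => cellCl M q k s t i)

theorem distinct_formula (a : K) (Qs : List (Option M.Q)) (Ks : List K) (y : List Bool)
    (m T : ℕ) : Distinct3 (formula M a Qs Ks y m T) := by
  intro c hc
  simp only [formula, List.mem_append, List.mem_flatMap, List.mem_map] at hc
  rcases hc with (((hc | hc) | ⟨k, -, i, -, hc⟩) | ⟨q, -, s, -, t, -, rfl⟩) |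
    ⟨q, -, k, -, s, -, t, -, i, -, rfl⟩
  · exact distinct_pad1 (by simp [sv, pv]) (by simp [sv, pv]) (by simp [pv]) c hc
  · exact distinct_pad1 (by simp [cv, pv]) (by simp [cv, pv]) (by simp [pv]) c hc
  · unfold initCl at hc
    split_ifs at hc
    · exact distinct_pad2 (by simp [cv]) (by simp [cv, pv]) (by simp [cv, pv]) c hc
    · exact distinct_pad1 (by simp [cv, pv]) (by simp [cv, pv]) (by simp [pv]) c hc
    · exact distinct_pad1 (by simp [cv, pv]) (by simp [cv, pv]) (by simp [pv]) c hc
  · simp [Clause3.Distinct, stateCl, sv, cv]
  · simp [Clause3.Distinct, cellCl, sv, cv]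

theorem mem_syms (s : Option Bool) : s ∈ [none, some false, some true] := by
  rcases s with _ | _ | _ <;> simp

theorem sat_formula (a : K) (Qs : List (Option M.Q)) (hQ : ∀ q, q ∈ Qs) (Ks : List K)
    (hK : ∀ k, k ∈ Ks) (y : List Bool) (m T : ℕ) (r : List Bool → Bool)
    (hr : ∀ u : List Bool, u.length = m → M.Runs (single a (y ++ u)) (single a [r u]) T) :
    Sat3 (formula M a Qs Ks y m T) ↔ ∃ u : List Bool, u.length = m ∧ r u = true := by
  classical
  constructor
  · rintro ⟨ν, hν⟩
    simp only [formula, List.forall_mem_append, holds_pad1, List.forall_mem_flatMap,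
      List.forall_mem_map, List.mem_range] at hν
    obtain ⟨⟨⟨⟨h1, h2⟩, h3⟩, h4⟩, h5⟩ := hν
    set u : List Bool := (List.range m).map (fun j => ν (cv M 0 (y.length + j) a (some true)))
      with hu
    have hum : u.length = m := by simp [hu]
    refine ⟨u, hum, ?_⟩
    have hrun := SM.runs_iff.1 (hr u hum)
    have key : ∀ t ≤ T, ν (sv M t (M.step^[t] (M.start, single a (y ++ u))).1) = true ∧
        ∀ k i, i + t ≤ T →
          ν (cv M t i k (((M.step^[t] (M.start, single a (y ++ u))).2 k)[i]?)) = true := by
      intro t
      induction t with
      | zero =>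
        intro _
        refine ⟨h1, fun k i hi => ?_⟩
        have h := h3 k (hK k) i (by omega)
        simp only [Function.iterate_zero, id]
        unfold initCl at h
        split_ifs at h with hc hk
        · obtain ⟨rfl, hc1, hc2⟩ := hc
          rw [holds_pad2] at h
          obtain ⟨j, rfl⟩ := Nat.exists_eq_add_of_le hc1
          have hj : j < m := by omega
          have e : (single k (y ++ u) k)[y.length + j]?
              = some (ν (cv M 0 (y.length + j) k (some true))) := by
            simp [single, hu, hj]
          rw [e]
          cases hb : ν (cv M 0 (y.length + j) k (some true))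
          · simpa [hb] using h
          · exact hb
        · subst hk
          rw [holds_pad1] at h
          have e : (single k (y ++ u) k)[i]? = y[i]? := by
            simp only [single, update_self]
            by_cases hi' : i < y.length
            · exact List.getElem?_append_left hi'
            · have h6 : y.length + m ≤ i := by
                by_contra h7
                exact hc ⟨rfl, by omega, by omega⟩
              rw [List.getElem?_eq_none (by simp; omega), List.getElem?_eq_none (by omega)]
          rw [e]
          exact h
        · rw [holds_pad1] at h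
          have e : (single a (y ++ u) k)[i]? = none := by simp [single, update_of_ne hk]
          rw [e]
          exact h
      | succ t ih =>
        intro ht
        obtain ⟨ih1, ih2⟩ := ih (by omega)
        rw [Function.iterate_succ_apply']
        generalize M.step^[t] (M.start, single a (y ++ u)) = c at ih1 ih2
        constructor
        · have h := h4 c.1 (hQ _) _ (mem_syms ((c.2 (insp M a c.1))[0]?)) t (by omega)
          have h' := ih2 (insp M a c.1) 0 (by omega)
          rw [step_state M a]
          simpa [Clause3.Holds, stateCl, ih1, h'] using h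
        · intro k i hi
          have h := h5 c.1 (hQ _) k (hK _) _ (mem_syms ((c.2 k)[src (mv M c.1 k) i]?)) t
            (by omega) i (by omega)
          have h' := ih2 k (src (mv M c.1 k) i) (by have := src_le (mv M c.1 k) i; omega)
          rw [step_cell]
          simpa [Clause3.Holds, cellCl, ih1, h'] using h
    have h6 := (key T le_rfl).2 a 0 (by omega)
    rw [hrun] at h6
    have e : (single a [r u] a)[0]? = some (r u) := by simp [single]
    simp only [e] at h6
    cases hb : r u
    · rw [hb] at h6
      simp [h6] at h2
    · rfl
  · rintro ⟨u, hum, hru⟩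
    have hrun := SM.runs_iff.1 (hr u hum)
    let ν : Var M → Bool := fun v => match v.2.2 with
      | Sum.inl q => decide ((M.step^[v.1] (M.start, single a (y ++ u))).1 = q)
      | Sum.inr (Sum.inl (k, s)) =>
          decide (((M.step^[v.1] (M.start, single a (y ++ u))).2 k)[v.2.1]? = s)
      | Sum.inr (Sum.inr _) => false
    have hs : ∀ t q, ν (sv M t q)
      = decide ((M.step^[t] (M.start, single a (y ++ u))).1 = q) := fun _ _ => rfl
    have hc : ∀ t i k s, ν (cv M t i k s)
      = decide (((M.step^[t] (M.start, single a (y ++ u))).2 k)[i]? = s) := fun _ _ _ _ => rfl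
    refine ⟨ν, ?_⟩
    simp only [formula, List.forall_mem_append, holds_pad1, List.forall_mem_flatMap,
      List.forall_mem_map, List.mem_range]
    refine ⟨⟨⟨⟨?_, ?_⟩, ?_⟩, ?_⟩, ?_⟩
    · simp [hs]
    · rw [hc, hrun]
      simp [single, hru]
    · intro k _ i _
      unfold initCl
      split_ifs with h1 hk
      · obtain ⟨rfl, h2, h3⟩ := h1
        rw [holds_pad2]
        have h4 : i < (y ++ u).length := by simp; omega
        simp only [hc, Function.iterate_zero, id, single, update_self,
          List.getElem?_eq_getElem h4]
        cases (y ++ u)[i] <;> simp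
      · subst hk
        rw [holds_pad1]
        simp only [hc, Function.iterate_zero, id, single, update_self, decide_eq_true_eq]
        by_cases hi' : i < y.length
        · exact List.getElem?_append_left hi'
        · have h6 : y.length + m ≤ i := by
            by_contra h7
            exact h1 ⟨rfl, by omega, by omega⟩
          rw [List.getElem?_eq_none (by simp; omega), List.getElem?_eq_none (by omega)]
      · rw [holds_pad1]
        simp [hc, single, update_of_ne hk]
    · intro q _ s _ t _
      simp only [Clause3.Holds, stateCl, hs, hc, Function.iterate_succ_apply',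
        decide_eq_false_iff_not, decide_eq_true_eq]
      rw [step_state M a]
      by_contra h
      push Not at h
      obtain ⟨rfl, rfl, h⟩ := h
      exact h rfl
    · intro q _ k _ s _ t _ i _
      simp only [Clause3.Holds, cellCl, hs, hc, Function.iterate_succ_apply',
        decide_eq_false_iff_not, decide_eq_true_eq]
      rw [step_cell]
      by_contra h
      push Not at h
      obtain ⟨rfl, rfl, h⟩ := h
      exact h rfl

end Tableau

end Pool.Agent.Shared.PolyTime
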