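import Pool.Agent.Shared.PolyTime.Nat
import Pool.Agent.Shared.PolyTime.Tableau
import Pool.Prelude.Def_F_458e953d

/-!
NP-hardness of typed problems (with a promise) and the Cook-Levin theorem for 3-CNF formulas with
three distinct variables in every clause.
-/

namespace Pool.Agent.Shared.PolyTime

open N487b59b3 N68a2faeb N793a5b8e

variable {α β : Type} [N487b59b3 α] [N487b59b3 β]

/-- Every language in NP reduces in polynomial time to `A`, by a reduction all of whose values
satisfy the promise `Pr`. -/
def NPHardOn (Pr A : α → Prop) : Prop :=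
  ∀ L ∈ NP, ∃ f : List Bool → α, IsPolyTime f ∧ ∀ x, Pr (f x) ∧ (L x = true ↔ A (f x))

/-- Every language in NP reduces in polynomial time to `A`. -/
def NPHard (A : α → Prop) : Prop :=
  ∀ L ∈ NP, ∃ f : List Bool → α, IsPolyTime f ∧ ∀ x, (L x = true ↔ A (f x))

theorem NPHardOn.reduce {Pr A : α → Prop} {Qr B : β → Prop} (h : NPHardOn Pr A) (g : α → β)
    (hg : IsPolyTime g) (hc : ∀ a, Pr a → Qr (g a) ∧ (A a ↔ B (g a))) : NPHardOn Qr B := by
  intro L hL
  obtain ⟨f, hf, hf'⟩ := h L hL
  exact ⟨fun x => g (f x), hg.comp hf, fun x =>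
    ⟨(hc _ (hf' x).1).1, (hf' x).2.trans (hc _ (hf' x).1).2⟩⟩

theorem NPHardOn.npHard_of_reduce {Pr A : α → Prop} {B : β → Prop} (h : NPHardOn Pr A) (g : α → β)
    (hg : IsPolyTime g) (hc : ∀ a, Pr a → (A a ↔ B (g a))) : NPHard B := by
  intro L hL
  obtain ⟨f, hf, hf'⟩ := h L hL
  exact ⟨fun x => g (f x), hg.comp hf, fun x => (hf' x).2.trans (hc _ (hf' x).1)⟩

theorem NPHardOn.npHard {Pr A : α → Prop} (h : NPHardOn Pr A) : NPHard A :=
  h.npHard_of_reduce (fun a => a) IsPolyTime.id' (fun _ _ => Iff.rfl)

theorem NPHardOn.npHard_and {Pr A : α → Prop} (h : NPHardOn Pr A) :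
    NPHard (fun a => Pr a ∧ A a) :=
  h.npHard_of_reduce (fun a => a) IsPolyTime.id' (fun _ ha => (and_iff_right ha).symm)

theorem NPHardOn.mono {Pr Qr A : α → Prop} (h : NPHardOn Pr A) (hPQ : ∀ a, Pr a → Qr a) :
    NPHardOn Qr A := h.reduce (fun a => a) IsPolyTime.id' (fun a ha => ⟨hPQ a ha, Iff.rfl⟩)

theorem NPHard.npHardOn {A : α → Prop} (h : NPHard A) : NPHardOn (fun _ => True) A := by
  intro L hL
  obtain ⟨f, hf, hf'⟩ := h L hL
  exact ⟨f, hf, fun x => ⟨trivial, hf' x⟩⟩

theorem NPHard.reduce {A : α → Prop} {B : β → Prop} (h : NPHard A) (g : α → β)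
    (hg : IsPolyTime g) (hc : ∀ a, A a ↔ B (g a)) : NPHard B :=
  h.npHardOn.npHard_of_reduce g hg (fun a _ => hc a)

/-- Any language that agrees with `A` on the codes of instances satisfying the promise is NP-hard
under many-one reductions. -/
theorem NPHardOn.manyOneReducible {Pr A : α → Prop} (h : NPHardOn Pr A) (L : DecisionProblem)
    (hL : ∀ a, Pr a → (L (bitEncode a) = true ↔ A a)) : ∀ L' ∈ NP, ManyOneReducible L' L := by
  intro L' hL'
  obtain ⟨f, hf, hf'⟩ := h L' hL'
  refine ⟨fun x => bitEncode (f x), hf.bitEncode, fun x => ?_⟩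
  rw [Bool.eq_iff_iff, hL _ (hf' x).1]
  exact (hf' x).2

theorem NPHard.manyOneReducible {A : α → Prop} (h : NPHard A) (L : DecisionProblem)
    (hL : ∀ a, L (bitEncode a) = true ↔ A a) : ∀ L' ∈ NP, ManyOneReducible L' L :=
  h.npHardOn.manyOneReducible L (fun a _ => hL a)

theorem manyOneReducible_refl (A : DecisionProblem) : ManyOneReducible A A :=
  ⟨fun x => x, IsPolyTime.id', fun _ => rfl⟩

theorem manyOneReducible_trans {A B C : DecisionProblem} (h₁ : ManyOneReducible A B)
    (h₂ : ManyOneReducible B C) : ManyOneReducible A C := by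
  obtain ⟨f, hf, hf'⟩ := h₁
  obtain ⟨g, hg, hg'⟩ := h₂
  exact ⟨fun x => g (f x), hg.comp hf, fun x => (hf' x).trans (hg' _)⟩

/-- If an NP-hard promise problem is decided on the promise in polynomial time then `P = NP`
(inclusion form). -/
theorem NPHardOn.np_subset_p {Pr A : α → Prop} (h : NPHardOn Pr A) (d : α → Bool)
    (hd : IsPolyTime d) (hA : ∀ a, Pr a → (d a = true ↔ A a)) : NP ⊆ P := by
  intro L hL
  obtain ⟨f, hf, hf'⟩ := h L hL
  refine (hd.comp hf).of_eq (fun x => ?_)
  rw [Bool.eq_iff_iff, hA _ (hf' x).1]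
  exact (hf' x).2.symm

theorem isPolyTime_flatMap_const {ι : Type} (l : List ι) {f : ι → α → List β}
    (hf : ∀ i, IsPolyTime (f i)) : IsPolyTime (fun x => l.flatMap (fun i => f i x)) := by
  induction l with
  | nil => exact IsPolyTime.const _
  | cons i l ih => exact ((hf i).append ih).of_eq (fun x => by simp)

theorem isPolyTime_natPair {f g : α → ℕ} (hf : IsPolyTime f) (hg : IsPolyTime g) :
    IsPolyTime (fun x => Nat.pair (f x) (g x)) := by
  unfold Nat.pair
  fun_prop

theorem isPolyTime_getElem? {l : α → List β} {n : α → ℕ} (hl : IsPolyTime l) (hn : IsPolyTime n) :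
    IsPolyTime (fun x => (l x)[n x]?) := by
  refine (IsPolyTime.listCases (c := fun _ b _ => some b) (IsPolyTime.drop hn hl)
    (IsPolyTime.const none) (by fun_prop)).of_eq (fun x => ?_)
  rw [← List.head?_drop]
  cases List.drop (n x) (l x) <;> rfl

theorem isPolyTime_delimit {l : α → List Bool} (hl : IsPolyTime l) :
    IsPolyTime (fun x => delimit (l x)) := by
  refine IsPolyTime.of_eq (f := fun x => (l x).flatMap (fun b => [true, b]) ++ [false])
    (by fun_prop) (fun x => ?_)
  induction l x with
  | nil => rfl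
  | cons b r ih => simp [delimit, ← ih]

theorem isPolyTime_undelim_fst {l : α → List Bool} (hl : IsPolyTime l) :
    IsPolyTime (fun x => (undelim (l x)).1) :=
  (IsPolyTime.of_comp (f := fun x => Raw.mk (undelim (l x)).1)
    (Comp.undelim_fst hl.rawMk.pt)).rawBits

namespace Tableau

set_option linter.unusedSectionVars false

variable {K : Type} [DecidableEq K] (M : SM K) [N487b59b3 K] [N487b59b3 M.Q]

theorem pt_pad1 {V : Type} [N487b59b3 V] (y z : V) {l : α → Lit V} (hl : IsPolyTime l) :
    IsPolyTime (fun x => pad1 y z (l x)) := by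
  unfold pad1 pad2
  fun_prop

theorem pt_pad2 {V : Type} [N487b59b3 V] (y : V) {l l' : α → Lit V} (hl : IsPolyTime l)
    (hl' : IsPolyTime l') : IsPolyTime (fun x => pad2 y (l x) (l' x)) := by
  unfold pad2
  fun_prop

theorem pt_cv {t i : α → ℕ} (k : K) {s : α → Option Bool} (ht : IsPolyTime t) (hi : IsPolyTime i)
    (hs : IsPolyTime s) : IsPolyTime (fun x => cv M (t x) (i x) k (s x)) := by
  unfold cv
  fun_prop

theorem pt_sv {t : α → ℕ} (q : Option M.Q) (ht : IsPolyTime t) :
    IsPolyTime (fun x => sv M (t x) q) := by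
  unfold sv
  fun_prop

theorem pt_src (m : Option (Option Bool)) {i : α → ℕ} (hi : IsPolyTime i) :
    IsPolyTime (fun x => src m (i x)) := by
  rcases m with _ | _ | _ <;> simp only [src] <;> fun_prop

theorem pt_tr (m : Option (Option Bool)) (s : Option Bool) {i : α → ℕ} (hi : IsPolyTime i) :
    IsPolyTime (fun x => tr m (i x) s) := by
  rcases m with _ | _ | _ <;> simp only [tr] <;> fun_prop

theorem pt_formula (a : K) (Qs : List (Option M.Q)) (Ks : List K) {y : α → List Bool}
    {m T : α → ℕ} (hy : IsPolyTime y) (hm : IsPolyTime m) (hT : IsPolyTime T) (hT' : PolyBdd T) :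
    IsPolyTime (fun x => formula M a Qs Ks (y x) (m x) (T x)) := by
  unfold formula
  refine ((((IsPolyTime.const _).append ?_).append ?_).append ?_).append ?_
  · exact pt_pad1 _ _ ((pt_cv M a hT (IsPolyTime.const _) (IsPolyTime.const _)).pair
      (IsPolyTime.const _))
  · refine isPolyTime_flatMap_const Ks (fun k => ?_)
    refine IsPolyTime.flatMap (f := fun x i => initCl M a (y x) (m x) k i) ?_ (by fun_prop)
    unfold initCl
    refine IsPolyTime.ite (by fun_prop) (pt_pad2 _ ?_ ?_) (pt_pad1 _ _ ?_)
    · exact (pt_cv M k (IsPolyTime.const _) (by fun_prop) (IsPolyTime.const _)).pair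
        (IsPolyTime.const _)
    · exact (pt_cv M k (IsPolyTime.const _) (by fun_prop) (IsPolyTime.const _)).pair
        (IsPolyTime.const _)
    · refine (pt_cv M k (IsPolyTime.const _) (by fun_prop) ?_).pair (IsPolyTime.const _)
      exact IsPolyTime.ite IsPolyTime.decide_const
        (isPolyTime_getElem? (by fun_prop) (by fun_prop)) (IsPolyTime.const _)
  · refine isPolyTime_flatMap_const Qs (fun q => isPolyTime_flatMap_const _ (fun s => ?_))
    refine IsPolyTime.map (f := fun _ t => stateCl M a q s t) ?_ (by fun_prop)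
    unfold stateCl
    exact ((pt_sv M q (by fun_prop)).pair (IsPolyTime.const _)).pair
      (((pt_cv M _ (by fun_prop) (IsPolyTime.const _) (IsPolyTime.const _)).pair
        (IsPolyTime.const _)).pair ((pt_sv M _ (by fun_prop)).pair (IsPolyTime.const _)))
  · refine isPolyTime_flatMap_const Qs (fun q => isPolyTime_flatMap_const Ks (fun k =>
      isPolyTime_flatMap_const _ (fun s => ?_)))
    refine IsPolyTime.flatMap
      (f := fun x t => (List.range (T x + 1)).map fun i => cellCl M q k s t i) ?_ (by fun_prop)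
    refine IsPolyTime.map (f := fun (p : α × ℕ) i => cellCl M q k s p.2 i) ?_ (by fun_prop)
    unfold cellCl
    exact ((pt_sv M q (by fun_prop)).pair (IsPolyTime.const _)).pair
      (((pt_cv M _ (by fun_prop) (pt_src _ (by fun_prop)) (IsPolyTime.const _)).pair
        (IsPolyTime.const _)).pair
        ((pt_cv M _ (by fun_prop) (by fun_prop) (pt_tr _ _ (by fun_prop))).pair
          (IsPolyTime.const _)))

end Tableau

theorem isPolyTime_rename {V W : Type} [N487b59b3 V] [N487b59b3 W] {ρ : V → W}
    (hρ : IsPolyTime ρ) : IsPolyTime (fun φ : List (Clause3 V) => φ.map (Clause3.rename ρ)) := by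
  unfold Clause3.rename
  fun_prop

/-- Cook-Levin: satisfiability of 3-CNF formulas over the variables `ℕ` is NP-hard, even under the
promise that each clause has three distinct variables. -/
theorem npHardOn_sat3 : NPHardOn (Distinct3 (V := ℕ)) Sat3 := by
  classical
  rintro L ⟨p, R, hR, hL⟩
  let R' : List Bool × Raw → Bool := fun z =>
    decide ((undelim z.2.bits).1.length ≤ p.eval z.1.length) && R (z.1, (undelim z.2.bits).1)
  have hw : IsPolyTime (fun z : List Bool × Raw => (undelim z.2.bits).1) :=
    isPolyTime_undelim_fst (by fun_prop)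
  have hR' : IsPolyTime R' := by
    refine IsPolyTime.and (IsPolyTime.decide_nat_le hw.length (by fun_prop)) ?_
    exact hR.comp (IsPolyTime.pair (by fun_prop) hw)
  obtain ⟨K, _, _, a, M, q, hM⟩ := (isPolyTime_iff_comp R').1 hR'
  have := M.fin
  have := Fintype.ofFinite M.Q
  let _ : N487b59b3 K := encFintype K
  let _ : N487b59b3 M.Q := encFintype M.Q
  let y : List Bool → List Bool := fun x => delimit (bitEncode x)
  let m : List Bool → ℕ := fun x => 2 * p.eval x.length + 1
  let T : List Bool → ℕ := fun x => q.eval ((y x).length + m x)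
  have hy : IsPolyTime y := isPolyTime_delimit (by fun_prop)
  have hm : IsPolyTime m := by fun_prop
  have hm' : PolyBdd m := by fun_prop
  have hT : IsPolyTime T := by fun_prop
  have hT' : PolyBdd T := by fun_prop
  let code : Tableau.Kind M → ℕ := fun j => Fintype.equivFin (Tableau.Kind M) j
  have hcode : Function.Injective code :=
    Fin.val_injective.comp (Fintype.equivFin (Tableau.Kind M)).injective
  let ρ : Tableau.Var M → ℕ := fun v => Nat.pair v.1 (Nat.pair v.2.1 (code v.2.2))
  have hρ : Function.Injective ρ := by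
    rintro ⟨t, i, j⟩ ⟨t', i', j'⟩ h
    simp only [ρ, Nat.pair_eq_pair] at h
    obtain ⟨rfl, rfl, h⟩ := h
    rw [hcode h]
  have hρ' : IsPolyTime ρ :=
    isPolyTime_natPair (by fun_prop) (isPolyTime_natPair (by fun_prop)
      ((IsPolyTime.of_finite code).comp (by fun_prop)))
  refine ⟨fun x => (Tableau.formula M a Finset.univ.toList Finset.univ.toList (y x) (m x)
    (T x)).map (Clause3.rename ρ),
    (isPolyTime_rename hρ').comp (Tableau.pt_formula M a _ _ hy hm hT hT'), fun x => ?_⟩
  refine ⟨distinct3_rename hρ (Tableau.distinct_formula M a _ _ _ _ _), ?_⟩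
  rw [sat3_rename hρ, Tableau.sat_formula M a _ (by simp) _ (by simp) (y x) (m x) (T x)
    (fun u => R' (x, ⟨u⟩)) (fun u hu => by
      have := hM (x, ⟨u⟩)
      simp only [enc_pair, enc_raw, enc_bool, List.length_append, hu] at this
      exact this), hL x]
  constructor
  · rintro ⟨w, hw1, hw2⟩
    refine ⟨delimit w ++ List.replicate (2 * (p.eval x.length - w.length)) false, ?_, ?_⟩
    · simp only [List.length_append, length_delimit, List.length_replicate, m]
      omega
    · simp [R', hw1, hw2]
  · rintro ⟨u, -, hu⟩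
    simp only [R', Bool.and_eq_true, decide_eq_true_eq] at hu
    exact ⟨_, hu.1, hu.2⟩

theorem npHard_sat3 : NPHard (Sat3 (V := ℕ)) := npHardOn_sat3.npHard

end Pool.Agent.Shared.PolyTime
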