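import Pool.Agent.Shared.PolyTime.CookLevin

/-!
Further NP-hard base problems: CNF satisfiability, monotone not-all-equal 3-SAT, monotone
one-in-three 3-SAT, 3-colourability of graphs given by edge lists.
-/

namespace Pool.Agent.Shared.PolyTime

open N487b59b3 N68a2faeb N793a5b8e Function

/-- An injective polynomial-time numbering of an encodable type. -/
def numberOf {V : Type} [N487b59b3 V] (v : V) : ℕ := ofBits (bitEncode v ++ [true])

theorem numberOf_injective {V : Type} [N487b59b3 V] : Injective (numberOf : V → ℕ) := by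
  intro v w h
  have := congrArg Nat.bits h
  simp only [numberOf, bits_ofBits_append_true, List.append_cancel_right_eq] at this
  exact bitEncode_injective this

theorem isPolyTime_numberOf {V : Type} [N487b59b3 V] : IsPolyTime (numberOf : V → ℕ) := by
  unfold numberOf
  fun_prop

/-! ### CNF -/

/-- The CNF formula is satisfiable. -/
def SatCNF {V : Type} (φ : List (List (Lit V))) : Prop :=
  ∃ ν : V → Bool, ∀ c ∈ φ, ∃ l ∈ c, ν l.1 = l.2

/-- Every clause has exactly three literals, on distinct variables. -/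
def Exact3 {V : Type} (φ : List (List (Lit V))) : Prop :=
  ∀ c ∈ φ, c.length = 3 ∧ (c.map Prod.fst).Nodup

theorem npHardOn_satCNF : NPHardOn (Exact3 (V := ℕ)) SatCNF := by
  refine npHardOn_sat3.reduce (fun φ => φ.map (fun c => [c.1, c.2.1, c.2.2])) (by fun_prop) ?_
  intro φ hφ
  constructor
  · intro c hc
    obtain ⟨c', hc', rfl⟩ := List.mem_map.1 hc
    obtain ⟨h1, h2, h3⟩ := hφ c' hc'
    simp [h1, h2, h3]
  · simp only [Sat3, SatCNF, Clause3.Holds, List.forall_mem_map, List.mem_cons, List.not_mem_nil,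
      or_false, exists_eq_or_imp, exists_eq_left]

theorem npHard_satCNF : NPHard (SatCNF (V := ℕ)) := npHardOn_satCNF.npHard

/-! ### Problems on lists of triples -/

/-- The three entries of every triple are distinct. -/
def DistinctTriples {V : Type} (φ : List (V × V × V)) : Prop :=
  ∀ c ∈ φ, c.1 ≠ c.2.1 ∧ c.1 ≠ c.2.2 ∧ c.2.1 ≠ c.2.2

/-- Monotone not-all-equal 3-SAT: 2-colourability of the 3-uniform hypergraph. -/
def MonoNAE3 {V : Type} (φ : List (V × V × V)) : Prop :=
  ∃ ν : V → Bool, ∀ c ∈ φ, ¬ (ν c.1 = ν c.2.1 ∧ ν c.2.1 = ν c.2.2)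

/-- Monotone one-in-three 3-SAT: exactly one entry of every triple is true. -/
def MonoOneIn3 {V : Type} (φ : List (V × V × V)) : Prop :=
  ∃ ν : V → Bool, ∀ c ∈ φ, (ν c.1).toNat + (ν c.2.1).toNat + (ν c.2.2).toNat = 1

/-- Rename the entries of a triple. -/
def renameTriple {V W : Type} (ρ : V → W) (c : V × V × V) : W × W × W := (ρ c.1, ρ c.2.1, ρ c.2.2)

theorem distinctTriples_rename {V W : Type} {ρ : V → W} (hρ : Injective ρ) {φ : List (V × V × V)}
    (h : DistinctTriples φ) : DistinctTriples (φ.map (renameTriple ρ)) := by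
  intro c hc
  obtain ⟨c', hc', rfl⟩ := List.mem_map.1 hc
  obtain ⟨h1, h2, h3⟩ := h c' hc'
  exact ⟨hρ.ne h1, hρ.ne h2, hρ.ne h3⟩

theorem monoNAE3_rename {V W : Type} {ρ : V → W} (hρ : Injective ρ) (φ : List (V × V × V)) :
    MonoNAE3 φ ↔ MonoNAE3 (φ.map (renameTriple ρ)) := by
  constructor
  · rintro ⟨ν, hν⟩
    refine ⟨Function.extend ρ ν (fun _ => false), fun c hc => ?_⟩
    obtain ⟨c', hc', rfl⟩ := List.mem_map.1 hc
    simpa only [renameTriple, hρ.extend_apply] using hν c' hc'
  · rintro ⟨ν, hν⟩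
    exact ⟨fun v => ν (ρ v), fun c hc => hν _ (List.mem_map_of_mem hc)⟩

theorem monoOneIn3_rename {V W : Type} {ρ : V → W} (hρ : Injective ρ) (φ : List (V × V × V)) :
    MonoOneIn3 φ ↔ MonoOneIn3 (φ.map (renameTriple ρ)) := by
  constructor
  · rintro ⟨ν, hν⟩
    refine ⟨Function.extend ρ ν (fun _ => false), fun c hc => ?_⟩
    obtain ⟨c', hc', rfl⟩ := List.mem_map.1 hc
    simpa only [renameTriple, hρ.extend_apply] using hν c' hc'
  · rintro ⟨ν, hν⟩
    exact ⟨fun v => ν (ρ v), fun c hc => hν _ (List.mem_map_of_mem hc)⟩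

theorem isPolyTime_renameTriple {V : Type} [N487b59b3 V] :
    IsPolyTime (fun φ : List (V × V × V) => φ.map (renameTriple numberOf)) := by
  have := isPolyTime_numberOf (V := V)
  unfold renameTriple
  fun_prop

/-- Variables of the not-all-equal gadget. -/
abbrev NVar : Type := Lit ℕ ⊕ (Clause3 ℕ × Bool) ⊕ ℕ

/-- Three triples forcing `x` and `y` to differ. -/
def naeNe (x y : NVar) : List (NVar × NVar × NVar) :=
  [(x, y, .inr (.inr 1)), (x, y, .inr (.inr 2)), (x, y, .inr (.inr 3))]

/-- The not-all-equal gadget of a clause. -/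
def naeGadget (c : Clause3 ℕ) : List (NVar × NVar × NVar) :=
  [(.inl c.1, .inl c.2.1, .inr (.inl (c, true))), (.inr (.inl (c, false)), .inl c.2.2, .inr (.inr 0)),
    (.inr (.inr 1), .inr (.inr 2), .inr (.inr 3))] ++
  naeNe (.inr (.inl (c, true))) (.inr (.inl (c, false))) ++
  naeNe (.inl (c.1.1, true)) (.inl (c.1.1, false)) ++
  naeNe (.inl (c.2.1.1, true)) (.inl (c.2.1.1, false)) ++
  naeNe (.inl (c.2.2.1, true)) (.inl (c.2.2.1, false))

theorem npHardOn_monoNAE3_aux : NPHardOn (DistinctTriples (V := NVar)) MonoNAE3 := by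
  refine npHardOn_sat3.reduce (fun φ => φ.flatMap naeGadget) (by
    unfold naeGadget naeNe
    fun_prop) ?_
  intro φ hφ
  refine ⟨?_, ?_, ?_⟩
  · refine List.forall_mem_flatMap.2 (fun c hc => ?_)
    obtain ⟨h1, h2, h3⟩ := hφ c hc
    have h4 : c.1 ≠ c.2.1 := fun h => h1 (congrArg Prod.fst h)
    simp [naeGadget, naeNe, h4]
  · rintro ⟨ν, hν⟩
    refine ⟨Sum.elim (fun l => ν l.1 == l.2) (Sum.elim
      (fun p => (!(ν p.1.1.1 == p.1.1.2) && !(ν p.1.2.1.1 == p.1.2.1.2)) == p.2)
      (fun n => n == 1)), ?_⟩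
    rw [List.forall_mem_flatMap]
    rintro ⟨⟨x, a⟩, ⟨y, b⟩, ⟨z, d⟩⟩ hc
    have h := hν _ hc
    simp only [Clause3.Holds] at h
    simp only [naeGadget, naeNe, List.cons_append, List.nil_append, List.mem_cons, List.not_mem_nil,
      or_false, forall_eq_or_imp, forall_eq, Sum.elim_inl, Sum.elim_inr]
    revert h
    cases ν x <;> cases ν y <;> cases ν z <;> cases a <;> cases b <;> cases d <;> decide
  · rintro ⟨μ, hμ⟩
    refine ⟨fun x => μ (.inl (x, true)) != μ (.inr (.inr 0)), ?_⟩
    rintro ⟨⟨x, a⟩, ⟨y, b⟩, ⟨z, d⟩⟩ hc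
    have h : ∀ t ∈ naeGadget ((x, a), (y, b), (z, d)), _ :=
      fun t ht => hμ t (List.mem_flatMap.2 ⟨_, hc, ht⟩)
    simp only [naeGadget, naeNe, List.cons_append, List.nil_append, List.mem_cons, List.not_mem_nil,
      or_false, forall_eq_or_imp, forall_eq] at h
    simp only [Clause3.Holds]
    obtain ⟨h1, h2, h3, h⟩ := h
    have key : ∀ p q : Bool, ¬ (p = q ∧ q = μ (.inr (.inr 1))) → ¬ (p = q ∧ q = μ (.inr (.inr 2))) →
        ¬ (p = q ∧ q = μ (.inr (.inr 3))) → q = !p := by
      revert h3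
      cases μ (.inr (.inr 1)) <;> cases μ (.inr (.inr 2)) <;> cases μ (.inr (.inr 3)) <;> decide
    obtain ⟨a1, a2, a3, b1, b2, b3, c1, c2, c3, d1, d2, d3⟩ := h
    have e1 := key _ _ a1 a2 a3
    have e2 := key _ _ b1 b2 b3
    have e3 := key _ _ c1 c2 c3
    have e4 := key _ _ d1 d2 d3
    rw [e1] at h2
    revert h1 h2
    generalize μ (.inr (.inl (((x, a), (y, b), (z, d)), true))) = w
    cases a <;> cases b <;> cases d <;> (try simp only [e2, e3, e4]) <;>
      cases μ (.inl (x, true)) <;> cases μ (.inl (y, true)) <;> cases μ (.inl (z, true)) <;>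
      cases μ (.inr (.inr 0)) <;> cases w <;> decide

/-- Monotone not-all-equal 3-SAT (set splitting, 2-colouring of 3-uniform hypergraphs) is NP-hard,
even when every triple has three distinct entries. -/
theorem npHardOn_monoNAE3 : NPHardOn (DistinctTriples (V := ℕ)) MonoNAE3 :=
  npHardOn_monoNAE3_aux.reduce _ isPolyTime_renameTriple (fun φ hφ =>
    ⟨distinctTriples_rename numberOf_injective hφ, monoNAE3_rename numberOf_injective φ⟩)

/-- Variables of the one-in-three gadget. -/
abbrev OVar : Type := Lit ℕ ⊕ (Clause3 ℕ × ℕ) ⊕ ℕ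

/-- The one-in-three gadget of a clause. -/
def oneGadget (c : Clause3 ℕ) : List (OVar × OVar × OVar) :=
  [(.inl (c.1.1, !c.1.2), .inr (.inl (c, 0)), .inr (.inl (c, 1))),
    (.inl c.2.1, .inr (.inl (c, 1)), .inr (.inl (c, 2))),
    (.inl (c.2.2.1, !c.2.2.2), .inr (.inl (c, 2)), .inr (.inl (c, 3))),
    (.inr (.inr 0), .inr (.inr 1), .inr (.inr 2)), (.inr (.inr 0), .inr (.inr 2), .inr (.inr 3)),
    (.inr (.inr 0), .inr (.inr 1), .inr (.inr 3)),
    (.inl (c.1.1, true), .inl (c.1.1, false), .inr (.inr 1)),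
    (.inl (c.2.1.1, true), .inl (c.2.1.1, false), .inr (.inr 1)),
    (.inl (c.2.2.1, true), .inl (c.2.2.1, false), .inr (.inr 1))]

/-- Values of the auxiliary variables of the one-in-three gadget. -/
def oneAux (p q r : Bool) (n : ℕ) : Bool :=
  if n = 0 then p && q else if n = 1 then p && !q else if n = 2 then !p && !q else r && (p || q)

theorem npHardOn_monoOneIn3_aux : NPHardOn (DistinctTriples (V := OVar)) MonoOneIn3 := by
  refine npHardOn_sat3.reduce (fun φ => φ.flatMap oneGadget) (by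
    unfold oneGadget
    fun_prop) ?_
  intro φ hφ
  refine ⟨?_, ?_, ?_⟩
  · refine List.forall_mem_flatMap.2 (fun c hc => ?_)
    simp [oneGadget]
  · rintro ⟨ν, hν⟩
    refine ⟨Sum.elim (fun l => ν l.1 == l.2) (Sum.elim
      (fun p => oneAux (ν p.1.1.1 == p.1.1.2) (ν p.1.2.1.1 == p.1.2.1.2)
        (ν p.1.2.2.1 == p.1.2.2.2) p.2) (fun n => n == 0)), ?_⟩
    rw [List.forall_mem_flatMap]
    rintro ⟨⟨x, a⟩, ⟨y, b⟩, ⟨z, d⟩⟩ hc
    have h := hν _ hc
    simp only [Clause3.Holds] at h
    simp only [oneGadget, List.mem_cons, List.not_mem_nil,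
      or_false, forall_eq_or_imp, forall_eq, Sum.elim_inl, Sum.elim_inr]
    revert h
    cases ν x <;> cases ν y <;> cases ν z <;> cases a <;> cases b <;> cases d <;> decide
  · rintro ⟨μ, hμ⟩
    refine ⟨fun x => μ (.inl (x, true)), ?_⟩
    rintro ⟨⟨x, a⟩, ⟨y, b⟩, ⟨z, d⟩⟩ hc
    have h : ∀ t ∈ oneGadget ((x, a), (y, b), (z, d)), _ :=
      fun t ht => hμ t (List.mem_flatMap.2 ⟨_, hc, ht⟩)
    simp only [oneGadget, List.mem_cons, List.not_mem_nil,
      or_false, forall_eq_or_imp, forall_eq] at h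
    simp only [Clause3.Holds]
    obtain ⟨h1, h2, h3, g1, g2, g3, k1, k2, k3⟩ := h
    have e0 : μ (.inr (.inr 1)) = false := by
      revert g1 g2 g3
      cases μ (.inr (.inr 0)) <;> cases μ (.inr (.inr 1)) <;> cases μ (.inr (.inr 2)) <;>
        cases μ (.inr (.inr 3)) <;> decide
    have key : ∀ p q : Bool, p.toNat + q.toNat + false.toNat = 1 → q = !p := by decide
    rw [e0] at k1 k2 k3
    have e2 := key _ _ k1
    have e3 := key _ _ k2
    have e4 := key _ _ k3
    revert h1 h2 h3
    generalize μ (.inr (.inl (((x, a), (y, b), (z, d)), 0))) = w0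
    generalize μ (.inr (.inl (((x, a), (y, b), (z, d)), 1))) = w1
    generalize μ (.inr (.inl (((x, a), (y, b), (z, d)), 2))) = w2
    generalize μ (.inr (.inl (((x, a), (y, b), (z, d)), 3))) = w3
    cases a <;> cases b <;> cases d <;> simp only [Bool.not_true, Bool.not_false, e2, e3, e4] <;>
      cases μ (.inl (x, true)) <;> cases μ (.inl (y, true)) <;> cases μ (.inl (z, true)) <;>
      revert w0 w1 w2 w3 <;> decide

/-- Monotone one-in-three 3-SAT is NP-hard, even when every triple has three distinct entries. -/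
theorem npHardOn_monoOneIn3 : NPHardOn (DistinctTriples (V := ℕ)) MonoOneIn3 :=
  npHardOn_monoOneIn3_aux.reduce _ isPolyTime_renameTriple (fun φ hφ =>
    ⟨distinctTriples_rename numberOf_injective hφ, monoOneIn3_rename numberOf_injective φ⟩)

/-! ### Graph colouring -/

/-- The edge list has no loop. -/
def Loopless {V : Type} (E : List (V × V)) : Prop := ∀ e ∈ E, e.1 ≠ e.2

/-- The graph with edge list `E` has a proper colouring with `k` colours. -/
def ColorableEdges {V : Type} (k : ℕ) (E : List (V × V)) : Prop :=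
  ∃ col : V → Fin k, ∀ e ∈ E, col e.1 ≠ col e.2

theorem colorableEdges_rename {V W : Type} {ρ : V → W} (hρ : Injective ρ) (k : ℕ) [NeZero k]
    (E : List (V × V)) : ColorableEdges k E ↔ ColorableEdges k (E.map (fun e => (ρ e.1, ρ e.2))) := by
  constructor
  · rintro ⟨ν, hν⟩
    refine ⟨Function.extend ρ ν (fun _ => 0), fun c hc => ?_⟩
    obtain ⟨c', hc', rfl⟩ := List.mem_map.1 hc
    simpa only [hρ.extend_apply] using hν c' hc'
  · rintro ⟨ν, hν⟩
    exact ⟨fun v => ν (ρ v), fun c hc => hν _ (List.mem_map_of_mem hc)⟩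

/-- Vertices of the colouring gadget. -/
abbrev CVar : Type := Option ℕ ⊕ ((ℕ × ℕ × ℕ) × ℕ)

/-- The colouring gadget of a triple. -/
def colGadget (c : ℕ × ℕ × ℕ) : List (CVar × CVar) :=
  [(.inl none, .inl (some c.1)), (.inl none, .inl (some c.2.1)), (.inl none, .inl (some c.2.2)),
    (.inr (c, 0), .inr (c, 1)), (.inr (c, 0), .inr (c, 2)), (.inr (c, 1), .inr (c, 2)),
    (.inr (c, 0), .inl (some c.1)), (.inr (c, 1), .inl (some c.2.1)),
    (.inr (c, 2), .inl (some c.2.2))]

/-- Colours of the triangle of the colouring gadget. -/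
def colAux (p q r : Bool) (n : ℕ) : Fin 3 :=
  if n = 0 then (if p then 0 else 1) else if n = 1 then (if p = q then 2 else if q then 0 else 1)
  else (if p = q then (if r then 0 else 1) else 2)

theorem npHardOn_colorable3_aux : NPHardOn (Loopless (V := CVar)) (ColorableEdges 3) := by
  refine npHardOn_monoNAE3.reduce (fun φ => φ.flatMap colGadget) (by
    unfold colGadget
    fun_prop) ?_
  intro φ _
  refine ⟨?_, ?_, ?_⟩
  · refine List.forall_mem_flatMap.2 (fun c hc => ?_)
    simp [colGadget]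
  · rintro ⟨ν, hν⟩
    refine ⟨Sum.elim (fun o => o.elim 2 (fun x => if ν x then 1 else 0))
      (fun p => colAux (ν p.1.1) (ν p.1.2.1) (ν p.1.2.2) p.2), ?_⟩
    rw [List.forall_mem_flatMap]
    rintro ⟨x, y, z⟩ hc
    have h := hν _ hc
    simp only [colGadget, List.mem_cons, List.not_mem_nil, or_false, forall_eq_or_imp, forall_eq,
      Sum.elim_inl, Sum.elim_inr, Option.elim_none, Option.elim_some]
    revert h
    dsimp only
    cases ν x <;> cases ν y <;> cases ν z <;> decide
  · rintro ⟨col, hcol⟩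
    refine ⟨fun x => decide (col (.inl (some x)) = col (.inl none) + 1), ?_⟩
    rintro ⟨x, y, z⟩ hc
    have h : ∀ t ∈ colGadget (x, y, z), _ := fun t ht => hcol t (List.mem_flatMap.2 ⟨_, hc, ht⟩)
    simp only [colGadget, List.mem_cons, List.not_mem_nil, or_false, forall_eq_or_imp,
      forall_eq] at h
    revert h
    dsimp only
    generalize col (.inl none) = a
    generalize col (.inl (some x)) = b
    generalize col (.inl (some y)) = c
    generalize col (.inl (some z)) = d
    generalize col (.inr ((x, y, z), 0)) = e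
    generalize col (.inr ((x, y, z), 1)) = f
    generalize col (.inr ((x, y, z), 2)) = g
    revert a b c d e f g
    decide +kernel

/-- 3-colourability of loopless graphs given by edge lists is NP-hard. -/
theorem npHardOn_colorable3 : NPHardOn (Loopless (V := ℕ)) (ColorableEdges 3) := by
  have := isPolyTime_numberOf (V := CVar)
  refine npHardOn_colorable3_aux.reduce
    (fun E => E.map (fun e => (numberOf e.1, numberOf e.2))) (by fun_prop) (fun E hE =>
    ⟨?_, colorableEdges_rename numberOf_injective 3 E⟩)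
  intro e he
  obtain ⟨e', he', rfl⟩ := List.mem_map.1 he
  exact numberOf_injective.ne (hE e' he')

end Pool.Agent.Shared.PolyTime
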