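import Pool.Agent.Shared.PolyTime.CookLevin

/-!
Membership in NP for typed problems, and NP-completeness wrappers.
-/

namespace Pool.Agent.Shared.PolyTime

open N487b59b3 N68a2faeb N793a5b8e

variable {α β : Type} [N487b59b3 α] [N487b59b3 β]

open Classical in
/-- The language of the codes of the instances satisfying `A`. -/
noncomputable def langOf (A : α → Prop) : DecisionProblem :=
  fun l => decide (∃ a, bitEncode a = l ∧ A a)

theorem langOf_iff (A : α → Prop) (l : List Bool) :
    langOf A l = true ↔ ∃ a, bitEncode a = l ∧ A a := by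
  simp [langOf]

theorem langOf_encode (A : α → Prop) (a : α) : langOf A (bitEncode a) = true ↔ A a := by
  rw [langOf_iff]
  constructor
  · rintro ⟨a', h, ha⟩
    rwa [← bitEncode_injective h]
  · exact fun ha => ⟨a, rfl, ha⟩

/-- Membership in NP of the language of codes, from a typed verifier. -/
theorem mem_NP_of_verifier (hα : IsPolyTime (bitDecode : List Bool → Option α))
    (hβ : IsPolyTime (bitDecode : List Bool → Option β)) {A : α → Prop} (R : α → β → Bool)
    (hR : IsPolyTime (fun z : α × β => R z.1 z.2)) (B : α → ℕ) (hB : PolyBdd B)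
    (hc : ∀ a, A a → ∃ w, bsize w ≤ B a ∧ R a w = true) (hs : ∀ a w, R a w = true → A a)
    (L : DecisionProblem) (hL : ∀ l, L l = true ↔ ∃ a, bitEncode a = l ∧ A a) : L ∈ NP := by
  obtain ⟨p, hp⟩ := hB
  refine ⟨p, fun z => (bitDecode z.1 : Option α).any (fun a =>
    (bitDecode z.2 : Option β).any (fun w => decide (bitEncode a = z.1) && R a w)), ?_, ?_⟩
  · refine IsPolyTime.optionAny (hα.comp (by fun_prop)) ?_
    refine IsPolyTime.optionAny (hβ.comp (by fun_prop)) ?_
    refine IsPolyTime.and (by fun_prop) ?_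
    exact hR.comp (g := fun z : ((List Bool × List Bool) × α) × β => (z.1.2, z.2)) (by fun_prop)
  · intro l
    rw [hL]
    constructor
    · rintro ⟨a, rfl, ha⟩
      obtain ⟨w, hw, hw'⟩ := hc a ha
      exact ⟨bitEncode w, hw.trans (hp a), by simp [hw']⟩
    · rintro ⟨u, -, hu⟩
      simp only [Option.any_eq_true, Bool.and_eq_true, decide_eq_true_eq] at hu
      obtain ⟨a, -, w, -, h1, h2⟩ := hu
      exact ⟨a, h1, hs a w h2⟩

/-- Membership in NP of the language of strings that decode to a yes-instance. -/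
theorem mem_NP_of_verifier_decode (hα : IsPolyTime (bitDecode : List Bool → Option α))
    (hβ : IsPolyTime (bitDecode : List Bool → Option β)) {A : α → Prop} (R : α → β → Bool)
    (hR : IsPolyTime (fun z : α × β => R z.1 z.2)) (B : α → ℕ) (hB : PolyBdd B)
    (hc : ∀ a, A a → ∃ w, bsize w ≤ B a ∧ R a w = true) (hs : ∀ a w, R a w = true → A a)
    (L : DecisionProblem) (hL : ∀ l, L l = true ↔ ∃ a, bitDecode l = some a ∧ A a) : L ∈ NP := by
  obtain ⟨p, hp⟩ := hB
  obtain ⟨q, hq⟩ := PolyBdd.bsize hα
  refine ⟨p.comp (q.comp (3 * Polynomial.X)), fun z => (bitDecode z.1 : Option α).any (fun a =>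
    (bitDecode z.2 : Option β).any (fun w => R a w)), ?_, ?_⟩
  · refine IsPolyTime.optionAny (hα.comp (by fun_prop)) ?_
    refine IsPolyTime.optionAny (hβ.comp (by fun_prop)) ?_
    exact hR.comp (g := fun z : ((List Bool × List Bool) × α) × β => (z.1.2, z.2)) (by fun_prop)
  · intro l
    rw [hL]
    constructor
    · rintro ⟨a, hl, ha⟩
      obtain ⟨w, hw, hw'⟩ := hc a ha
      refine ⟨bitEncode w, hw.trans ((hp a).trans ?_), by simp [hl, hw']⟩
      have h1 := hq l
      dsimp only at h1
      rw [hl, bsize_some, bsize_boolList] at h1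
      simp only [Polynomial.eval_comp, Polynomial.eval_mul, Polynomial.eval_ofNat,
        Polynomial.eval_X]
      exact eval_mono p (by omega)
    · rintro ⟨u, -, hu⟩
      simp only [Option.any_eq_true] at hu
      obtain ⟨a, h1, w, -, h2⟩ := hu
      exact ⟨a, h1, hs a w h2⟩

theorem langOf_mem_NP (hα : IsPolyTime (bitDecode : List Bool → Option α))
    (hβ : IsPolyTime (bitDecode : List Bool → Option β)) {A : α → Prop} (R : α → β → Bool)
    (hR : IsPolyTime (fun z : α × β => R z.1 z.2)) (B : α → ℕ) (hB : PolyBdd B)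
    (hc : ∀ a, A a → ∃ w, bsize w ≤ B a ∧ R a w = true) (hs : ∀ a w, R a w = true → A a) :
    langOf A ∈ NP :=
  mem_NP_of_verifier hα hβ R hR B hB hc hs _ (langOf_iff A)

theorem NPHard.isCompleteFor {A : α → Prop} (h : NPHard A) (hA : langOf A ∈ NP) :
    IsCompleteFor NP (langOf A) :=
  ⟨hA, h.manyOneReducible _ (langOf_encode A)⟩

/-- A language of codes is in P if membership is decided by a polynomial-time function. -/
theorem mem_P_of_decider (hα : IsPolyTime (bitDecode : List Bool → Option α)) {A : α → Prop}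
    (d : α → Bool) (hd : IsPolyTime d) (hA : ∀ a, d a = true ↔ A a)
    (L : DecisionProblem) (hL : ∀ l, L l = true ↔ ∃ a, bitEncode a = l ∧ A a) : L ∈ P := by
  have h : IsPolyTime (fun l : List Bool => (bitDecode l : Option α).any (fun a =>
      decide (bitEncode a = l) && d a)) :=
    IsPolyTime.optionAny hα (IsPolyTime.and (by fun_prop) (hd.comp (by fun_prop)))
  refine h.of_eq (fun l => ?_)
  rw [Bool.eq_iff_iff, hL]
  simp only [Option.any_eq_true, Bool.and_eq_true, decide_eq_true_eq]
  constructor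
  · rintro ⟨a, -, h1, h2⟩
    exact ⟨a, h1, (hA a).1 h2⟩
  · rintro ⟨a, rfl, h2⟩
    exact ⟨a, by simp, rfl, (hA a).2 h2⟩

theorem langOf_mem_P (hα : IsPolyTime (bitDecode : List Bool → Option α)) {A : α → Prop}
    (d : α → Bool) (hd : IsPolyTime d) (hA : ∀ a, d a = true ↔ A a) : langOf A ∈ P :=
  mem_P_of_decider hα d hd hA _ (langOf_iff A)

theorem P_subset_NP : P ⊆ NP := by
  intro L hL
  refine ⟨0, fun z => L z.1, IsPolyTime.comp hL (by fun_prop), fun x => ?_⟩
  constructor
  · exact fun h => ⟨[], by simp, h⟩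
  · rintro ⟨_, -, h⟩
    exact h

theorem mem_P_of_manyOneReducible {A B : DecisionProblem} (h : ManyOneReducible A B)
    (hB : B ∈ P) : A ∈ P := by
  obtain ⟨f, hf, hf'⟩ := h
  exact (IsPolyTime.comp hB hf).of_eq (fun x => (hf' x).symm)

theorem mem_NP_of_manyOneReducible {A B : DecisionProblem} (h : ManyOneReducible A B)
    (hB : B ∈ NP) : A ∈ NP := by
  obtain ⟨f, hf, hf'⟩ := h
  obtain ⟨p, R, hR, hL⟩ := hB
  obtain ⟨q, hq⟩ := PolyBdd.length hf
  refine ⟨p.comp (q.comp (3 * Polynomial.X)),
    fun z => decide (z.2.length ≤ p.eval (f z.1).length) && R (f z.1, z.2), ?_, fun x => ?_⟩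
  · exact IsPolyTime.and (by fun_prop) (hR.comp (by fun_prop))
  · rw [hf' x, hL]
    constructor
    · rintro ⟨w, hw, hw'⟩
      refine ⟨w, hw.trans ?_, by simp [hw, hw']⟩
      have h1 := hq x
      rw [bsize_boolList] at h1
      simp only [Polynomial.eval_comp, Polynomial.eval_mul, Polynomial.eval_ofNat,
        Polynomial.eval_X]
      exact eval_mono p h1
    · rintro ⟨w, -, hw⟩
      simp only [Bool.and_eq_true, decide_eq_true_eq] at hw
      exact ⟨w, hw.1, hw.2⟩

end Pool.Agent.Shared.PolyTime
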