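import Pool.Agent.Shared.PolyTime.Nat

/-!
Further list operations; structural recursion on lists and numbers.
-/

set_option linter.unusedVariables false

namespace N68a2faeb.IsPolyTime

open Pool.Agent.Shared.PolyTime N487b59b3

variable {α β γ δ : Type} [N487b59b3 α] [N487b59b3 β] [N487b59b3 γ] [N487b59b3 δ]

/-- Structural recursion on a list, given a bound on the values at all suffixes. -/
theorem list_rec_bound (F : α → List β → γ) (n : α → γ) (c : α → β → List β → γ → γ)
    (h0 : ∀ x, F x [] = n x) (h1 : ∀ x b r, F x (b :: r) = c x b r (F x r)) (hn : IsPolyTime n)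
    (hc : IsPolyTime (fun p : α × β × List β × γ => c p.1 p.2.1 p.2.2.1 p.2.2.2))
    {l : α → List β} (hl : IsPolyTime l) (B : α → ℕ) (hB : PolyBdd B)
    (hb : ∀ x i, bsize (F x ((l x).drop i)) ≤ B x) : IsPolyTime (fun x => F x (l x)) := by
  have key : ∀ x (r : List β), r.foldr (fun b (s : List β × γ) => (b :: s.1, c x b s.1 s.2))
      ([], n x) = (r, F x r) := by
    intro x r
    induction r with
    | nil => rw [h0]; rfl
    | cons b r ih => rw [List.foldr_cons, ih, h1]
  refine (foldr (f := fun x b (s : List β × γ) => (b :: s.1, c x b s.1 s.2))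
    (init := fun x => ([], n x)) (by fun_prop) (by fun_prop) hl
    (fun x => 2 * bsize (l x) + 1 + B x) (by fun_prop) fun x i => ?_).snd.of_eq
    (fun x => by rw [key])
  rw [key, bsize_pair]
  have h1 := hb x i
  have h2 := bsize_sublist (List.drop_sublist i (l x))
  omega

/-- Structural recursion on a list: a function with polynomially bounded output size that
satisfies recursion equations with polynomial-time steps is polynomial-time. -/
theorem list_rec (F : α → List β → γ) (n : α → γ) (c : α → β → List β → γ → γ)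
    (h0 : ∀ x, F x [] = n x) (h1 : ∀ x b r, F x (b :: r) = c x b r (F x r)) (hn : IsPolyTime n)
    (hc : IsPolyTime (fun p : α × β × List β × γ => c p.1 p.2.1 p.2.2.1 p.2.2.2))
    (hB : PolyBdd (fun p : α × List β => bsize (F p.1 p.2))) :
    IsPolyTime (fun p : α × List β => F p.1 p.2) := by
  obtain ⟨q, hq⟩ := hB
  refine list_rec_bound (fun (p : α × List β) r => F p.1 r) (fun p => n p.1)
    (fun p => c p.1) (fun p => h0 p.1) (fun p => h1 p.1) (by fun_prop) (by fun_prop)
    (by fun_prop) (fun p => q.eval (bsize p)) (by fun_prop) fun p i => ?_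
  refine (hq (p.1, p.2.drop i)).trans (eval_mono q ?_)
  have := bsize_sublist (List.drop_sublist i p.2)
  rw [bsize_pair, bsize_prod]
  omega

/-- Structural recursion on a list, without parameter. -/
theorem list_rec₁ (F : List β → γ) (c : β → List β → γ → γ)
    (h1 : ∀ b r, F (b :: r) = c b r (F r))
    (hc : IsPolyTime (fun p : β × List β × γ => c p.1 p.2.1 p.2.2))
    (hB : PolyBdd (fun l : List β => bsize (F l))) : IsPolyTime F :=
  (list_rec (α := Unit) (fun _ => F) (fun _ => F []) (fun _ => c) (fun _ => rfl) (fun _ => h1)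
    (by fun_prop) (by fun_prop) (hB.comp (by fun_prop))).comp
    (g := fun l => ((), l)) (by fun_prop)

/-- Recursion on a polynomially bounded number. -/
theorem nat_rec (F : α → ℕ → γ) (z : α → γ) (c : α → ℕ → γ → γ)
    (h0 : ∀ x, F x 0 = z x) (h1 : ∀ x i, F x (i + 1) = c x i (F x i)) (hz : IsPolyTime z)
    (hc : IsPolyTime (fun p : α × ℕ × γ => c p.1 p.2.1 p.2.2)) {n : α → ℕ} (hn : IsPolyTime n)
    (hn' : PolyBdd n) (B : α → ℕ) (hB : PolyBdd B) (hb : ∀ x i, i ≤ n x → bsize (F x i) ≤ B x) :
    IsPolyTime (fun x => F x (n x)) := by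
  have key : ∀ x i, Nat.rec (motive := fun _ => γ) (z x) (c x) i = F x i := by
    intro x i
    induction i with
    | zero => exact (h0 x).symm
    | succ i ih => rw [h1, ← ih]
  exact (natRec hc hz hn hn' B hB (fun x i hi => by rw [key]; exact hb x i hi)).of_eq
    (fun x => key x _)

@[fun_prop]
theorem foldl_of_finite {σ : Type} [N487b59b3 σ] [Finite σ] {f : α → σ → β → σ} {init : α → σ}
    {l : α → List β} (hf : IsPolyTime (fun p : α × σ × β => f p.1 p.2.1 p.2.2))
    (hi : IsPolyTime init) (hl : IsPolyTime l) :
    IsPolyTime (fun x => (l x).foldl (f x) (init x)) := foldl_finite hf hi hl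

@[fun_prop]
theorem foldr_of_finite {σ : Type} [N487b59b3 σ] [Finite σ] {f : α → β → σ → σ} {init : α → σ}
    {l : α → List β} (hf : IsPolyTime (fun p : α × β × σ => f p.1 p.2.1 p.2.2))
    (hi : IsPolyTime init) (hl : IsPolyTime l) :
    IsPolyTime (fun x => (l x).foldr (f x) (init x)) := foldr_finite hf hi hl

@[fun_prop]
theorem head? {l : α → List β} (hl : IsPolyTime l) : IsPolyTime (fun x => (l x).head?) :=
  (listCases (c := fun _ b _ => some b) hl (const none) (by fun_prop)).of_eq
    (fun x => by cases l x <;> rfl)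

@[fun_prop]
theorem getLast? {l : α → List β} (hl : IsPolyTime l) : IsPolyTime (fun x => (l x).getLast?) :=
  hl.reverse.head?.of_eq (fun x => List.getLast?_eq_head?_reverse.symm)

@[fun_prop]
theorem getElem? {l : α → List β} {i : α → ℕ} (hl : IsPolyTime l) (hi : IsPolyTime i) :
    IsPolyTime (fun x => (l x)[i x]?) :=
  (drop hi hl).head?.of_eq (fun x => by simp)

@[fun_prop]
theorem getD {l : α → List β} {i : α → ℕ} {d : α → β} (hl : IsPolyTime l) (hi : IsPolyTime i)
    (hd : IsPolyTime d) : IsPolyTime (fun x => (l x).getD (i x) (d x)) :=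
  ((hl.getElem? hi).optionGetD hd).of_eq (fun x => by simp)

@[fun_prop]
theorem getElem! [Inhabited β] {l : α → List β} {i : α → ℕ} (hl : IsPolyTime l)
    (hi : IsPolyTime i) : IsPolyTime (fun x => (l x)[i x]!) :=
  ((hl.getElem? hi).optionGetD (const default)).of_eq (fun x => by simp)

@[fun_prop]
theorem getI [Inhabited β] {l : α → List β} {i : α → ℕ} (hl : IsPolyTime l)
    (hi : IsPolyTime i) : IsPolyTime (fun x => (l x).getI (i x)) := getD hl hi (const default)

@[fun_prop]
theorem headI [Inhabited β] {l : α → List β} (hl : IsPolyTime l) :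
    IsPolyTime (fun x => (l x).headI) :=
  (hl.headD (const default)).of_eq (fun x => by cases l x <;> rfl)

@[fun_prop]
theorem head! [Inhabited β] {l : α → List β} (hl : IsPolyTime l) :
    IsPolyTime (fun x => (l x).head!) :=
  (hl.headD (const default)).of_eq (fun x => by cases l x <;> rfl)

@[fun_prop]
theorem optionGet {o : α → Option β} {h : ∀ x, (o x).isSome = true} (ho : IsPolyTime o) :
    IsPolyTime (fun x => (o x).get (h x)) := by
  rcases isEmpty_or_nonempty α with h0 | ⟨⟨x₀⟩⟩
  · exact of_finite _
  · exact (ho.optionGetD (const ((o x₀).get (h x₀)))).of_eq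
      (fun x => (Option.get_eq_getD _).symm)

@[fun_prop]
theorem getElem {l : α → List β} {i : α → ℕ} {h : ∀ x, i x < (l x).length} (hl : IsPolyTime l)
    (hi : IsPolyTime i) : IsPolyTime (fun x => (l x)[i x]'(h x)) :=
  (optionGet (h := fun x => by simp [h x]) (hl.getElem? hi)).of_eq (fun x => by simp)

@[fun_prop]
theorem head {l : α → List β} {h : ∀ x, l x ≠ []} (hl : IsPolyTime l) :
    IsPolyTime (fun x => (l x).head (h x)) :=
  (optionGet (h := fun x => by simp [h x]) hl.head?).of_eq
    (fun x => by simp [List.head?_eq_some_head (h x)])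

@[fun_prop]
theorem getLast {l : α → List β} {h : ∀ x, l x ≠ []} (hl : IsPolyTime l) :
    IsPolyTime (fun x => (l x).getLast (h x)) :=
  (optionGet (h := fun x => by simp [h x]) hl.getLast?).of_eq
    (fun x => by simp [List.getLast?_eq_some_getLast (h x)])

@[fun_prop]
theorem getLastD {l : α → List β} {d : α → β} (hl : IsPolyTime l) (hd : IsPolyTime d) :
    IsPolyTime (fun x => (l x).getLastD (d x)) :=
  (hl.getLast?.optionGetD hd).of_eq (fun x => by simp)

@[fun_prop]
theorem dropLast {l : α → List β} (hl : IsPolyTime l) : IsPolyTime (fun x => (l x).dropLast) :=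
  (take hl.length.sub_one hl).of_eq (fun x => List.dropLast_eq_take.symm)

@[fun_prop]
theorem concat {l : α → List β} {a : α → β} (hl : IsPolyTime l) (ha : IsPolyTime a) :
    IsPolyTime (fun x => (l x).concat (a x)) :=
  IsPolyTime.of_eq (f := fun x => l x ++ [a x]) (by fun_prop) (fun x => by simp)

@[fun_prop]
theorem flatten {l : α → List (List β)} (hl : IsPolyTime l) :
    IsPolyTime (fun x => (l x).flatten) :=
  (flatMap (f := fun _ b => b) (by fun_prop) hl).of_eq (fun x => by simp)

@[fun_prop]
theorem filterMap {f : α → β → Option γ} {l : α → List β}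
    (hf : IsPolyTime (fun p : α × β => f p.1 p.2)) (hl : IsPolyTime l) :
    IsPolyTime (fun x => (l x).filterMap (f x)) :=
  (flatMap (f := fun x b => (f x b).toList) (by fun_prop) hl).of_eq
    (fun x => (List.filterMap_eq_flatMap_toList _ _).symm)

@[fun_prop]
theorem reduceOption {l : α → List (Option β)} (hl : IsPolyTime l) :
    IsPolyTime (fun x => (l x).reduceOption) := filterMap (f := fun _ => id) (by fun_prop) hl

@[fun_prop]
theorem zipWith {f : α → β → γ → δ} {l : α → List β} {r : α → List γ}
    (hf : IsPolyTime (fun p : α × β × γ => f p.1 p.2.1 p.2.2)) (hl : IsPolyTime l)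
    (hr : IsPolyTime r) : IsPolyTime (fun x => List.zipWith (f x) (l x) (r x)) :=
  (map (f := fun x (p : β × γ) => f x p.1 p.2) hf (hl.zip hr)).of_eq
    (fun x => List.map_uncurry_zip_eq_zipWith)

@[fun_prop]
theorem zipIdx {l : α → List β} {k : α → ℕ} (hl : IsPolyTime l) (hk : IsPolyTime k) :
    IsPolyTime (fun x => (l x).zipIdx (k x)) :=
  IsPolyTime.of_eq (f := fun x => (l x).zip (List.range' (k x) (l x).length)) (by fun_prop)
    (fun x => List.zipIdx_eq_zip_range'.symm)

@[fun_prop]
theorem mapIdx {f : α → ℕ → β → γ} {l : α → List β}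
    (hf : IsPolyTime (fun p : α × ℕ × β => f p.1 p.2.1 p.2.2)) (hl : IsPolyTime l) :
    IsPolyTime (fun x => (l x).mapIdx (f x)) :=
  IsPolyTime.of_eq (f := fun x => (l x).zipIdx.map (fun p => f x p.2 p.1)) (by fun_prop)
    (fun x => List.mapIdx_eq_zipIdx_map.symm)

@[fun_prop]
theorem unzip {l : α → List (β × γ)} (hl : IsPolyTime l) : IsPolyTime (fun x => (l x).unzip) :=
  IsPolyTime.of_eq (f := fun x => ((l x).map Prod.fst, (l x).map Prod.snd)) (by fun_prop)
    (fun x => List.unzip_eq_map.symm)

@[fun_prop]
theorem product {l : α → List β} {r : α → List γ} (hl : IsPolyTime l) (hr : IsPolyTime r) :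
    IsPolyTime (fun x => (l x).product (r x)) := by
  unfold List.product
  fun_prop

@[fun_prop]
theorem sprod {l : α → List β} {r : α → List γ} (hl : IsPolyTime l) (hr : IsPolyTime r) :
    IsPolyTime (fun x => l x ×ˢ r x) := product hl hr

theorem bsize_sum_le (l : List ℕ) : bsize l.sum ≤ bsize l := by
  induction l with
  | nil => simp
  | cons a l ih => have := bsize_add_le' a l.sum; simp; omega

theorem bsize_prod_le (l : List ℕ) : bsize l.prod ≤ bsize l + 1 := by
  induction l with
  | nil => simp
  | cons a l ih => have := bsize_mul_le a l.prod; simp; omega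

@[fun_prop]
theorem nat_sum {l : α → List ℕ} (hl : IsPolyTime l) : IsPolyTime (fun x => (l x).sum) :=
  (list_rec₁ List.sum (fun a _ s => a + s) (fun _ _ => List.sum_cons) (by fun_prop)
    ((PolyBdd.bsize id').of_le bsize_sum_le)).comp hl

@[fun_prop]
theorem nat_prod {l : α → List ℕ} (hl : IsPolyTime l) : IsPolyTime (fun x => (l x).prod) :=
  (list_rec₁ List.prod (fun a _ s => a * s) (fun _ _ => List.prod_cons) (by fun_prop)
    (PolyBdd.of_le (g := fun l => bsize l + 1) (by fun_prop) bsize_prod_le)).comp hl

@[fun_prop]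
theorem foldr_max {l : α → List ℕ} {a : α → ℕ} (hl : IsPolyTime l) (ha : IsPolyTime a) :
    IsPolyTime (fun x => (l x).foldr max (a x)) :=
  foldr_inv (f := fun _ => max) (by fun_prop) ha hl (fun x s => s = a x ∨ s ∈ l x)
    (fun _ => Or.inl rfl) (fun x s b hb hs => by
      rcases max_choice b s with h | h <;> rw [h]
      exacts [Or.inr hb, hs])
    (fun x => bsize (a x) + bsize (l x)) (by fun_prop) (fun x s hs => by
      rcases hs with rfl | hs
      · omega
      · have := bsize_le_of_mem hs; omega)

@[fun_prop]
theorem foldl_max {l : α → List ℕ} {a : α → ℕ} (hl : IsPolyTime l) (ha : IsPolyTime a) :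
    IsPolyTime (fun x => (l x).foldl max (a x)) :=
  foldl_inv (f := fun _ => max) (by fun_prop) ha hl (fun x s => s = a x ∨ s ∈ l x)
    (fun _ => Or.inl rfl) (fun x s b hb hs => by
      rcases max_choice s b with h | h <;> rw [h]
      exacts [hs, Or.inr hb])
    (fun x => bsize (a x) + bsize (l x)) (by fun_prop) (fun x s hs => by
      rcases hs with rfl | hs
      · omega
      · have := bsize_le_of_mem hs; omega)

@[fun_prop]
theorem foldr_min {l : α → List ℕ} {a : α → ℕ} (hl : IsPolyTime l) (ha : IsPolyTime a) :
    IsPolyTime (fun x => (l x).foldr min (a x)) :=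
  foldr_grow (f := fun _ => min) (by fun_prop) ha hl (fun _ => 0) (by fun_prop)
    (fun _ _ _ _ => bsize_nat_mono (min_le_right _ _))

@[fun_prop]
theorem foldl_min {l : α → List ℕ} {a : α → ℕ} (hl : IsPolyTime l) (ha : IsPolyTime a) :
    IsPolyTime (fun x => (l x).foldl min (a x)) :=
  foldl_grow (f := fun _ => min) (by fun_prop) ha hl (fun _ => 0) (by fun_prop)
    (fun _ _ _ _ => bsize_nat_mono (min_le_left _ _))

@[fun_prop]
theorem countP {f : α → β → Bool} {l : α → List β}
    (hf : IsPolyTime (fun p : α × β => f p.1 p.2)) (hl : IsPolyTime l) :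
    IsPolyTime (fun x => (l x).countP (f x)) :=
  (filter hf hl).length.of_eq (fun x => List.countP_eq_length_filter.symm)

@[fun_prop]
theorem count [BEq β] [LawfulBEq β] {a : α → β} {l : α → List β} (ha : IsPolyTime a)
    (hl : IsPolyTime l) : IsPolyTime (fun x => (l x).count (a x)) :=
  countP (f := fun x b => b == a x) (by fun_prop) hl

@[fun_prop]
theorem decide_mem {a : α → β} {l : α → List β} {inst : ∀ x, Decidable (a x ∈ l x)}
    (ha : IsPolyTime a) (hl : IsPolyTime l) :
    IsPolyTime (fun x => @decide (a x ∈ l x) (inst x)) := by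
  classical
  exact IsPolyTime.of_eq (f := fun x => (l x).any (fun b => decide (b = a x))) (by fun_prop)
    (fun x => by rw [Bool.eq_iff_iff]; simp)

@[fun_prop]
theorem contains [BEq β] [LawfulBEq β] {a : α → β} {l : α → List β} (hl : IsPolyTime l)
    (ha : IsPolyTime a) : IsPolyTime (fun x => (l x).contains (a x)) := by
  classical
  exact (decide_mem (inst := fun _ => inferInstance) ha hl).of_eq
    (fun x => by rw [Bool.eq_iff_iff]; simp)

@[fun_prop]
theorem elem [BEq β] [LawfulBEq β] {a : α → β} {l : α → List β} (ha : IsPolyTime a)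
    (hl : IsPolyTime l) : IsPolyTime (fun x => List.elem (a x) (l x)) := contains hl ha

@[fun_prop]
theorem decide_subset {l r : α → List β} {inst : ∀ x, Decidable (l x ⊆ r x)}
    (hl : IsPolyTime l) (hr : IsPolyTime r) :
    IsPolyTime (fun x => @decide (l x ⊆ r x) (inst x)) := by
  classical
  exact decide_congr (p := fun x => ∀ b ∈ l x, b ∈ r x) (inst := fun _ => inferInstance)
    (by fun_prop) (fun _ => Iff.rfl)

@[fun_prop]
theorem decide_disjoint {l r : α → List β} {inst : ∀ x, Decidable ((l x).Disjoint (r x))}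
    (hl : IsPolyTime l) (hr : IsPolyTime r) :
    IsPolyTime (fun x => @decide ((l x).Disjoint (r x)) (inst x)) := by
  classical
  exact decide_congr (p := fun x => ∀ b ∈ l x, ¬ b ∈ r x) (inst := fun _ => inferInstance)
    (by fun_prop) (fun _ => Iff.rfl)

@[fun_prop]
theorem decide_pairwise {R : α → β → β → Prop} {l : α → List β}
    {inst : ∀ x, Decidable ((l x).Pairwise (R x))} [∀ x a b, Decidable (R x a b)]
    (hR : IsPolyTime (fun p : α × β × β => decide (R p.1 p.2.1 p.2.2))) (hl : IsPolyTime l) :
    IsPolyTime (fun x => @decide ((l x).Pairwise (R x)) (inst x)) := by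
  have h := list_rec (fun x (r : List β) => decide (r.Pairwise (R x))) (fun _ => true)
    (fun x b r s => r.all (fun a => decide (R x b a)) && s) (fun _ => by simp)
    (fun x b r => by rw [Bool.eq_iff_iff]; simp) (by fun_prop)
    ((all (hR.comp (g := fun p : (α × β × List β × Bool) × β => (p.1.1, p.1.2.1, p.2))
      (by fun_prop)) (by fun_prop)).and (by fun_prop))
    ((PolyBdd.const 1).of_le (fun _ => le_rfl))
  exact (h.comp (id'.pair hl)).decide_congr (fun _ => Iff.rfl)

@[fun_prop]
theorem decide_nodup {l : α → List β} {inst : ∀ x, Decidable ((l x).Nodup)}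
    (hl : IsPolyTime l) : IsPolyTime (fun x => @decide ((l x).Nodup) (inst x)) := by
  classical
  exact decide_pairwise (R := fun _ a b => a ≠ b) (by fun_prop) hl

@[fun_prop]
theorem decide_isChain {R : α → β → β → Prop} {l : α → List β}
    {inst : ∀ x, Decidable ((l x).IsChain (R x))} [∀ x a b, Decidable (R x a b)]
    (hR : IsPolyTime (fun p : α × β × β => decide (R p.1 p.2.1 p.2.2))) (hl : IsPolyTime l) :
    IsPolyTime (fun x => @decide ((l x).IsChain (R x)) (inst x)) := by
  have h := list_rec (fun x (r : List β) => decide (r.IsChain (R x))) (fun _ => true)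
    (fun x b r s => r.head?.all (fun a => decide (R x b a)) && s) (fun _ => by simp)
    (fun x b r => by rw [Bool.eq_iff_iff]; cases r <;> simp) (by fun_prop)
    ((optionAll (by fun_prop) (hR.comp
      (g := fun p : (α × β × List β × Bool) × β => (p.1.1, p.1.2.1, p.2)) (by fun_prop))).and
      (by fun_prop))
    ((PolyBdd.const 1).of_le (fun _ => le_rfl))
  exact (h.comp (id'.pair hl)).decide_congr (fun _ => Iff.rfl)

@[fun_prop]
theorem findIdx {f : α → β → Bool} {l : α → List β}
    (hf : IsPolyTime (fun p : α × β => f p.1 p.2)) (hl : IsPolyTime l) :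
    IsPolyTime (fun x => (l x).findIdx (f x)) :=
  (list_rec (fun x (r : List β) => r.findIdx (f x)) (fun _ => 0)
    (fun x b _ s => bif f x b then 0 else s + 1) (fun _ => rfl)
    (fun x b r => List.findIdx_cons) (by fun_prop) (by fun_prop)
    (PolyBdd.of_le (g := fun p => p.2.length) (by fun_prop)
      (fun _ => (bsize_nat_le_self _).trans List.findIdx_le_length))).comp (id'.pair hl)

@[fun_prop]
theorem find? {f : α → β → Bool} {l : α → List β}
    (hf : IsPolyTime (fun p : α × β => f p.1 p.2)) (hl : IsPolyTime l) :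
    IsPolyTime (fun x => (l x).find? (f x)) :=
  (filter hf hl).head?.of_eq (fun x => List.head?_filter)

@[fun_prop]
theorem findSome? {f : α → β → Option γ} {l : α → List β}
    (hf : IsPolyTime (fun p : α × β => f p.1 p.2)) (hl : IsPolyTime l) :
    IsPolyTime (fun x => (l x).findSome? (f x)) :=
  (filterMap hf hl).head?.of_eq (fun x => List.head?_filterMap)

@[fun_prop]
theorem idxOf [BEq β] [LawfulBEq β] {a : α → β} {l : α → List β} (ha : IsPolyTime a)
    (hl : IsPolyTime l) : IsPolyTime (fun x => (l x).idxOf (a x)) :=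
  findIdx (f := fun x b => b == a x) (by fun_prop) hl

@[fun_prop]
theorem lookup [BEq β] [LawfulBEq β] {a : α → β} {l : α → List (β × γ)} (ha : IsPolyTime a)
    (hl : IsPolyTime l) : IsPolyTime (fun x => (l x).lookup (a x)) :=
  IsPolyTime.of_eq (f := fun x => ((l x).find? (fun p => a x == p.1)).map Prod.snd) (by fun_prop)
    (fun x => by
      induction l x with
      | nil => rfl
      | cons p r ih =>
        obtain ⟨k, v⟩ := p
        rw [List.lookup_cons, List.find?_cons]
        cases a x == k
        · exact ih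
        · rfl)

@[fun_prop]
theorem takeWhile {f : α → β → Bool} {l : α → List β}
    (hf : IsPolyTime (fun p : α × β => f p.1 p.2)) (hl : IsPolyTime l) :
    IsPolyTime (fun x => (l x).takeWhile (f x)) :=
  IsPolyTime.of_eq (f := fun x => (l x).take ((l x).findIdx (fun a => !f x a))) (by fun_prop)
    (fun x => List.takeWhile_eq_take_findIdx_not.symm)

@[fun_prop]
theorem dropWhile {f : α → β → Bool} {l : α → List β}
    (hf : IsPolyTime (fun p : α × β => f p.1 p.2)) (hl : IsPolyTime l) :
    IsPolyTime (fun x => (l x).dropWhile (f x)) :=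
  IsPolyTime.of_eq (f := fun x => (l x).drop ((l x).findIdx (fun a => !f x a))) (by fun_prop)
    (fun x => List.dropWhile_eq_drop_findIdx_not.symm)

@[fun_prop]
theorem partition {f : α → β → Bool} {l : α → List β}
    (hf : IsPolyTime (fun p : α × β => f p.1 p.2)) (hl : IsPolyTime l) :
    IsPolyTime (fun x => (l x).partition (f x)) :=
  IsPolyTime.of_eq (f := fun x => ((l x).filter (f x), (l x).filter (fun a => !f x a)))
    (by fun_prop) (fun x => List.partition_eq_filter_filter.symm)

@[fun_prop]
theorem splitAt {n : α → ℕ} {l : α → List β} (hn : IsPolyTime n) (hl : IsPolyTime l) :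
    IsPolyTime (fun x => (l x).splitAt (n x)) :=
  IsPolyTime.of_eq (f := fun x => ((l x).take (n x), (l x).drop (n x))) (by fun_prop)
    (fun x => List.splitAt_eq.symm)

@[fun_prop]
theorem eraseIdx {l : α → List β} {i : α → ℕ} (hl : IsPolyTime l) (hi : IsPolyTime i) :
    IsPolyTime (fun x => (l x).eraseIdx (i x)) :=
  IsPolyTime.of_eq (f := fun x => (l x).take (i x) ++ (l x).drop (i x + 1)) (by fun_prop)
    (fun x => (List.eraseIdx_eq_take_drop_succ _ _).symm)

@[fun_prop]
theorem eraseP {f : α → β → Bool} {l : α → List β}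
    (hf : IsPolyTime (fun p : α × β => f p.1 p.2)) (hl : IsPolyTime l) :
    IsPolyTime (fun x => (l x).eraseP (f x)) :=
  (list_rec (fun x (r : List β) => r.eraseP (f x)) (fun _ => [])
    (fun x b r s => bif f x b then r else b :: s) (fun _ => rfl)
    (fun x b r => List.eraseP_cons) (by fun_prop) (by fun_prop)
    (PolyBdd.of_le (g := fun p => bsize p.2) (by fun_prop)
      (fun _ => bsize_sublist List.eraseP_sublist))).comp (id'.pair hl)

@[fun_prop]
theorem erase [BEq β] [LawfulBEq β] {l : α → List β} {a : α → β} (hl : IsPolyTime l)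
    (ha : IsPolyTime a) : IsPolyTime (fun x => (l x).erase (a x)) :=
  (eraseP (f := fun x b => b == a x) (by fun_prop) hl).of_eq
    (fun x => (List.erase_eq_eraseP' _ _).symm)

@[fun_prop]
theorem set {l : α → List β} {i : α → ℕ} {a : α → β} (hl : IsPolyTime l) (hi : IsPolyTime i)
    (ha : IsPolyTime a) : IsPolyTime (fun x => (l x).set (i x) (a x)) :=
  IsPolyTime.of_eq (f := fun x => if i x < (l x).length then
    (l x).take (i x) ++ a x :: (l x).drop (i x + 1) else l x) (by fun_prop)
    (fun x => List.set_eq_take_append_cons_drop.symm)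

@[fun_prop]
theorem modify {l : α → List β} {i : α → ℕ} {f : α → β → β} (hl : IsPolyTime l)
    (hi : IsPolyTime i) (hf : IsPolyTime (fun p : α × β => f p.1 p.2)) :
    IsPolyTime (fun x => (l x).modify (i x) (f x)) :=
  IsPolyTime.of_eq (f := fun x => (l x).mapIdx (fun j b => if i x = j then f x b else b))
    (by fun_prop) (fun x => List.ext_getElem? (fun j => by
      simp only [List.getElem?_mapIdx, List.getElem?_modify]; rfl))

@[fun_prop]
theorem insertIdx {l : α → List β} {i : α → ℕ} {a : α → β} (hl : IsPolyTime l)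
    (hi : IsPolyTime i) (ha : IsPolyTime a) : IsPolyTime (fun x => (l x).insertIdx (i x) (a x)) :=
  IsPolyTime.of_eq (f := fun x => if i x ≤ (l x).length then
    (l x).take (i x) ++ a x :: (l x).drop (i x) else l x) (by fun_prop) (fun x => by
      generalize i x = k
      induction l x generalizing k with
      | nil => cases k <;> simp
      | cons b r ih =>
        cases k with
        | zero => simp
        | succ k =>
          rw [List.insertIdx_succ_cons, ← ih k]
          by_cases h : k ≤ r.length <;> simp [h])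

@[fun_prop]
theorem listInsert [BEq β] [LawfulBEq β] {a : α → β} {l : α → List β} (ha : IsPolyTime a)
    (hl : IsPolyTime l) : IsPolyTime (fun x => List.insert (a x) (l x)) := by
  unfold List.insert
  fun_prop

@[fun_prop]
theorem dedup [DecidableEq β] {l : α → List β} (hl : IsPolyTime l) :
    IsPolyTime (fun x => (l x).dedup) :=
  (list_rec₁ List.dedup (fun a r s => if a ∈ r then s else a :: s) List.dedup_cons (by fun_prop)
    ((PolyBdd.bsize id').of_le (fun l => bsize_sublist (List.dedup_sublist l)))).comp hl

@[fun_prop]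
theorem listUnion [DecidableEq β] {l r : α → List β} (hl : IsPolyTime l) (hr : IsPolyTime r) :
    IsPolyTime (fun x => l x ∪ r x) :=
  foldr_grow (f := fun _ a s => List.insert a s) (by fun_prop) hr hl
    (fun x => 2 * bsize (l x) + 1) (by fun_prop) (fun x b s hb => by
      have := bsize_le_of_mem hb
      by_cases h : b ∈ s <;> simp [h]
      omega)

@[fun_prop]
theorem listInter [DecidableEq β] {l r : α → List β} (hl : IsPolyTime l) (hr : IsPolyTime r) :
    IsPolyTime (fun x => l x ∩ r x) :=
  filter (f := fun x a => List.elem a (r x)) (by fun_prop) hl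

@[fun_prop]
theorem diff [BEq β] [LawfulBEq β] {l r : α → List β} (hl : IsPolyTime l) (hr : IsPolyTime r) :
    IsPolyTime (fun x => (l x).diff (r x)) :=
  (foldl_grow (f := fun _ s a => List.erase s a) (by fun_prop) hl hr (fun _ => 0) (by fun_prop)
    (fun _ _ _ _ => bsize_sublist List.erase_sublist)).of_eq
    (fun x => (List.diff_eq_foldl _ _).symm)

@[fun_prop]
theorem removeAll [BEq β] [LawfulBEq β] {l r : α → List β} (hl : IsPolyTime l)
    (hr : IsPolyTime r) : IsPolyTime (fun x => (l x).removeAll (r x)) := by
  unfold List.removeAll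
  fun_prop

@[fun_prop]
theorem decide_perm {l r : α → List β} {inst : ∀ x, Decidable ((l x).Perm (r x))}
    (hl : IsPolyTime l) (hr : IsPolyTime r) :
    IsPolyTime (fun x => @decide ((l x).Perm (r x)) (inst x)) := by
  classical
  refine decide_congr (p := fun x => ∀ b ∈ l x ++ r x, (l x).count b = (r x).count b)
    (inst := fun _ => inferInstance) (by fun_prop) (fun x => ?_)
  rw [List.perm_iff_count]
  refine ⟨fun h b => ?_, fun h b _ => h b⟩
  by_cases hb : b ∈ l x ++ r x
  · exact h b hb
  · rw [List.mem_append, not_or] at hb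
    rw [List.count_eq_zero_of_not_mem hb.1, List.count_eq_zero_of_not_mem hb.2]

@[fun_prop]
theorem decide_isPrefix {l r : α → List β} {inst : ∀ x, Decidable (l x <+: r x)}
    (hl : IsPolyTime l) (hr : IsPolyTime r) :
    IsPolyTime (fun x => @decide (l x <+: r x) (inst x)) := by
  classical
  exact decide_congr (p := fun x => l x = (r x).take (l x).length)
    (inst := fun _ => inferInstance) (by fun_prop) (fun x => List.prefix_iff_eq_take.symm)

@[fun_prop]
theorem decide_isSuffix {l r : α → List β} {inst : ∀ x, Decidable (l x <:+ r x)}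
    (hl : IsPolyTime l) (hr : IsPolyTime r) :
    IsPolyTime (fun x => @decide (l x <:+ r x) (inst x)) := by
  classical
  exact decide_congr (p := fun x => (l x).reverse <+: (r x).reverse)
    (inst := fun _ => inferInstance) (by fun_prop) (fun x => List.reverse_prefix)

@[fun_prop]
theorem tails {l : α → List β} (hl : IsPolyTime l) : IsPolyTime (fun x => (l x).tails) :=
  IsPolyTime.of_eq (f := fun x => (List.range ((l x).length + 1)).map (fun i => (l x).drop i))
    (by fun_prop) (fun x => List.ext_getElem (by simp) (fun i _ _ => by simp))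

@[fun_prop]
theorem inits {l : α → List β} (hl : IsPolyTime l) : IsPolyTime (fun x => (l x).inits) :=
  IsPolyTime.of_eq (f := fun x => (List.range ((l x).length + 1)).map (fun i => (l x).take i))
    (by fun_prop) (fun x => List.ext_getElem (by simp) (fun i _ _ => by simp))

@[fun_prop]
theorem decide_isInfix {l r : α → List β} {inst : ∀ x, Decidable (l x <:+: r x)}
    (hl : IsPolyTime l) (hr : IsPolyTime r) :
    IsPolyTime (fun x => @decide (l x <:+: r x) (inst x)) := by
  classical
  exact decide_congr (p := fun x => ∃ t ∈ (r x).tails, l x <+: t)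
    (inst := fun _ => inferInstance) (by fun_prop) (fun x => by
      rw [List.infix_iff_prefix_suffix]
      simp [and_comm])

@[fun_prop]
theorem rotate {l : α → List β} {n : α → ℕ} (hl : IsPolyTime l) (hn : IsPolyTime n) :
    IsPolyTime (fun x => (l x).rotate (n x)) :=
  IsPolyTime.of_eq (f := fun x => (l x).drop (n x % (l x).length) ++
    (l x).take (n x % (l x).length)) (by fun_prop)
    (fun x => List.rotate_eq_drop_append_take_mod.symm)

@[fun_prop]
theorem orderedInsert {R : α → β → β → Prop} {inst : ∀ x, DecidableRel (R x)} {a : α → β}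
    {l : α → List β} (hR : IsPolyTime (fun p : α × β × β => decide (R p.1 p.2.1 p.2.2)))
    (ha : IsPolyTime a) (hl : IsPolyTime l) :
    IsPolyTime (fun x => @List.orderedInsert _ (R x) (inst x) (a x) (l x)) := by
  have h : IsPolyTime (fun p : α × β => decide (R p.1 (a p.1) p.2)) :=
    hR.comp (g := fun p : α × β => (p.1, a p.1, p.2)) (by fun_prop)
  refine IsPolyTime.of_eq (f := fun x => ((l x).takeWhile fun b => !decide (R x (a x) b)) ++
    a x :: (l x).dropWhile fun b => !decide (R x (a x) b)) (by fun_prop) (fun x => ?_)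
  rw [List.orderedInsert_eq_take_drop]
  simp

@[fun_prop]
theorem insertionSort {R : α → β → β → Prop} {inst : ∀ x, DecidableRel (R x)}
    {l : α → List β} (hR : IsPolyTime (fun p : α × β × β => decide (R p.1 p.2.1 p.2.2)))
    (hl : IsPolyTime l) : IsPolyTime (fun x => @List.insertionSort _ (R x) (inst x) (l x)) :=
  list_rec_bound (fun x r => List.insertionSort (R x) r) (fun _ => [])
    (fun x b _ s => List.orderedInsert (R x) b s) (fun _ => rfl) (fun _ _ _ => rfl) (by fun_prop)
    (orderedInsert (hR.comp (g := fun p : (α × β × List β × List β) × β × β => (p.1.1, p.2))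
      (by fun_prop)) (by fun_prop) (by fun_prop)) hl (fun x => bsize (l x)) (by fun_prop)
    (fun x i => (bsize_perm (List.perm_insertionSort _ _)).trans_le
      (bsize_sublist (List.drop_sublist _ _)))

omit [N487b59b3 β] in
theorem length_sublistsLen_le (k : ℕ) (l : List β) :
    (List.sublistsLen k l).length ≤ l.length ^ k := by
  rw [List.length_sublistsLen]; exact Nat.choose_le_pow _ _

@[fun_prop]
theorem sublistsLen (k : ℕ) {l : α → List β} (hl : IsPolyTime l) :
    IsPolyTime (fun x => List.sublistsLen k (l x)) := by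
  refine IsPolyTime.comp ?_ hl
  induction k with
  | zero => exact (const [[]]).of_eq (fun l => by simp)
  | succ k ih =>
    refine list_rec₁ _ (fun a r s => s ++ (List.sublistsLen k r).map (List.cons a))
      (List.sublistsLen_succ_cons k) (by fun_prop)
      (PolyBdd.of_le (g := fun l => l.length ^ (k + 1) * (2 * bsize l + 1)) (by fun_prop)
        fun l => ?_)
    exact (bsize_list_le _ (bsize l)
      (fun a ha => bsize_sublist (List.mem_sublistsLen.1 ha).1)).trans
      (Nat.mul_le_mul_right _ (length_sublistsLen_le _ _))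

@[fun_prop]
theorem decide_forall_lt {p : α → ℕ → Prop} {n : α → ℕ}
    {inst : ∀ x, Decidable (∀ i < n x, p x i)} [∀ x i, Decidable (p x i)]
    (hp : IsPolyTime (fun y : α × ℕ => decide (p y.1 y.2))) (hn : IsPolyTime n) (hb : PolyBdd n) :
    IsPolyTime (fun x => @decide (∀ i < n x, p x i) (inst x)) :=
  decide_congr (p := fun x => ∀ i ∈ List.range (n x), p x i) (inst := fun _ => inferInstance)
    (decide_forall_mem hp (range hn hb)) (fun x => by simp)

@[fun_prop]
theorem decide_exists_lt {p : α → ℕ → Prop} {n : α → ℕ}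
    {inst : ∀ x, Decidable (∃ i < n x, p x i)} [∀ x i, Decidable (p x i)]
    (hp : IsPolyTime (fun y : α × ℕ => decide (p y.1 y.2))) (hn : IsPolyTime n) (hb : PolyBdd n) :
    IsPolyTime (fun x => @decide (∃ i < n x, p x i) (inst x)) :=
  decide_congr (p := fun x => ∃ i ∈ List.range (n x), p x i) (inst := fun _ => inferInstance)
    (decide_exists_mem hp (range hn hb)) (fun x => by simp)

@[fun_prop]
theorem decide_forall_le {p : α → ℕ → Prop} {n : α → ℕ}
    {inst : ∀ x, Decidable (∀ i ≤ n x, p x i)} [∀ x i, Decidable (p x i)]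
    (hp : IsPolyTime (fun y : α × ℕ => decide (p y.1 y.2))) (hn : IsPolyTime n) (hb : PolyBdd n) :
    IsPolyTime (fun x => @decide (∀ i ≤ n x, p x i) (inst x)) :=
  decide_congr (p := fun x => ∀ i < n x + 1, p x i) (inst := fun _ => inferInstance)
    (decide_forall_lt hp hn.add_one hb.succ) (fun x => by simp)

@[fun_prop]
theorem decide_exists_le {p : α → ℕ → Prop} {n : α → ℕ}
    {inst : ∀ x, Decidable (∃ i ≤ n x, p x i)} [∀ x i, Decidable (p x i)]
    (hp : IsPolyTime (fun y : α × ℕ => decide (p y.1 y.2))) (hn : IsPolyTime n) (hb : PolyBdd n) :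
    IsPolyTime (fun x => @decide (∃ i ≤ n x, p x i) (inst x)) :=
  decide_congr (p := fun x => ∃ i < n x + 1, p x i) (inst := fun _ => inferInstance)
    (decide_exists_lt hp hn.add_one hb.succ) (fun x => by simp)

end N68a2faeb.IsPolyTime

namespace Pool.Agent.Shared.PolyTime.PolyBdd

open N68a2faeb

variable {α β : Type} [N487b59b3 α] [N487b59b3 β]

@[fun_prop]
theorem countP (f : α → β → Bool) {l : α → List β} (hl : IsPolyTime l) :
    PolyBdd (fun x => (l x).countP (f x)) := (length hl).of_le (fun _ => List.countP_le_length)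

@[fun_prop]
theorem count [BEq β] (a : α → β) {l : α → List β} (hl : IsPolyTime l) :
    PolyBdd (fun x => (l x).count (a x)) := (length hl).of_le (fun _ => List.count_le_length)

@[fun_prop]
theorem findIdx (f : α → β → Bool) {l : α → List β} (hl : IsPolyTime l) :
    PolyBdd (fun x => (l x).findIdx (f x)) := (length hl).of_le (fun _ => List.findIdx_le_length)

@[fun_prop]
theorem idxOf [BEq β] (a : α → β) {l : α → List β} (hl : IsPolyTime l) :
    PolyBdd (fun x => (l x).idxOf (a x)) := (length hl).of_le (fun _ => List.findIdx_le_length)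

end Pool.Agent.Shared.PolyTime.PolyBdd
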