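import Pool.Agent.Shared.PolyTime.Core

/-!
Further bit encodings (`Option`, `Sum`, `Unit`, `Fin n`, functions on a finite type) and the
size function `bsize`.
-/

namespace Pool.Agent.Shared.PolyTime

open N487b59b3

variable {α β : Type}

/-- `none ↦ []`, `some a ↦ [a]`, encoded as lists. -/
instance encOption [N487b59b3 α] : N487b59b3 (Option α) :=
  ofLeftInverse (β := List α) Option.toList
    (fun l => match l with
      | [] => some none
      | [a] => some (some a)
      | _ => none)
    (fun x => by cases x <;> rfl)

/-- `inl a ↦ false :: code a`, `inr b ↦ true :: code b`. -/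
instance encSum [N487b59b3 α] [N487b59b3 β] : N487b59b3 (α ⊕ β) where
  encode := Sum.elim (fun a => false :: bitEncode a) (fun b => true :: bitEncode b)
  decode l := match l with
    | [] => none
    | false :: r => (bitDecode r).map Sum.inl
    | true :: r => (bitDecode r).map Sum.inr
  decode_encode x := by cases x <;> simp

/-- The empty string. -/
instance encUnit : N487b59b3 Unit where
  encode _ := []
  decode l := match l with
    | [] => some ()
    | _ => none
  decode_encode _ := rfl

/-- Elements of `Fin n` are encoded as natural numbers. -/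
instance encFin (n : ℕ) : N487b59b3 (Fin n) :=
  ofLeftInverse (β := ℕ) Fin.val (fun m => if h : m < n then some ⟨m, h⟩ else none)
    (fun x => by simp)

/-- An encoding of an arbitrary finite type. -/
@[instance_reducible]
noncomputable def encFintype (α : Type) [Fintype α] : N487b59b3 α :=
  ofLeftInverse (β := Fin (Fintype.card α)) (Fintype.equivFin α)
    (fun i => some ((Fintype.equivFin α).symm i)) (fun x => by simp)

/-- Tuples `Fin n → β` are encoded as lists. -/
instance encFinFun (n : ℕ) [N487b59b3 β] : N487b59b3 (Fin n → β) :=
  ofLeftInverse (β := List β) List.ofFn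
    (fun l => if h : l.length = n then some (fun i => l.get (i.cast h.symm)) else none)
    (fun x => by simp)

/-- The length of the bit encoding. -/
def bsize [N487b59b3 α] (x : α) : ℕ := (bitEncode x).length

section enc

variable [N487b59b3 α] [N487b59b3 β]

theorem enc_pair (a : α) (b : β) : bitEncode (a, b) = delimit (bitEncode a) ++ bitEncode b := rfl

theorem enc_prod (p : α × β) : bitEncode p = delimit (bitEncode p.1) ++ bitEncode p.2 := rfl

theorem enc_nil : bitEncode ([] : List α) = [] := rfl

theorem enc_cons (a : α) (l : List α) :
    bitEncode (a :: l) = delimit (bitEncode a) ++ bitEncode l := rfl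

theorem enc_append (l l' : List α) : bitEncode (l ++ l') = bitEncode l ++ bitEncode l' := by
  induction l with
  | nil => rfl
  | cons a l ih => rw [List.cons_append, enc_cons, enc_cons, ih, List.append_assoc]

theorem enc_bool (b : Bool) : bitEncode b = [b] := rfl

theorem enc_option (o : Option α) : bitEncode o = bitEncode o.toList := rfl

theorem enc_inl (a : α) : bitEncode (Sum.inl a : α ⊕ β) = false :: bitEncode a := rfl

theorem enc_inr (b : β) : bitEncode (Sum.inr b : α ⊕ β) = true :: bitEncode b := rfl

theorem enc_unit (u : Unit) : bitEncode u = [] := rfl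

theorem enc_fin {n : ℕ} (i : Fin n) : bitEncode i = bitEncode (i : ℕ) := rfl

theorem enc_finFun {n : ℕ} (f : Fin n → β) : bitEncode f = bitEncode (List.ofFn f) := rfl

theorem enc_int (z : ℤ) : bitEncode z = bitEncode (z.toNat, (-z).toNat) := rfl

theorem enc_rat (q : ℚ) : bitEncode q = bitEncode (q.num, q.den) := rfl

theorem enc_finset [LinearOrder α] (s : Finset α) :
    bitEncode s = bitEncode (s.sort (· ≤ ·)) := rfl

theorem enc_pnat (n : ℕ+) : bitEncode n = bitEncode (n : ℕ) := rfl

theorem encodePosNum_eq_bits (n : PosNum) : Computability.encodePosNum n = (n : ℕ).bits := by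
  induction n with
  | one => simp [Computability.encodePosNum]
  | bit0 m ih =>
    rw [Computability.encodePosNum, ih, PosNum.cast_bit0, ← two_mul, Nat.bit0_bits]
    exact (PosNum.cast_pos m).ne'
  | bit1 m ih =>
    rw [Computability.encodePosNum, ih, PosNum.cast_bit1, ← two_mul, Nat.bit1_bits]

theorem enc_nat (n : ℕ) : bitEncode n = n.bits := by
  change Computability.encodeNum n = _
  conv_rhs => rw [← Num.to_of_nat n]
  cases (n : Num) with
  | zero => simp [Computability.encodeNum]
  | pos m => exact encodePosNum_eq_bits m

theorem enc_eq_nil_iff (l : List α) : bitEncode l = [] ↔ l = [] := by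
  cases l with
  | nil => simp [enc_nil]
  | cons a l =>
    rw [enc_cons]
    cases bitEncode a <;> simp [delimit]

@[simp] theorem bsize_pair (a : α) (b : β) : bsize (a, b) = 2 * bsize a + 1 + bsize b := by
  simp [bsize, enc_pair]

theorem bsize_prod (p : α × β) : bsize p = 2 * bsize p.1 + 1 + bsize p.2 := bsize_pair p.1 p.2

@[simp] theorem bsize_nil : bsize ([] : List α) = 0 := rfl

@[simp] theorem bsize_cons (a : α) (l : List α) : bsize (a :: l) = 2 * bsize a + 1 + bsize l := by
  simp [bsize, enc_cons]

@[simp] theorem bsize_append (l l' : List α) : bsize (l ++ l') = bsize l + bsize l' := by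
  simp [bsize, enc_append]

@[simp] theorem bsize_bool (b : Bool) : bsize b = 1 := rfl

@[simp] theorem bsize_unit (u : Unit) : bsize u = 0 := rfl

@[simp] theorem bsize_none : bsize (none : Option α) = 0 := rfl

@[simp] theorem bsize_some (a : α) : bsize (some a) = 2 * bsize a + 1 := by
  simp [bsize, enc_option, enc_cons, enc_nil]

@[simp] theorem bsize_inl (a : α) : bsize (Sum.inl a : α ⊕ β) = bsize a + 1 := by
  simp [bsize, enc_inl]

@[simp] theorem bsize_inr (b : β) : bsize (Sum.inr b : α ⊕ β) = bsize b + 1 := by
  simp [bsize, enc_inr]

theorem bsize_nat (n : ℕ) : bsize n = n.size := by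
  rw [bsize, enc_nat, Nat.size_eq_bits_len]

theorem bsize_list (l : List α) : bsize l = (l.map (fun a => 2 * bsize a + 1)).sum := by
  induction l with
  | nil => rfl
  | cons a l ih => simp [ih]

@[simp] theorem bsize_reverse (l : List α) : bsize l.reverse = bsize l := by
  simp [bsize_list, List.sum_reverse]

theorem bsize_perm {l l' : List α} (h : l.Perm l') : bsize l = bsize l' := by
  rw [bsize_list, bsize_list, (h.map _).sum_eq]

theorem bsize_sublist {l l' : List α} (h : l.Sublist l') : bsize l ≤ bsize l' := by
  induction h with
  | slnil => exact le_rfl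
  | cons a _ ih => simp; omega
  | cons_cons a _ ih => simp; omega

theorem length_le_bsize (l : List α) : l.length ≤ bsize l := by
  induction l with
  | nil => simp
  | cons a l ih => simp; omega

theorem bsize_le_of_mem {a : α} {l : List α} (h : a ∈ l) : bsize a ≤ bsize l := by
  have := bsize_sublist (List.singleton_sublist.2 h)
  simp at this
  omega

theorem bsize_list_le (l : List α) (m : ℕ) (h : ∀ a ∈ l, bsize a ≤ m) :
    bsize l ≤ l.length * (2 * m + 1) := by
  induction l with
  | nil => simp
  | cons a l ih =>
    have h1 := h a (by simp)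
    have h2 := ih (fun b hb => h b (by simp [hb]))
    simp only [bsize_cons, List.length_cons, add_mul]
    omega

theorem bsize_boolList (l : List Bool) : bsize l = 3 * l.length := by
  induction l with
  | nil => rfl
  | cons a l ih => simp [ih]; omega

theorem bsize_tail_le (l : List α) : bsize l.tail ≤ bsize l := bsize_sublist (List.tail_sublist l)

theorem bsize_nat_mono {m n : ℕ} (h : m ≤ n) : bsize m ≤ bsize n := by
  rw [bsize_nat, bsize_nat]; exact Nat.size_le_size h

theorem bsize_nat_le_self (n : ℕ) : bsize n ≤ n := by
  rw [bsize_nat, Nat.size_le]; exact Nat.lt_two_pow_self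

theorem lt_two_pow_bsize (n : ℕ) : n < 2 ^ bsize n := by
  rw [bsize_nat]; exact Nat.lt_size_self n

theorem bsize_nat_le_iff {n k : ℕ} : bsize n ≤ k ↔ n < 2 ^ k := by
  rw [bsize_nat]; exact Nat.size_le

end enc

end Pool.Agent.Shared.PolyTime
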