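import Pool.Agent.Shared.PolyTime.Basic

/-!
Binary arithmetic on `ℕ`, equality tests, `length`, `take`, `drop`, `range`, iteration.
-/

namespace Pool.Agent.Shared.PolyTime

open N487b59b3

/-- The number with the given binary digits (least significant first). -/
def ofBits (l : List Bool) : ℕ := l.foldr Nat.bit 0

@[simp] theorem ofBits_nil : ofBits [] = 0 := rfl

theorem ofBits_cons (b : Bool) (l : List Bool) : ofBits (b :: l) = 2 * ofBits l + b.toNat := by
  simp [ofBits, Nat.bit_val]

theorem ofBits_lt (l : List Bool) : ofBits l < 2 ^ l.length := by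
  induction l with
  | nil => simp
  | cons b l ih =>
    have := Bool.toNat_le b
    rw [ofBits_cons, List.length_cons, pow_succ]; omega

theorem bsize_ofBits_le (l : List Bool) : bsize (ofBits l) ≤ l.length :=
  bsize_nat_le_iff.2 (ofBits_lt l)

theorem ofBits_bits (n : ℕ) : ofBits n.bits = n := by
  induction n using Nat.binaryRec' with
  | zero => simp
  | bit b n h ih => rw [Nat.bits_append_bit n b h, ofBits_cons, ih, Nat.bit_val]

theorem ofBits_append_false {β : Type} (l : List Bool) (r : List β) :
    ofBits (l ++ r.map (fun _ => false)) = ofBits l := by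
  induction l with
  | nil =>
    induction r with
    | nil => rfl
    | cons a r ih => rw [List.nil_append] at ih ⊢; rw [List.map_cons, ofBits_cons, ih]; rfl
  | cons b l ih => rw [List.cons_append, ofBits_cons, ofBits_cons, ih]

theorem bits_ofBits_append_true (l : List Bool) : (ofBits (l ++ [true])).bits = l ++ [true] := by
  induction l with
  | nil => simp [ofBits]
  | cons b l ih =>
    have h : ofBits (l ++ [true]) ≠ 0 := by
      intro h0
      rw [h0] at ih
      simp at ih
    change (Nat.bit b (ofBits (l ++ [true]))).bits = _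
    rw [Nat.bits_append_bit _ _ (fun h0 => absurd h0 h), ih, List.cons_append]

theorem length_bits (n : ℕ) : n.bits.length = bsize n := by rw [bsize, enc_nat]

theorem bsize_add_le (a b : ℕ) : bsize (a + b) ≤ max (bsize a) (bsize b) + 1 := by
  rw [bsize_nat_le_iff, pow_succ]
  have h1 := (lt_two_pow_bsize a).trans_le
    (Nat.pow_le_pow_right (n := 2) (by norm_num) (le_max_left (bsize a) (bsize b)))
  have h2 := (lt_two_pow_bsize b).trans_le
    (Nat.pow_le_pow_right (n := 2) (by norm_num) (le_max_right (bsize a) (bsize b)))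
  omega

theorem bsize_add_le' (a b : ℕ) : bsize (a + b) ≤ bsize a + bsize b + 1 :=
  (bsize_add_le a b).trans (by omega)

theorem bsize_succ_le (a : ℕ) : bsize (a + 1) ≤ bsize a + 1 := by
  rw [bsize_nat_le_iff, pow_succ]
  have := lt_two_pow_bsize a
  omega

theorem bsize_mul_le (a b : ℕ) : bsize (a * b) ≤ bsize a + bsize b := by
  rw [bsize_nat_le_iff, pow_add]
  exact Nat.mul_lt_mul'' (lt_two_pow_bsize a) (lt_two_pow_bsize b)

theorem bsize_pow_le (a k : ℕ) : bsize (a ^ k) ≤ k * bsize a + 1 := by
  induction k with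
  | zero => simp [bsize_nat]
  | succ k ih =>
    have := bsize_mul_le (a ^ k) a
    rw [pow_succ, add_mul]; omega

@[simp] theorem bsize_zero : bsize (0 : ℕ) = 0 := by simp [bsize_nat]

@[simp] theorem bsize_one : bsize (1 : ℕ) = 1 := by simp [bsize_nat]

theorem bsize_sub_le (a b : ℕ) : bsize (a - b) ≤ bsize a := bsize_nat_mono (Nat.sub_le _ _)

theorem bsize_div_le (a b : ℕ) : bsize (a / b) ≤ bsize a := bsize_nat_mono (Nat.div_le_self _ _)

theorem bsize_mod_le (a b : ℕ) : bsize (a % b) ≤ bsize a := bsize_nat_mono (Nat.mod_le _ _)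

/-- The binary digits of two numbers, padded to the same length. -/
def bitPairs (a b : ℕ) : List (Bool × Bool) :=
  (a.bits ++ b.bits.map (fun _ => false)).zip (b.bits ++ a.bits.map (fun _ => false))

theorem bitPairs_fst (a b : ℕ) : ofBits ((bitPairs a b).map Prod.fst) = a := by
  rw [bitPairs, List.map_fst_zip (by simp [add_comm]), ofBits_append_false, ofBits_bits]

theorem bitPairs_snd (a b : ℕ) : ofBits ((bitPairs a b).map Prod.snd) = b := by
  rw [bitPairs, List.map_snd_zip (by simp [add_comm]), ofBits_append_false, ofBits_bits]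

end Pool.Agent.Shared.PolyTime

namespace N68a2faeb.IsPolyTime

open Pool.Agent.Shared.PolyTime N487b59b3

variable {α β γ δ : Type} [N487b59b3 α] [N487b59b3 β] [N487b59b3 γ] [N487b59b3 δ]

@[fun_prop]
theorem bits {f : α → ℕ} (hf : IsPolyTime f) : IsPolyTime (fun x => (f x).bits) :=
  hf.bitEncode.of_eq (fun _ => enc_nat _)

theorem decide_eq_zero {f : α → ℕ} (hf : IsPolyTime f) : IsPolyTime (fun x => decide (f x = 0)) :=
  hf.bits.isEmpty.of_eq (fun x => by
    rw [Bool.eq_iff_iff, List.isEmpty_iff_length_eq_zero, Nat.size_eq_bits_len]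
    simp [Nat.size_eq_zero])

@[fun_prop]
theorem bit {b : α → Bool} {f : α → ℕ} (hb : IsPolyTime b) (hf : IsPolyTime f) :
    IsPolyTime (fun x => Nat.bit (b x) (f x)) := by
  have h0 := hf.decide_eq_zero
  refine of_bits (IsPolyTime.of_eq (f := fun x =>
    bif (decide (f x = 0) && !b x) then [] else b x :: (f x).bits) (by fun_prop) fun x => ?_)
  rw [enc_nat]
  by_cases h : f x = 0 ∧ b x = false
  · simp [h.1, h.2]
  · rw [Nat.bits_append_bit _ _ (by
      intro h0; by_contra h1; exact h ⟨h0, by simpa using h1⟩)]
    have : (decide (f x = 0) && !b x) = false := by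
      simpa using h
    rw [this]; rfl

@[fun_prop]
protected theorem ofBits {l : α → List Bool} (hl : IsPolyTime l) : IsPolyTime (fun x => ofBits (l x)) :=
  foldr (f := fun _ => Nat.bit) (by fun_prop) (by fun_prop) hl (fun x => (l x).length)
    (by fun_prop) (fun x i => (bsize_ofBits_le _).trans (by simp))

theorem add_one {f : α → ℕ} (hf : IsPolyTime f) : IsPolyTime (fun x => f x + 1) := by
  let F : Bool → ℕ × ℕ → ℕ × ℕ := fun b s =>
    (Nat.bit b s.1, bif b then Nat.bit false s.2 else Nat.bit true s.1)
  have key : ∀ l : List Bool, l.foldr F (0, 1) = (ofBits l, ofBits l + 1) := by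
    intro l
    induction l with
    | nil => rfl
    | cons b l ih =>
      rw [List.foldr_cons, ih, ofBits_cons]
      cases b <;> simp [F, Nat.bit_val]
      omega
  refine (foldr (f := fun _ => F) (init := fun _ => (0, 1)) (by simp only [F]; fun_prop)
    (by fun_prop) hf.bits (fun x => 3 * (f x).bits.length + 2) (by fun_prop)
    fun x i => ?_).snd.of_eq (fun x => by rw [key, ofBits_bits])
  rw [key, bsize_pair]
  have h1 := bsize_ofBits_le ((f x).bits.drop i)
  have h2 := bsize_succ_le (ofBits ((f x).bits.drop i))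
  rw [List.length_drop] at h1
  omega

theorem sub_one {f : α → ℕ} (hf : IsPolyTime f) : IsPolyTime (fun x => f x - 1) := by
  let F : Bool → ℕ × ℕ → ℕ × ℕ := fun b s =>
    (Nat.bit b s.1, bif b then Nat.bit false s.1 else
      bif decide (s.1 = 0) then 0 else Nat.bit true s.2)
  have key : ∀ l : List Bool, l.foldr F (0, 0) = (ofBits l, ofBits l - 1) := by
    intro l
    induction l with
    | nil => rfl
    | cons b l ih =>
      rw [List.foldr_cons, ih, ofBits_cons]
      cases b <;> by_cases h : ofBits l = 0 <;> simp [F, Nat.bit_val, h]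
      omega
  have h0 : IsPolyTime (fun p : α × Bool × ℕ × ℕ => decide (p.2.2.1 = 0)) :=
    decide_eq_zero (by fun_prop)
  refine (foldr (f := fun _ => F) (init := fun _ => (0, 0)) (by simp only [F]; fun_prop)
    (by fun_prop) hf.bits (fun x => 3 * (f x).bits.length + 2) (by fun_prop)
    fun x i => ?_).snd.of_eq (fun x => by rw [key, ofBits_bits])
  rw [key, bsize_pair]
  have h1 := bsize_ofBits_le ((f x).bits.drop i)
  have h2 := bsize_sub_le (ofBits ((f x).bits.drop i)) 1
  rw [List.length_drop] at h1
  omega

@[fun_prop]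
theorem succ {f : α → ℕ} (hf : IsPolyTime f) : IsPolyTime (fun x => (f x).succ) := hf.add_one

@[fun_prop]
theorem pred {f : α → ℕ} (hf : IsPolyTime f) : IsPolyTime (fun x => (f x).pred) := hf.sub_one

@[fun_prop]
protected theorem bitPairs {f g : α → ℕ} (hf : IsPolyTime f) (hg : IsPolyTime g) :
    IsPolyTime (fun x => bitPairs (f x) (g x)) := by
  unfold bitPairs
  fun_prop

@[fun_prop]
theorem add {f g : α → ℕ} (hf : IsPolyTime f) (hg : IsPolyTime g) :
    IsPolyTime (fun x => f x + g x) := by
  let F : Bool × Bool → ℕ → ℕ := fun p s =>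
    bif p.1 then (bif p.2 then (Nat.bit true s).succ else Nat.bit true s) else Nat.bit p.2 s
  have key : ∀ l : List (Bool × Bool), l.foldr F 0 =
      ofBits (l.map Prod.fst) + ofBits (l.map Prod.snd) := by
    intro l
    induction l with
    | nil => rfl
    | cons p l ih =>
      rw [List.foldr_cons, ih, List.map_cons, List.map_cons, ofBits_cons, ofBits_cons]
      obtain ⟨_ | _, _ | _⟩ := p <;> simp [F, Nat.bit_val] <;> omega
  refine (foldr (f := fun _ => F) (init := fun _ => 0) (by simp only [F]; fun_prop)
    (by fun_prop) (hf.bitPairs hg) (fun x => (bitPairs (f x) (g x)).length + 1)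
    (by fun_prop) fun x i => ?_).of_eq (fun x => by rw [key, bitPairs_fst, bitPairs_snd])
  rw [key]
  refine (bsize_add_le _ _).trans ?_
  have h1 := bsize_ofBits_le (((bitPairs (f x) (g x)).drop i).map Prod.fst)
  have h2 := bsize_ofBits_le (((bitPairs (f x) (g x)).drop i).map Prod.snd)
  rw [List.length_map, List.length_drop] at h1 h2
  omega

@[fun_prop]
theorem sub {f g : α → ℕ} (hf : IsPolyTime f) (hg : IsPolyTime g) :
    IsPolyTime (fun x => f x - g x) := by
  let G : Bool → Bool → ℕ → ℕ → ℕ := fun a b u v =>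
    bif decide (v = 0) then (bif b then (Nat.bit a u).pred else Nat.bit a u) else 0
  let F : Bool × Bool → ℕ × ℕ → ℕ × ℕ := fun p s => (G p.1 p.2 s.1 s.2, G p.2 p.1 s.2 s.1)
  have key : ∀ l : List (Bool × Bool), l.foldr F (0, 0) =
      (ofBits (l.map Prod.fst) - ofBits (l.map Prod.snd),
        ofBits (l.map Prod.snd) - ofBits (l.map Prod.fst)) := by
    intro l
    induction l with
    | nil => rfl
    | cons p l ih =>
      rw [List.foldr_cons, ih, List.map_cons, List.map_cons, ofBits_cons, ofBits_cons]
      generalize ofBits (l.map Prod.fst) = u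
      generalize ofBits (l.map Prod.snd) = v
      obtain ⟨_ | _, _ | _⟩ := p <;> by_cases h1 : v - u = 0 <;> by_cases h2 : u - v = 0 <;>
        simp [F, G, Nat.bit_val, h1, h2] <;> omega
  have h0 : IsPolyTime (fun p : α × (Bool × Bool) × ℕ × ℕ => decide (p.2.2.1 = 0)) :=
    decide_eq_zero (by fun_prop)
  have h0' : IsPolyTime (fun p : α × (Bool × Bool) × ℕ × ℕ => decide (p.2.2.2 = 0)) :=
    decide_eq_zero (by fun_prop)
  refine (foldr (f := fun _ => F) (init := fun _ => (0, 0)) (by simp only [F, G]; fun_prop)
    (by fun_prop) (hf.bitPairs hg) (fun x => 3 * (bitPairs (f x) (g x)).length + 1)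
    (by fun_prop) fun x i => ?_).fst.of_eq (fun x => by rw [key, bitPairs_fst, bitPairs_snd])
  rw [key, bsize_pair]
  have h1 := bsize_ofBits_le (((bitPairs (f x) (g x)).drop i).map Prod.fst)
  have h2 := bsize_ofBits_le (((bitPairs (f x) (g x)).drop i).map Prod.snd)
  rw [List.length_map, List.length_drop] at h1 h2
  have h3 := bsize_sub_le (ofBits (((bitPairs (f x) (g x)).drop i).map Prod.fst))
    (ofBits (((bitPairs (f x) (g x)).drop i).map Prod.snd))
  have h4 := bsize_sub_le (ofBits (((bitPairs (f x) (g x)).drop i).map Prod.snd))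
    (ofBits (((bitPairs (f x) (g x)).drop i).map Prod.fst))
  omega

@[fun_prop]
theorem decide_nat_le {f g : α → ℕ} {inst : ∀ x, Decidable (f x ≤ g x)} (hf : IsPolyTime f)
    (hg : IsPolyTime g) : IsPolyTime (fun x => @decide (f x ≤ g x) (inst x)) :=
  (hf.sub hg).decide_eq_zero.decide_congr (fun _ => Nat.sub_eq_zero_iff_le)

@[fun_prop]
theorem decide_nat_lt {f g : α → ℕ} {inst : ∀ x, Decidable (f x < g x)} (hf : IsPolyTime f)
    (hg : IsPolyTime g) : IsPolyTime (fun x => @decide (f x < g x) (inst x)) :=
  (decide_nat_le (inst := fun _ => inferInstance) hf.add_one hg).decide_congr (fun _ => Iff.rfl)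

@[fun_prop]
theorem decide_eq {f g : α → β} {inst : ∀ x, Decidable (f x = g x)} (hf : IsPolyTime f)
    (hg : IsPolyTime g) : IsPolyTime (fun x => @decide (f x = g x) (inst x)) := by
  have hc : IsPolyTime (fun b : β => ofBits (bitEncode b ++ [true])) := by
    fun_prop
  have h1 := hc.comp hf
  have h2 := hc.comp hg
  refine (decide_and (inst := fun _ => inferInstance)
    (decide_nat_le (inst := fun _ => inferInstance) h1 h2)
    (decide_nat_le (inst := fun _ => inferInstance) h2 h1)).decide_congr fun x => ⟨fun h => ?_, ?_⟩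
  · have h3 := congrArg Nat.bits (le_antisymm h.1 h.2)
    rw [bits_ofBits_append_true, bits_ofBits_append_true] at h3
    exact bitEncode_injective (List.append_cancel_right h3)
  · intro h
    rw [h]
    exact ⟨le_rfl, le_rfl⟩

@[fun_prop]
theorem decide_ne {f g : α → β} {inst : ∀ x, Decidable (f x ≠ g x)} (hf : IsPolyTime f)
    (hg : IsPolyTime g) : IsPolyTime (fun x => @decide (f x ≠ g x) (inst x)) := by
  classical
  exact decide_not (p := fun x => f x = g x) (decide_eq hf hg)

@[fun_prop]
theorem beq [BEq β] [LawfulBEq β] {f g : α → β} (hf : IsPolyTime f) (hg : IsPolyTime g) :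
    IsPolyTime (fun x => f x == g x) := by
  classical
  exact (decide_eq (inst := fun _ => inferInstance) hf hg).of_eq
    (fun x => by rw [Bool.eq_iff_iff]; simp)

@[fun_prop]
theorem bne [BEq β] [LawfulBEq β] {f g : α → β} (hf : IsPolyTime f) (hg : IsPolyTime g) :
    IsPolyTime (fun x => f x != g x) := (hf.beq hg).not

omit [N487b59b3 β] in
theorem decide_ge [LE β] {f g : α → β} {inst : ∀ x, Decidable (f x ≥ g x)}
    (h : IsPolyTime (fun x => @decide (g x ≤ f x) (inst x))) :
    IsPolyTime (fun x => @decide (f x ≥ g x) (inst x)) := h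

omit [N487b59b3 β] in
theorem decide_gt [LT β] {f g : α → β} {inst : ∀ x, Decidable (f x > g x)}
    (h : IsPolyTime (fun x => @decide (g x < f x) (inst x))) :
    IsPolyTime (fun x => @decide (f x > g x) (inst x)) := h

@[fun_prop]
theorem mul {f g : α → ℕ} (hf : IsPolyTime f) (hg : IsPolyTime g) :
    IsPolyTime (fun x => f x * g x) := by
  let F : α → Bool → ℕ → ℕ := fun x b s => Nat.bit false s + (bif b then f x else 0)
  have key : ∀ x (l : List Bool), l.foldr (F x) 0 = f x * ofBits l := by
    intro x l
    induction l with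
    | nil => rfl
    | cons b l ih =>
      rw [List.foldr_cons, ih, ofBits_cons]
      cases b <;> simp [F, Nat.bit_val] <;> ring
  refine (foldr (f := F) (init := fun _ => 0) (by simp only [F]; fun_prop)
    (by fun_prop) hg.bits (fun x => bsize (f x) + (g x).bits.length)
    (by fun_prop) fun x i => ?_).of_eq (fun x => by rw [key, ofBits_bits])
  rw [key]
  refine (bsize_mul_le _ _).trans ?_
  have h1 := bsize_ofBits_le ((g x).bits.drop i)
  rw [List.length_drop] at h1
  omega

theorem div_succ {f g : α → ℕ} (hf : IsPolyTime f) (hg : IsPolyTime g) :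
    IsPolyTime (fun x => f x / (g x + 1)) := by
  let F : α → Bool → ℕ × ℕ → ℕ × ℕ := fun x b s =>
    if g x + 1 ≤ Nat.bit b s.2 then (Nat.bit true s.1, Nat.bit b s.2 - (g x + 1))
    else (Nat.bit false s.1, Nat.bit b s.2)
  have key : ∀ x (l : List Bool), l.foldr (F x) (0, 0) =
      (ofBits l / (g x + 1), ofBits l % (g x + 1)) := by
    intro x l
    induction l with
    | nil => simp
    | cons b l ih =>
      rw [List.foldr_cons, ih, ofBits_cons]
      generalize ofBits l = m
      have h1 := Nat.div_add_mod m (g x + 1)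
      have h2 := Nat.mod_lt m (Nat.succ_pos (g x))
      have h3 := Bool.toNat_le b
      generalize m / (g x + 1) = q at h1 ⊢
      generalize m % (g x + 1) = r at h1 h2 ⊢
      simp only [F, Nat.bit_val]
      symm
      split_ifs with h
      · rw [Prod.mk.injEq]
        refine (Nat.div_mod_unique (Nat.succ_pos (g x))).2 ⟨?_, by omega⟩
        simp only [Bool.toNat_true, Nat.succ_eq_add_one, mul_add, mul_one]
        have : (g x + 1) * (2 * q) = 2 * ((g x + 1) * q) := by ring
        omega
      · rw [Prod.mk.injEq]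
        refine (Nat.div_mod_unique (Nat.succ_pos (g x))).2 ⟨?_, by omega⟩
        simp only [Bool.toNat_false, Nat.succ_eq_add_one, add_zero]
        have : (g x + 1) * (2 * q) = 2 * ((g x + 1) * q) := by ring
        omega
  refine (foldr (f := F) (init := fun _ => (0, 0)) (by simp only [F]; fun_prop)
    (by fun_prop) hf.bits (fun x => 3 * (f x).bits.length + 1)
    (by fun_prop) fun x i => ?_).fst.of_eq (fun x => by rw [key, ofBits_bits])
  rw [key, bsize_pair]
  have h1 := bsize_ofBits_le ((f x).bits.drop i)
  rw [List.length_drop] at h1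
  have h2 := bsize_div_le (ofBits ((f x).bits.drop i)) (g x + 1)
  have h3 := bsize_mod_le (ofBits ((f x).bits.drop i)) (g x + 1)
  omega

@[fun_prop]
theorem div {f g : α → ℕ} (hf : IsPolyTime f) (hg : IsPolyTime g) :
    IsPolyTime (fun x => f x / g x) := by
  have h := hf.div_succ hg.sub_one
  refine IsPolyTime.of_eq (f := fun x => if g x = 0 then 0 else f x / (g x - 1 + 1))
    (by fun_prop) fun x => ?_
  split_ifs with h
  · simp [h]
  · rw [Nat.sub_add_cancel (Nat.pos_of_ne_zero h)]

@[fun_prop]
theorem mod {f g : α → ℕ} (hf : IsPolyTime f) (hg : IsPolyTime g) :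
    IsPolyTime (fun x => f x % g x) :=
  (hf.sub (hg.mul (hf.div hg))).of_eq (fun _ => (Nat.mod_def _ _).symm)

@[fun_prop]
theorem decide_nat_dvd {f g : α → ℕ} {inst : ∀ x, Decidable (f x ∣ g x)} (hf : IsPolyTime f)
    (hg : IsPolyTime g) : IsPolyTime (fun x => @decide (f x ∣ g x) (inst x)) :=
  (hg.mod hf).decide_eq_zero.decide_congr (fun _ => (Nat.dvd_iff_mod_eq_zero ..).symm)

@[fun_prop]
theorem decide_even {f : α → ℕ} {inst : ∀ x, Decidable (Even (f x))} (hf : IsPolyTime f) :
    IsPolyTime (fun x => @decide (Even (f x)) (inst x)) :=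
  (hf.mod (const 2)).decide_eq_zero.decide_congr (fun _ => Nat.even_iff.symm)

@[fun_prop]
theorem decide_odd {f : α → ℕ} {inst : ∀ x, Decidable (Odd (f x))} (hf : IsPolyTime f) :
    IsPolyTime (fun x => @decide (Odd (f x)) (inst x)) :=
  (decide_eq (inst := fun _ => inferInstance) (hf.mod (const 2)) (const 1)).decide_congr
    (fun _ => Nat.odd_iff.symm)

@[fun_prop]
theorem natCases {g : α → ℕ} {z : α → γ} {c : α → ℕ → γ} (hg : IsPolyTime g)
    (hz : IsPolyTime z) (hc : IsPolyTime (fun p : α × ℕ => c p.1 p.2)) :
    IsPolyTime (fun x => (Nat.casesOn (motive := fun _ => γ) (g x) (z x) (c x))) :=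
  IsPolyTime.of_eq (f := fun x => if g x = 0 then z x else c x (g x - 1)) (by fun_prop)
    (fun x => by cases g x <;> simp)

@[fun_prop]
theorem length {l : α → List β} (hl : IsPolyTime l) : IsPolyTime (fun x => (l x).length) := by
  have key : ∀ (r : List β) (n : ℕ), r.foldl (fun n _ => n + 1) n = n + r.length := by
    intro r
    induction r with
    | nil => simp
    | cons b r ih => intro n; rw [List.foldl_cons, ih, List.length_cons]; omega
  refine (foldl (f := fun _ n _ => n + 1) (init := fun _ => 0) (by fun_prop) (by fun_prop) hl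
    (fun x => (l x).length) (by fun_prop) fun x i => ?_).of_eq (fun x => by simp [key])
  rw [key]
  exact (bsize_nat_le_self _).trans (by simp)

@[fun_prop]
protected theorem bsize {f : α → β} (hf : IsPolyTime f) : IsPolyTime (fun x => bsize (f x)) :=
  hf.bitEncode.length

@[fun_prop]
theorem size {f : α → ℕ} (hf : IsPolyTime f) : IsPolyTime (fun x => (f x).size) :=
  hf.bsize.of_eq (fun _ => bsize_nat _)

@[fun_prop]
theorem drop {n : α → ℕ} {l : α → List β} (hn : IsPolyTime n) (hl : IsPolyTime l) :
    IsPolyTime (fun x => (l x).drop (n x)) := by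
  let F : ℕ × List β → β → ℕ × List β := fun s _ => if s.1 = 0 then s else (s.1 - 1, s.2.tail)
  have key : ∀ (L : List β) (m : ℕ) (r : List β),
      L.foldl F (m, r) = (m - L.length, r.drop (min m L.length)) := by
    intro L
    induction L with
    | nil => simp
    | cons b L ih =>
      intro m r
      rw [List.foldl_cons]
      cases m with
      | zero => simpa [F] using ih 0 r
      | succ m => simpa [F, Nat.succ_min_succ] using ih m r.tail
  refine (foldl (f := fun _ => F) (init := fun x => (n x, l x)) (by simp only [F]; fun_prop)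
    (by fun_prop) hl (fun x => 2 * bsize (n x) + 1 + bsize (l x)) (by fun_prop)
    fun x i => ?_).snd.of_eq (fun x => ?_)
  · rw [key, bsize_pair]
    have h1 := bsize_sub_le (n x) ((l x).take i).length
    have h2 := bsize_sublist (List.drop_sublist (min (n x) ((l x).take i).length) (l x))
    omega
  · rw [key]
    rcases le_total (n x) (l x).length with h | h
    · rw [min_eq_left h]
    · rw [min_eq_right h, List.drop_length, List.drop_eq_nil_of_le h]

@[fun_prop]
theorem take {n : α → ℕ} {l : α → List β} (hn : IsPolyTime n) (hl : IsPolyTime l) :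
    IsPolyTime (fun x => (l x).take (n x)) :=
  (drop (hl.length.sub hn) hl.reverse).reverse.of_eq
    (fun x => by rw [← List.reverse_take, List.reverse_reverse])

theorem bsize_range_le (k : ℕ) : bsize (List.range k) ≤ k * (2 * k + 1) := by
  have := bsize_list_le (List.range k) k
    (fun a ha => (bsize_nat_le_self a).trans (List.mem_range.1 ha).le)
  rwa [List.length_range] at this

theorem range_length {l : α → List β} (hl : IsPolyTime l) :
    IsPolyTime (fun x => List.range (l x).length) := by
  have key : ∀ (r : List β) (n : ℕ),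
      r.foldl (fun acc _ => acc ++ [acc.length]) (List.range n) = List.range (n + r.length) := by
    intro r
    induction r with
    | nil => simp
    | cons b r ih =>
      intro n
      rw [List.foldl_cons, List.length_range, ← List.range_succ, ih, List.length_cons]
      congr 1
      omega
  refine (foldl (f := fun _ acc _ => acc ++ [acc.length]) (init := fun _ => List.range 0)
    (by fun_prop) (by fun_prop) hl (fun x => (l x).length * (2 * (l x).length + 1)) (by fun_prop)
    fun x i => ?_).of_eq (fun x => by rw [key, zero_add])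
  rw [key, zero_add]
  have h : ((l x).take i).length ≤ (l x).length := List.length_take_le' _ _
  exact (bsize_range_le _).trans (Nat.mul_le_mul h (Nat.add_le_add_right (Nat.mul_le_mul_left 2 h) 1))

theorem _root_.Pool.Agent.Shared.PolyTime.PolyBdd.exists_list {g : α → ℕ} (hg : PolyBdd g) :
    ∃ l : α → List Bool, IsPolyTime l ∧ ∀ x, g x ≤ (l x).length := by
  obtain ⟨cnt, h1, h2⟩ := Comp.exists_long hg.bdd
  exact ⟨cnt, (of_comp (f := fun x => Raw.mk (cnt x)) h1).rawBits, h2⟩

@[fun_prop]
theorem range {n : α → ℕ} (hn : IsPolyTime n) (hb : PolyBdd n) :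
    IsPolyTime (fun x => List.range (n x)) := by
  obtain ⟨l, h1, h2⟩ := hb.exists_list
  exact (take hn h1).range_length.of_eq (fun x => by rw [List.length_take_of_le (h2 x)])

@[fun_prop]
theorem range' {s n : α → ℕ} (hs : IsPolyTime s) (hn : IsPolyTime n) (hb : PolyBdd n) :
    IsPolyTime (fun x => List.range' (s x) (n x)) :=
  IsPolyTime.of_eq (f := fun x => (List.range (n x)).map (fun i => s x + i)) (by fun_prop)
    (fun x => by rw [List.range'_eq_map_range])

@[fun_prop]
theorem replicate {n : α → ℕ} {a : α → β} (hn : IsPolyTime n) (hb : PolyBdd n)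
    (ha : IsPolyTime a) : IsPolyTime (fun x => List.replicate (n x) (a x)) :=
  IsPolyTime.of_eq (f := fun x => (List.range (n x)).map (fun _ => a x)) (by fun_prop)
    (fun x => by simp)

theorem foldl_const_eq_iterate {σ ι : Type} (F : σ → σ) (r : List ι) (s : σ) :
    r.foldl (fun s _ => F s) s = F^[r.length] s := by
  induction r generalizing s with
  | nil => rfl
  | cons b r ih => rw [List.foldl_cons, ih, List.length_cons, Function.iterate_succ_apply]

/-- Iteration, given a polynomial bound `B` on the code length of all intermediate states. -/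
theorem iterate {f : α → β → β} {g : α → β} {n : α → ℕ}
    (hf : IsPolyTime (fun p : α × β => f p.1 p.2)) (hg : IsPolyTime g) (hn : IsPolyTime n)
    (hn' : PolyBdd n) (B : α → ℕ) (hB : PolyBdd B)
    (hb : ∀ x i, i ≤ n x → bsize ((f x)^[i] (g x)) ≤ B x) :
    IsPolyTime (fun x => (f x)^[n x] (g x)) :=
  (foldl (f := fun x s (_ : ℕ) => f x s) (by fun_prop) hg (range hn hn') B hB (fun x i => by
    rw [foldl_const_eq_iterate]; exact hb x _ (by simp))).of_eq
    (fun x => by rw [foldl_const_eq_iterate, List.length_range])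

theorem iterate_inv {f : α → β → β} {g : α → β} {n : α → ℕ}
    (hf : IsPolyTime (fun p : α × β => f p.1 p.2)) (hg : IsPolyTime g) (hn : IsPolyTime n)
    (hn' : PolyBdd n) (I : α → β → Prop) (h0 : ∀ x, I x (g x)) (hI : ∀ x s, I x s → I x (f x s))
    (B : α → ℕ) (hB : PolyBdd B) (hb : ∀ x s, I x s → bsize s ≤ B x) :
    IsPolyTime (fun x => (f x)^[n x] (g x)) :=
  iterate hf hg hn hn' B hB (fun x i _ => hb x _ (Function.Iterate.rec (I x) (h0 x) (hI x) i))

theorem iterate_grow {f : α → β → β} {g : α → β} {n : α → ℕ}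
    (hf : IsPolyTime (fun p : α × β => f p.1 p.2)) (hg : IsPolyTime g) (hn : IsPolyTime n)
    (hn' : PolyBdd n) (B : α → ℕ) (hB : PolyBdd B)
    (hb : ∀ x s, bsize (f x s) ≤ bsize s + B x) :
    IsPolyTime (fun x => (f x)^[n x] (g x)) :=
  (foldl_grow (f := fun x s (_ : ℕ) => f x s) (by fun_prop) hg (range hn hn') B hB
    (fun x s _ _ => hb x s)).of_eq (fun x => by rw [foldl_const_eq_iterate, List.length_range])

/-- Primitive recursion on a polynomially bounded number, with bounded intermediate values. -/
theorem natRec {f : α → ℕ → β → β} {g : α → β} {n : α → ℕ}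
    (hf : IsPolyTime (fun p : α × ℕ × β => f p.1 p.2.1 p.2.2)) (hg : IsPolyTime g)
    (hn : IsPolyTime n) (hn' : PolyBdd n) (B : α → ℕ) (hB : PolyBdd B)
    (hb : ∀ x i, i ≤ n x → bsize (Nat.rec (motive := fun _ => β) (g x) (f x) i) ≤ B x) :
    IsPolyTime (fun x => Nat.rec (motive := fun _ => β) (g x) (f x) (n x)) := by
  have key : ∀ x k, (List.range k).foldl (fun s i => f x i s) (g x) =
      Nat.rec (motive := fun _ => β) (g x) (f x) k := by
    intro x k
    induction k with
    | zero => rfl
    | succ k ih => rw [List.range_succ, List.foldl_append, ih]; rfl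
  exact (foldl (f := fun x s i => f x i s) (by fun_prop) hg (range hn hn') B hB (fun x i => by
    rw [List.take_range, key]; exact hb x _ (min_le_right _ _))).of_eq (fun x => key x _)

@[fun_prop]
theorem pow {f k : α → ℕ} (hf : IsPolyTime f) (hk : IsPolyTime k) (hb : PolyBdd k) :
    IsPolyTime (fun x => f x ^ k x) :=
  (iterate_grow (f := fun x s => s * f x) (g := fun _ => 1) (by fun_prop) (by fun_prop) hk hb
    (fun x => bsize (f x)) (by fun_prop) (fun x s => bsize_mul_le _ _)).of_eq
    (fun x => by simp)

@[fun_prop]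
theorem nat_min {f g : α → ℕ} (hf : IsPolyTime f) (hg : IsPolyTime g) :
    IsPolyTime (fun x => min (f x) (g x)) :=
  IsPolyTime.of_eq (f := fun x => if f x ≤ g x then f x else g x) (by fun_prop)
    (fun _ => (min_def _ _).symm)

@[fun_prop]
theorem nat_max {f g : α → ℕ} (hf : IsPolyTime f) (hg : IsPolyTime g) :
    IsPolyTime (fun x => max (f x) (g x)) :=
  IsPolyTime.of_eq (f := fun x => if f x ≤ g x then g x else f x) (by fun_prop)
    (fun _ => (max_def _ _).symm)

@[fun_prop]
theorem polyEval (p : Polynomial ℕ) {f : α → ℕ} (hf : IsPolyTime f) :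
    IsPolyTime (fun x => p.eval (f x)) := by
  induction p using Polynomial.induction_on' with
  | add p q ihp ihq => exact (ihp.add ihq).of_eq (fun x => by simp)
  | monomial n a =>
    exact IsPolyTime.of_eq (f := fun x => a * f x ^ n) (by fun_prop) (fun x => by simp)

@[fun_prop]
theorem log2 {f : α → ℕ} (hf : IsPolyTime f) : IsPolyTime (fun x => (f x).log2) :=
  hf.size.sub_one.of_eq (fun x => by
    rcases Nat.eq_zero_or_pos (f x) with h | h
    · simp [h]
    · apply le_antisymm
      · have := (Nat.log2_lt h.ne' (k := (f x).log2 + 1)).1 (Nat.lt_succ_self _)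
        have := Nat.size_le.2 this
        omega
      · have := (Nat.log2_lt h.ne').2 (Nat.lt_size_self (f x))
        omega)

@[fun_prop]
theorem shiftRight {f k : α → ℕ} (hf : IsPolyTime f) (hk : IsPolyTime k) :
    IsPolyTime (fun x => f x >>> k x) :=
  IsPolyTime.of_eq (f := fun x => f x / 2 ^ (min (k x) (f x).size)) (by fun_prop) (fun x => by
    rw [Nat.shiftRight_eq_div_pow]
    rcases le_total (k x) (f x).size with h | h
    · rw [min_eq_left h]
    · rw [min_eq_right h, Nat.div_eq_of_lt (Nat.lt_size_self _), Nat.div_eq_of_lt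
        ((Nat.lt_size_self _).trans_le (Nat.pow_le_pow_right (by norm_num) h))])

@[fun_prop]
theorem shiftLeft {f k : α → ℕ} (hf : IsPolyTime f) (hk : IsPolyTime k) (hb : PolyBdd k) :
    IsPolyTime (fun x => f x <<< k x) :=
  IsPolyTime.of_eq (f := fun x => f x * 2 ^ (k x)) (by fun_prop)
    (fun x => by rw [Nat.shiftLeft_eq])

@[fun_prop]
theorem testBit {f k : α → ℕ} (hf : IsPolyTime f) (hk : IsPolyTime k) :
    IsPolyTime (fun x => (f x).testBit (k x)) :=
  IsPolyTime.of_eq (f := fun x => decide ((f x >>> k x) % 2 = 1)) (by fun_prop)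
    (fun x => by rw [Nat.testBit_eq_decide_div_mod_eq, Nat.shiftRight_eq_div_pow])

@[fun_prop]
theorem gcd {f g : α → ℕ} (hf : IsPolyTime f) (hg : IsPolyTime g) :
    IsPolyTime (fun x => Nat.gcd (f x) (g x)) := by
  let F : ℕ × ℕ → ℕ × ℕ := fun s => if s.1 = 0 then s else (s.2 % s.1, s.1)
  have key : ∀ (k a b : ℕ), a ≤ b → a * b < 2 ^ k → F^[k] (a, b) = (0, Nat.gcd a b) := by
    intro k
    induction k with
    | zero =>
      intro a b hab h
      have : a = 0 := by
        by_contra ha
        have := Nat.mul_pos (Nat.pos_of_ne_zero ha) (lt_of_lt_of_le (Nat.pos_of_ne_zero ha) hab)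
        omega
      simp [this]
    | succ k ih =>
      intro a b hab h
      by_cases ha : a = 0
      · subst ha
        rw [Nat.gcd_zero_left]
        exact Function.iterate_fixed (by simp [F]) _
      · rw [Function.iterate_succ_apply, Nat.gcd_rec]
        simp only [F, ha, if_false]
        have h1 := Nat.mod_lt b (Nat.pos_of_ne_zero ha)
        refine ih _ _ h1.le ?_
        have h2 : 2 * (b % a) ≤ b := by
          have h3 := Nat.div_add_mod b a
          have h4 : 1 ≤ b / a := (Nat.one_le_div_iff (Nat.pos_of_ne_zero ha)).2 hab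
          have h5 := Nat.mul_le_mul_left a h4
          omega
        have h6 := Nat.mul_le_mul_left a h2
        rw [pow_succ] at h
        have : a * (2 * (b % a)) = 2 * (b % a * a) := by ring
        omega
  refine (iterate_inv (f := fun _ => F) (g := fun x => (min (f x) (g x), max (f x) (g x)))
    (n := fun x => bsize (f x) + bsize (g x)) (by simp only [F]; fun_prop)
    (by fun_prop) (by fun_prop) (by fun_prop)
    (fun x s => s.1 ≤ max (f x) (g x) ∧ s.2 ≤ max (f x) (g x))
    (fun x => ⟨min_le_max, le_rfl⟩) (fun x s hs => ?_)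
    (fun x => 3 * bsize (max (f x) (g x)) + 1) (by fun_prop)
    (fun x s hs => ?_)).snd.of_eq (fun x => ?_)
  · simp only [F]
    split_ifs
    · exact hs
    · exact ⟨(Nat.mod_le _ _).trans hs.2, hs.1⟩
  · have h1 := bsize_nat_mono hs.1
    have h2 := bsize_nat_mono hs.2
    rw [bsize_prod]
    omega
  · rw [key _ _ _ min_le_max (by
      rw [min_mul_max]; exact bsize_nat_le_iff.1 (bsize_mul_le _ _))]
    rcases le_total (f x) (g x) with h | h
    · rw [min_eq_left h, max_eq_right h]
    · rw [min_eq_right h, max_eq_left h, Nat.gcd_comm]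

@[fun_prop]
theorem lcm {f g : α → ℕ} (hf : IsPolyTime f) (hg : IsPolyTime g) :
    IsPolyTime (fun x => Nat.lcm (f x) (g x)) := (hf.mul hg).div (hf.gcd hg)

@[fun_prop]
theorem decide_coprime {f g : α → ℕ} {inst : ∀ x, Decidable (Nat.Coprime (f x) (g x))}
    (hf : IsPolyTime f) (hg : IsPolyTime g) :
    IsPolyTime (fun x => @decide (Nat.Coprime (f x) (g x)) (inst x)) :=
  decide_eq (hf.gcd hg) (const 1)

@[fun_prop]
theorem factorial {k : α → ℕ} (hk : IsPolyTime k) (hb : PolyBdd k) :
    IsPolyTime (fun x => (k x).factorial) := by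
  have key : ∀ i : ℕ, Nat.rec (motive := fun _ => ℕ) 1 (fun i s => (i + 1) * s) i = i.factorial := by
    intro i
    induction i with
    | zero => rfl
    | succ i ih => rw [Nat.factorial_succ, ← ih]
  refine (natRec (f := fun _ i s => (i + 1) * s) (g := fun _ => 1) (by fun_prop) (by fun_prop) hk hb
    (fun x => k x * k x + 1) (by fun_prop) (fun x i hi => ?_)).of_eq (fun x => key _)
  rw [key]
  refine (bsize_nat_mono (Nat.factorial_le_pow i)).trans ((bsize_pow_le i i).trans ?_)
  exact Nat.add_le_add_right (Nat.mul_le_mul hi ((bsize_nat_le_self i).trans hi)) 1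

end N68a2faeb.IsPolyTime
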