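import Mathlib

/-!
Flat Boolean stack machines `SM`, their runs, and the machine combinators
(sequence, case, loop, renaming of stacks).
-/

namespace Pool.Agent.Shared.PolyTime

open Function

/-- One instruction: push a bit on stack `k`, or pop stack `k` and branch on the result
(`qE` if the stack was empty, `qF` / `qT` if the popped bit was `false` / `true`). -/
inductive Instr (K Q : Type) : Type
  | push (k : K) (b : Bool) (q : Q) : Instr K Q
  | pop (k : K) (qE qF qT : Q) : Instr K Q

/-- The contents of all stacks (head of the list = top of the stack). -/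
abbrev Stk (K : Type) : Type := K → List Bool

namespace Instr

variable {K K' Q Q' : Type}

/-- Rename the stacks and the control states of an instruction. -/
def map (ρ : K → K') (φ : Q → Q') : Instr K Q → Instr K' Q'
  | push k b q => push (ρ k) b (φ q)
  | pop k qE qF qT => pop (ρ k) (φ qE) (φ qF) (φ qT)

/-- The next control state. -/
def next : Instr K Q → Stk K → Q
  | push _ _ q, _ => q
  | pop k qE qF qT, S =>
    match S k with
    | [] => qE
    | false :: _ => qF
    | true :: _ => qT

/-- The next stack contents. -/
def upd [DecidableEq K] : Instr K Q → Stk K → Stk K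
  | push k b _, S => update S k (b :: S k)
  | pop k _ _ _, S => update S k (S k).tail

end Instr

/-- A stack machine over the stacks `K`, with finite control `Q`; the control state `none`
is the halting state. -/
structure SM (K : Type) : Type 1 where
  Q : Type
  fin : Finite Q
  start : Option Q
  δ : Q → Instr K (Option Q)

namespace SM

variable {K K' : Type} [DecidableEq K] [DecidableEq K']

/-- One step of the machine; the halting state is absorbing. -/
def step (M : SM K) : Option M.Q × Stk K → Option M.Q × Stk K
  | (none, S) => (none, S)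
  | (some q, S) => ((M.δ q).next S, (M.δ q).upd S)

/-- `M.RunsFrom o S S' t`: from control state `o` and stacks `S` the machine halts
with stacks `S'` after at most `t` steps. -/
inductive RunsFrom (M : SM K) : Option M.Q → Stk K → Stk K → ℕ → Prop
  | done (S : Stk K) (t : ℕ) : RunsFrom M none S S t
  | step (q : M.Q) (S S' : Stk K) (t : ℕ) :
      RunsFrom M ((M.δ q).next S) ((M.δ q).upd S) S' t → RunsFrom M (some q) S S' (t + 1)

/-- `M.Runs S S' t`: started on `S`, the machine halts with stacks `S'` within `t` steps. -/
def Runs (M : SM K) (S S' : Stk K) (t : ℕ) : Prop := M.RunsFrom M.start S S' t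

theorem RunsFrom.mono {M : SM K} {o : Option M.Q} {S S' : Stk K} {t t' : ℕ}
    (h : M.RunsFrom o S S' t) (ht : t ≤ t') : M.RunsFrom o S S' t' := by
  induction h generalizing t' with
  | done S t => exact .done S t'
  | step q S S' t _ ih =>
    obtain ⟨u, rfl⟩ : ∃ u, t' = u + 1 := ⟨t' - 1, by omega⟩
    exact .step q S S' u (ih (by omega))

theorem Runs.mono {M : SM K} {S S' : Stk K} {t t' : ℕ}
    (h : M.Runs S S' t) (ht : t ≤ t') : M.Runs S S' t' := RunsFrom.mono h ht

theorem step_none (M : SM K) (S : Stk K) : M.step (none, S) = (none, S) := rfl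

theorem step_some (M : SM K) (q : M.Q) (S : Stk K) :
    M.step (some q, S) = ((M.δ q).next S, (M.δ q).upd S) := rfl

theorem iterate_step_none (M : SM K) (S : Stk K) (t : ℕ) : M.step^[t] (none, S) = (none, S) :=
  Function.iterate_fixed rfl t

theorem runsFrom_iff {M : SM K} {o : Option M.Q} {S S' : Stk K} {t : ℕ} :
    M.RunsFrom o S S' t ↔ M.step^[t] (o, S) = (none, S') := by
  constructor
  · intro h
    induction h with
    | done S t => exact M.iterate_step_none S t
    | step q S S' t _ ih => rw [Function.iterate_succ_apply, step_some]; exact ih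
  · induction t generalizing o S with
    | zero =>
      intro h
      obtain ⟨rfl, rfl⟩ := Prod.mk.inj h
      exact .done _ _
    | succ t ih =>
      intro h
      cases o with
      | none =>
        rw [iterate_step_none] at h
        obtain ⟨-, rfl⟩ := Prod.mk.inj h
        exact .done _ _
      | some q =>
        rw [Function.iterate_succ_apply, step_some] at h
        exact .step q S S' t (ih h)

/-- A run is the `t`-fold iteration of `step`. -/
theorem runs_iff {M : SM K} {S S' : Stk K} {t : ℕ} :
    M.Runs S S' t ↔ M.step^[t] (M.start, S) = (none, S') := runsFrom_iff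

theorem length_upd_le {Q : Type} (i : Instr K Q) (S : Stk K) (k : K) :
    (i.upd S k).length ≤ (S k).length + 1 := by
  cases i with
  | push k' b q =>
    by_cases h : k = k'
    · subst h; simp [Instr.upd]
    · simp [Instr.upd, update_of_ne h]
  | pop k' _ _ _ =>
    by_cases h : k = k'
    · subst h; simp [Instr.upd]; omega
    · simp [Instr.upd, update_of_ne h]

theorem RunsFrom.length_le {M : SM K} {o : Option M.Q} {S S' : Stk K} {t : ℕ}
    (h : M.RunsFrom o S S' t) (k : K) : (S' k).length ≤ (S k).length + t := by
  induction h with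
  | done S t => omega
  | step q S S' t _ ih => have := length_upd_le (M.δ q) S k; omega

theorem Runs.length_le {M : SM K} {S S' : Stk K} {t : ℕ}
    (h : M.Runs S S' t) (k : K) : (S' k).length ≤ (S k).length + t := RunsFrom.length_le h k

/-- Embedding lemma: `M` sits inside `M'` through `φ`, and the exit of `M` is `φ none`. -/
theorem RunsFrom.embed {M M' : SM K} (φ : Option M.Q → Option M'.Q)
    (hφ : ∀ q, ∃ q', φ (some q) = some q' ∧ M'.δ q' = (M.δ q).map id φ)
    {o : Option M.Q} {S S' S'' : Stk K} {t t' : ℕ}
    (h : M.RunsFrom o S S' t) (h' : M'.RunsFrom (φ none) S' S'' t') :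
    M'.RunsFrom (φ o) S S'' (t + t') := by
  induction h with
  | done S t => exact h'.mono (by omega)
  | step q S S' t _ ih =>
    obtain ⟨q', h1, h2⟩ := hφ q
    rw [h1, show t + 1 + t' = (t + t') + 1 by omega]
    refine .step q' S S'' _ ?_
    have e1 : (M'.δ q').next S = φ ((M.δ q).next S) := by
      rw [h2]
      cases M.δ q with
      | push k b q => rfl
      | pop k qE qF qT =>
        simp only [Instr.map, Instr.next, id]
        split <;> rfl
    have e2 : (M'.δ q').upd S = (M.δ q).upd S := by
      rw [h2]
      cases M.δ q <;> rfl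
    rw [e1, e2]
    exact ih h'

/-! ### Combinators -/

/-- The machine that halts at once. -/
def skip : SM K := ⟨Empty, inferInstance, none, fun q => q.elim⟩

theorem runs_skip (S : Stk K) (t : ℕ) : (skip : SM K).Runs S S t := RunsFrom.done S t

/-- Push one bit. -/
def push (k : K) (b : Bool) : SM K := ⟨Unit, inferInstance, some (), fun _ => .push k b none⟩

theorem runs_push (k : K) (b : Bool) (S : Stk K) :
    (push k b).Runs S (update S k (b :: S k)) 1 :=
  RunsFrom.step (M := push k b) () S _ 0 (RunsFrom.done _ _)

/-- Sequential composition. -/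
def seq (M₁ M₂ : SM K) : SM K where
  Q := M₁.Q ⊕ M₂.Q
  fin := by have := M₁.fin; have := M₂.fin; infer_instance
  start := M₁.start.elim (M₂.start.map Sum.inr) (fun q => some (Sum.inl q))
  δ := Sum.elim
    (fun q => (M₁.δ q).map id (fun o => o.elim (M₂.start.map Sum.inr) (fun q => some (Sum.inl q))))
    (fun q => (M₂.δ q).map id (Option.map Sum.inr))

theorem Runs.seq {M₁ M₂ : SM K} {S S' S'' : Stk K} {t₁ t₂ : ℕ}
    (h₁ : M₁.Runs S S' t₁) (h₂ : M₂.Runs S' S'' t₂) : (seq M₁ M₂).Runs S S'' (t₁ + t₂) := by
  have h3 := RunsFrom.embed (M := M₂) (M' := SM.seq M₁ M₂) (Option.map Sum.inr)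
    (fun q => ⟨Sum.inr q, rfl, rfl⟩) h₂ (RunsFrom.done S'' 0)
  exact RunsFrom.embed (M := M₁) (M' := SM.seq M₁ M₂)
    (fun o => o.elim (M₂.start.map Sum.inr) (fun q => some (Sum.inl q)))
    (fun q => ⟨Sum.inl q, rfl, rfl⟩) h₁ h3

/-- Pop stack `k` and run `mE`, `mF` or `mT` according to the result. -/
def case (k : K) (mE mF mT : SM K) : SM K where
  Q := Option (mE.Q ⊕ mF.Q ⊕ mT.Q)
  fin := by have := mE.fin; have := mF.fin; have := mT.fin; infer_instance
  start := some none
  δ := fun q => match q with
    | none => .pop k (mE.start.map (fun q => some (Sum.inl q)))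
        (mF.start.map (fun q => some (Sum.inr (Sum.inl q))))
        (mT.start.map (fun q => some (Sum.inr (Sum.inr q))))
    | some (Sum.inl q) => (mE.δ q).map id (Option.map (fun q => some (Sum.inl q)))
    | some (Sum.inr (Sum.inl q)) =>
        (mF.δ q).map id (Option.map (fun q => some (Sum.inr (Sum.inl q))))
    | some (Sum.inr (Sum.inr q)) =>
        (mT.δ q).map id (Option.map (fun q => some (Sum.inr (Sum.inr q))))

theorem Runs.case_nil {k : K} {mE mF mT : SM K} {S S' : Stk K} {t : ℕ} (hk : S k = [])
    (h : mE.Runs S S' t) : (case k mE mF mT).Runs S S' (t + 1) := by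
  refine RunsFrom.step (M := case k mE mF mT) none S S' t ?_
  have e : update S k [] = S := by rw [← hk, update_eq_self]
  simp only [case, Instr.next, Instr.upd, hk, List.tail_nil, e]
  exact RunsFrom.embed (M := mE) (M' := case k mE mF mT) (Option.map (fun q => some (Sum.inl q)))
    (fun q => ⟨some (Sum.inl q), rfl, rfl⟩) h (RunsFrom.done S' 0)

theorem Runs.case_false {k : K} {mE mF mT : SM K} {S S' : Stk K} {t : ℕ} {l : List Bool}
    (hk : S k = false :: l) (h : mF.Runs (update S k l) S' t) :
    (case k mE mF mT).Runs S S' (t + 1) := by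
  refine RunsFrom.step (M := case k mE mF mT) none S S' t ?_
  simp only [case, Instr.next, Instr.upd, hk, List.tail_cons]
  exact RunsFrom.embed (M := mF) (M' := case k mE mF mT)
    (Option.map (fun q => some (Sum.inr (Sum.inl q))))
    (fun q => ⟨some (Sum.inr (Sum.inl q)), rfl, rfl⟩) h (RunsFrom.done S' 0)

theorem Runs.case_true {k : K} {mE mF mT : SM K} {S S' : Stk K} {t : ℕ} {l : List Bool}
    (hk : S k = true :: l) (h : mT.Runs (update S k l) S' t) :
    (case k mE mF mT).Runs S S' (t + 1) := by
  refine RunsFrom.step (M := case k mE mF mT) none S S' t ?_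
  simp only [case, Instr.next, Instr.upd, hk, List.tail_cons]
  exact RunsFrom.embed (M := mT) (M' := case k mE mF mT)
    (Option.map (fun q => some (Sum.inr (Sum.inr q))))
    (fun q => ⟨some (Sum.inr (Sum.inr q)), rfl, rfl⟩) h (RunsFrom.done S' 0)

/-- Repeat: pop stack `k`; halt if it was empty, otherwise run `m b` for the popped bit `b`. -/
def loop (k : K) (m : Bool → SM K) : SM K where
  Q := Option ((m false).Q ⊕ (m true).Q)
  fin := by have := (m false).fin; have := (m true).fin; infer_instance
  start := some none
  δ := fun q => match q with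
    | none => .pop k none
        (some ((m false).start.map Sum.inl)) (some ((m true).start.map Sum.inr))
    | some (Sum.inl q) => ((m false).δ q).map id (fun o => some (o.map Sum.inl))
    | some (Sum.inr q) => ((m true).δ q).map id (fun o => some (o.map Sum.inr))

theorem Runs.loop_nil {k : K} {m : Bool → SM K} {S : Stk K} (hk : S k = []) :
    (loop k m).Runs S S 1 := by
  refine RunsFrom.step (M := loop k m) none S S 0 ?_
  have e : update S k [] = S := by rw [← hk, update_eq_self]
  simp only [loop, Instr.next, Instr.upd, hk, List.tail_nil, e]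
  exact RunsFrom.done (M := loop k m) S 0

theorem Runs.loop_cons {k : K} {m : Bool → SM K} {S S' S'' : Stk K} {b : Bool} {l : List Bool}
    {t t' : ℕ} (hk : S k = b :: l) (h : (m b).Runs (update S k l) S' t)
    (h' : (loop k m).Runs S' S'' t') : (loop k m).Runs S S'' (t + t' + 1) := by
  refine RunsFrom.step (M := loop k m) none S S'' _ ?_
  cases b with
  | false =>
    simp only [loop, Instr.next, Instr.upd, hk, List.tail_cons]
    exact RunsFrom.embed (M := m false) (M' := loop k m) (fun o => some (o.map Sum.inl))
      (fun q => ⟨some (Sum.inl q), rfl, rfl⟩) h h'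
  | true =>
    simp only [loop, Instr.next, Instr.upd, hk, List.tail_cons]
    exact RunsFrom.embed (M := m true) (M' := loop k m) (fun o => some (o.map Sum.inr))
      (fun q => ⟨some (Sum.inr q), rfl, rfl⟩) h h'

/-- Rename the stacks. -/
def rename (ρ : K → K') (M : SM K) : SM K' :=
  ⟨M.Q, M.fin, M.start, fun q => (M.δ q).map ρ id⟩

theorem RunsFrom.rename {ρ : K → K'} (hρ : Injective ρ) {M : SM K} {o : Option M.Q}
    {S S' : Stk K} {t : ℕ} (h : M.RunsFrom o S S' t) (T T' : Stk K')
    (hT : ∀ k, T (ρ k) = S k) (hT' : ∀ k, T' (ρ k) = S' k)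
    (hr : ∀ k', (∀ k, ρ k ≠ k') → T' k' = T k') : (M.rename ρ).RunsFrom o T T' t := by
  induction h generalizing T with
  | done S t =>
    have : T' = T := by
      funext k'
      by_cases hk : ∃ k, ρ k = k'
      · obtain ⟨k, rfl⟩ := hk; rw [hT, hT']
      · exact hr k' (fun k e => hk ⟨k, e⟩)
    subst this
    exact .done _ _
  | step q S S' t _ ih =>
    refine RunsFrom.step (M := M.rename ρ) q T T' t ?_
    have e1 : ((M.rename ρ).δ q).next T = (M.δ q).next S := by
      simp only [SM.rename]
      cases M.δ q with
      | push k b q => rfl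
      | pop k qE qF qT => simp only [Instr.map, Instr.next, hT, id]
    rw [e1]
    refine ih _ (fun k => ?_) hT' (fun k' hk' => ?_)
    · simp only [SM.rename]
      cases M.δ q with
      | push k₀ b q =>
        simp only [Instr.map, Instr.upd, hT]
        by_cases e : k = k₀
        · subst e; simp
        · rw [update_of_ne e, update_of_ne (hρ.ne e), hT]
      | pop k₀ qE qF qT =>
        simp only [Instr.map, Instr.upd, hT]
        by_cases e : k = k₀
        · subst e; simp
        · rw [update_of_ne e, update_of_ne (hρ.ne e), hT]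
    · rw [hr k' hk']
      simp only [SM.rename]
      cases M.δ q with
      | push k₀ b q => simp only [Instr.map, Instr.upd]; rw [update_of_ne (hk' k₀).symm]
      | pop k₀ qE qF qT => simp only [Instr.map, Instr.upd]; rw [update_of_ne (hk' k₀).symm]

theorem Runs.rename {ρ : K → K'} (hρ : Injective ρ) {M : SM K}
    {S S' : Stk K} {t : ℕ} (h : M.Runs S S' t) (T T' : Stk K')
    (hT : ∀ k, T (ρ k) = S k) (hT' : ∀ k, T' (ρ k) = S' k)
    (hr : ∀ k', (∀ k, ρ k ≠ k') → T' k' = T k') : (M.rename ρ).Runs T T' t :=
  RunsFrom.rename hρ h T T' hT hT' hr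

end SM

/-- All stacks empty except `a`, which holds `l`. -/
def single {K : Type} [DecidableEq K] (a : K) (l : List Bool) : Stk K :=
  update (fun _ => []) a l

/-- `Comp e g`: some stack machine maps the bit string `e x` (on its stack `a`, other stacks
empty) to the bit string `g x` (on the same stack `a`, other stacks empty), for every `x`, in
time polynomial in the length of `e x`. -/
def Comp {α : Type} (e g : α → List Bool) : Prop :=
  ∃ (K : Type) (_ : Fintype K) (_ : DecidableEq K) (a : K) (M : SM K) (p : Polynomial ℕ),
    ∀ x, M.Runs (single a (e x)) (single a (g x)) (p.eval (e x).length)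

end Pool.Agent.Shared.PolyTime
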