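import Pool.Agent.Shared.PolyTime.Int

/-!
Decoding is polynomial-time; finite sets.
-/

set_option linter.unusedVariables false

namespace Pool.Agent.Shared.PolyTime

open N487b59b3 N68a2faeb

/-- Types whose decoding function is polynomial-time. -/
class PolyDecode (α : Type) [N487b59b3 α] : Prop where
  dec : IsPolyTime (bitDecode : List Bool → Option α)

theorem undelimit_eq (l : List Bool) : undelimit l =
    if delimit (undelim l).1 ++ (undelim l).2 = l then some (undelim l) else none := by
  fun_induction undelim l with
  | case1 => simp [undelimit, delimit]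
  | case2 r => simp [undelimit, delimit]
  | case3 => simp [undelimit, delimit]
  | case4 b r ih =>
    simp only [undelimit, ih, delimit, List.cons_append, List.cons.injEq, true_and]
    split_ifs <;> rfl

theorem undelimit_eq_some {l : List Bool} {p : List Bool × List Bool} (h : undelimit l = some p) :
    l = delimit p.1 ++ p.2 := by
  rw [undelimit_eq] at h
  split_ifs at h with h1
  obtain rfl := Option.some.inj h
  exact h1.symm

end Pool.Agent.Shared.PolyTime

namespace N68a2faeb.IsPolyTime

open Pool.Agent.Shared.PolyTime N487b59b3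

variable {α β γ δ : Type} [N487b59b3 α] [N487b59b3 β] [N487b59b3 γ] [N487b59b3 δ]

@[fun_prop]
protected theorem bitDecode [PolyDecode β] {f : α → List Bool} (hf : IsPolyTime f) :
    IsPolyTime (fun x => (bitDecode (f x) : Option β)) := PolyDecode.dec.comp hf

@[fun_prop]
protected theorem delimit {l : α → List Bool} (hl : IsPolyTime l) :
    IsPolyTime (fun x => delimit (l x)) := by
  refine IsPolyTime.of_eq (f := fun x => (l x).flatMap (fun b => [true, b]) ++ [false])
    (by fun_prop) (fun x => ?_)
  induction l x with
  | nil => rfl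
  | cons b r ih => simp [delimit, ← ih]

@[fun_prop]
protected theorem undelim {l : α → List Bool} (hl : IsPolyTime l) :
    IsPolyTime (fun x => undelim (l x)) :=
  (of_comp (f := fun x => Raw.mk (undelim (l x)).1) (Comp.undelim_fst hl.rawMk.pt)).rawBits.pair
    (of_comp (f := fun x => Raw.mk (undelim (l x)).2) (Comp.undelim_snd hl.rawMk.pt)).rawBits

@[fun_prop]
protected theorem undelimit {l : α → List Bool} (hl : IsPolyTime l) :
    IsPolyTime (fun x => undelimit (l x)) := by
  simp only [undelimit_eq]
  fun_prop

@[fun_prop]
protected theorem undelimitBlocks {l : α → List Bool} (hl : IsPolyTime l) :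
    IsPolyTime (fun x => undelimitBlocks (l x)) := by
  let F : List Bool × Option (List (List Bool)) → List Bool × Option (List (List Bool)) := fun s =>
    if s.1 = [] then s else
      (undelimit s.1).elim ([], none) (fun p => (p.2, s.2.map (fun acc => acc ++ [p.1])))
  have key : ∀ (n : ℕ) (r : List Bool) (o : Option (List (List Bool))),
      (if (F^[n] (r, o)).1 = [] then (F^[n] (r, o)).2 else none) =
        (undelimitBlocksAux n r).bind (fun bs => o.map (fun acc => acc ++ bs)) := by
    intro n
    induction n with
    | zero => intro r o; cases r <;> simp [undelimitBlocksAux]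
    | succ n ih =>
      intro r o
      rw [Function.iterate_succ_apply]
      cases r with
      | nil =>
        have : F ([], o) = ([], o) := by simp [F]
        rw [this, ih]
        cases n <;> simp [undelimitBlocksAux]
      | cons b r =>
        cases h : undelimit (b :: r) with
        | none =>
          have : F (b :: r, o) = ([], none) := by simp [F, h]
          rw [this, ih]
          cases n <;> simp [undelimitBlocksAux, h]
        | some p =>
          have : F (b :: r, o) = (p.2, o.map (fun acc => acc ++ [p.1])) := by simp [F, h]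
          rw [this, ih]
          simp only [undelimitBlocksAux, h, Option.bind_some]
          cases undelimitBlocksAux n p.2 <;> cases o <;> simp
  have h := iterate_inv (f := fun _ => F) (g := fun x => (l x, some [])) (n := fun x => (l x).length)
    (by simp only [F]; fun_prop) (by fun_prop) (by fun_prop) (by fun_prop)
    (fun x s => bsize s.1 + bsize (s.2.getD []) ≤ bsize (l x)) (fun x => by simp)
    (fun x s hs => by
      simp only [F]
      split_ifs
      · exact hs
      · cases h : undelimit s.1 with
        | none => simp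
        | some p =>
          have h1 := congrArg List.length (undelimit_eq_some h)
          rw [List.length_append, length_delimit] at h1
          obtain ⟨r, _ | acc⟩ := s <;>
            simp only [Option.elim, Option.map, Option.getD, bsize_boolList, bsize_append,
              bsize_cons, bsize_nil] at hs h1 ⊢ <;> omega)
    (fun x => 4 * bsize (l x) + 2) (by fun_prop) (fun x s hs => by
      obtain ⟨r, _ | acc⟩ := s <;> simp at hs ⊢ <;> omega)
  refine IsPolyTime.of_eq (f := fun x => if (F^[(l x).length] (l x, some [])).1 = [] then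
    (F^[(l x).length] (l x, some [])).2 else none)
    (IsPolyTime.ite (decide_eq h.fst (const _)) h.snd (const _)) (fun x => ?_)
  rw [key, undelimitBlocks]
  cases undelimitBlocksAux (l x).length (l x) <;> simp

@[fun_prop]
theorem mapM_option {f : α → β → Option γ} {l : α → List β}
    (hf : IsPolyTime (fun p : α × β => f p.1 p.2)) (hl : IsPolyTime l) :
    IsPolyTime (fun x => (l x).mapM (f x)) :=
  IsPolyTime.of_eq (f := fun x => bif (l x).all (fun b => (f x b).isSome) then
    some ((l x).filterMap (f x)) else none) (by fun_prop) (fun x => by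
      induction l x with
      | nil => rfl
      | cons b r ih =>
        rw [List.mapM_cons, ← ih]
        cases h : f x b <;> cases h' : r.all (fun b => (f x b).isSome) <;> simp [h, h'])

@[fun_prop]
theorem decodeNat {l : α → List Bool} (hl : IsPolyTime l) :
    IsPolyTime (fun x => Computability.decodeNat (l x)) := by
  have h1 : ∀ l : List Bool, ((Computability.decodePosNum l : PosNum) : ℕ) < 2 ^ (l.length + 1) := by
    intro l
    induction l with
    | nil => simp [Computability.decodePosNum]
    | cons b r ih =>
      cases b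
      · rw [Computability.decodePosNum, PosNum.cast_bit0, List.length_cons, pow_succ]; omega
      · rw [Computability.decodePosNum]
        split_ifs
        · simp
        · rw [PosNum.cast_bit1, List.length_cons, pow_succ]; omega
  have h2 : IsPolyTime (fun l : List Bool => ((Computability.decodePosNum l : PosNum) : ℕ)) :=
    list_rec₁ _ (fun b r s => bif b then (if r = [] then 1 else s + s + 1) else s + s)
      (fun b r => by
        cases b
        · rw [Computability.decodePosNum, PosNum.cast_bit0]; rfl
        · rw [Computability.decodePosNum]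
          split_ifs
          · simp
          · rw [PosNum.cast_bit1]; rfl) (by fun_prop)
      (PolyBdd.of_le (g := fun l : List Bool => l.length + 1) (by fun_prop)
        (fun l => bsize_nat_le_iff.2 (h1 l)))
  have h3 := h2.comp hl
  refine (IsPolyTime.ite (p := fun x => l x = []) (inst := fun _ => inferInstance) (by fun_prop)
    (const 0) h3).of_eq (fun x => ?_)
  unfold Computability.decodeNat Computability.decodeNum
  split_ifs <;> simp

/-! ### Finite sets -/

section finset

variable [LinearOrder β] [LinearOrder γ]

@[fun_prop]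
theorem finsetSort {s : α → Finset β} (hs : IsPolyTime s) :
    IsPolyTime (fun x => (s x).sort (· ≤ ·)) := hs.of_enc_eq (fun _ => rfl)

theorem of_sort {s : α → Finset β} (hs : IsPolyTime (fun x => (s x).sort (· ≤ ·))) :
    IsPolyTime s := hs.of_enc_eq (fun _ => rfl)

@[fun_prop]
theorem toFinset [PolyOrd β] {inst : DecidableEq β} {l : α → List β} (hl : IsPolyTime l) :
    IsPolyTime (fun x => @List.toFinset _ inst (l x)) :=
  of_sort (IsPolyTime.of_eq (f := fun x => (l x).dedup.mergeSort (fun a b => decide (a ≤ b)))
    (by fun_prop) (fun x => rfl))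

@[fun_prop]
theorem card {s : α → Finset β} (hs : IsPolyTime s) : IsPolyTime (fun x => (s x).card) :=
  hs.finsetSort.length.of_eq (fun x => Finset.length_sort _)

@[fun_prop]
theorem _root_.Pool.Agent.Shared.PolyTime.PolyBdd.card {s : α → Finset β} (hs : IsPolyTime s) :
    PolyBdd (fun x => (s x).card) :=
  (PolyBdd.length hs.finsetSort).of_le (fun x => (Finset.length_sort _).ge)

@[fun_prop]
theorem decide_mem_finset {a : α → β} {s : α → Finset β} {inst : ∀ x, Decidable (a x ∈ s x)}
    (ha : IsPolyTime a) (hs : IsPolyTime s) :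
    IsPolyTime (fun x => @decide (a x ∈ s x) (inst x)) :=
  (decide_mem (inst := fun _ => inferInstance) ha hs.finsetSort).decide_congr (fun _ => by simp)

@[fun_prop]
theorem decide_forall_mem_finset {p : α → β → Prop} {s : α → Finset β}
    {inst : ∀ x, Decidable (∀ b ∈ s x, p x b)} [∀ x b, Decidable (p x b)]
    (hp : IsPolyTime (fun y : α × β => decide (p y.1 y.2))) (hs : IsPolyTime s) :
    IsPolyTime (fun x => @decide (∀ b ∈ s x, p x b) (inst x)) :=
  (decide_forall_mem (inst := fun _ => inferInstance) hp hs.finsetSort).decide_congr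
    (fun _ => by simp)

@[fun_prop]
theorem decide_exists_mem_finset {p : α → β → Prop} {s : α → Finset β}
    {inst : ∀ x, Decidable (∃ b ∈ s x, p x b)} [∀ x b, Decidable (p x b)]
    (hp : IsPolyTime (fun y : α × β => decide (p y.1 y.2))) (hs : IsPolyTime s) :
    IsPolyTime (fun x => @decide (∃ b ∈ s x, p x b) (inst x)) :=
  (decide_exists_mem (inst := fun _ => inferInstance) hp hs.finsetSort).decide_congr
    (fun _ => by simp)

@[fun_prop]
theorem decide_subset_finset {s t : α → Finset β} {inst : ∀ x, Decidable (s x ⊆ t x)}
    (hs : IsPolyTime s) (ht : IsPolyTime t) : IsPolyTime (fun x => @decide (s x ⊆ t x) (inst x)) :=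
  decide_congr (p := fun x => ∀ b ∈ s x, b ∈ t x) (inst := fun _ => inferInstance)
    (by fun_prop) (fun _ => Iff.rfl)

@[fun_prop]
theorem decide_disjoint_finset {s t : α → Finset β} {inst : ∀ x, Decidable (Disjoint (s x) (t x))}
    (hs : IsPolyTime s) (ht : IsPolyTime t) :
    IsPolyTime (fun x => @decide (Disjoint (s x) (t x)) (inst x)) :=
  decide_congr (p := fun x => ∀ b ∈ s x, ¬ b ∈ t x) (inst := fun _ => inferInstance)
    (by fun_prop) (fun _ => Finset.disjoint_left.symm)

@[fun_prop]
theorem decide_nonempty_finset {s : α → Finset β} {inst : ∀ x, Decidable (s x).Nonempty}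
    (hs : IsPolyTime s) : IsPolyTime (fun x => @decide (s x).Nonempty (inst x)) :=
  decide_congr (p := fun x => 0 < (s x).card) (inst := fun _ => inferInstance)
    (by fun_prop) (fun _ => Finset.card_pos)

theorem of_toFinset_eq [PolyOrd β] {s : α → Finset β} {l : α → List β} (hl : IsPolyTime l)
    (h : ∀ x b, b ∈ s x ↔ b ∈ l x) : IsPolyTime s :=
  (toFinset (inst := inferInstance) hl).of_eq (fun x => by ext b; simp [h])

@[fun_prop]
theorem finsetFilter [PolyOrd β] {p : α → β → Prop} {inst : ∀ x, DecidablePred (p x)}
    {s : α → Finset β} (hp : IsPolyTime (fun y : α × β => @decide (p y.1 y.2) (inst y.1 y.2)))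
    (hs : IsPolyTime s) : IsPolyTime (fun x => @Finset.filter _ (p x) (inst x) (s x)) :=
  of_toFinset_eq (filter (f := fun x b => decide (p x b)) hp hs.finsetSort)
    (fun x b => by simp)

@[fun_prop]
theorem finsetImage [PolyOrd γ] {inst : DecidableEq γ} {f : α → β → γ} {s : α → Finset β}
    (hf : IsPolyTime (fun p : α × β => f p.1 p.2)) (hs : IsPolyTime s) :
    IsPolyTime (fun x => @Finset.image _ _ inst (f x) (s x)) :=
  of_toFinset_eq (map hf hs.finsetSort) (fun x b => by simp)

@[fun_prop]
theorem finsetBiUnion [PolyOrd γ] {inst : DecidableEq γ} {f : α → β → Finset γ}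
    {s : α → Finset β} (hf : IsPolyTime (fun p : α × β => f p.1 p.2)) (hs : IsPolyTime s) :
    IsPolyTime (fun x => @Finset.biUnion _ _ inst (s x) (f x)) :=
  of_toFinset_eq (flatMap (f := fun x b => (f x b).sort (· ≤ ·)) hf.finsetSort hs.finsetSort)
    (fun x b => by simp)

@[fun_prop]
theorem finsetUnion [PolyOrd β] {inst : DecidableEq β} {s t : α → Finset β} (hs : IsPolyTime s)
    (ht : IsPolyTime t) : IsPolyTime (fun x => @Union.union _ (@Finset.instUnion _ inst) (s x) (t x)) :=
  of_toFinset_eq (hs.finsetSort.append ht.finsetSort) (fun x b => by simp)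

@[fun_prop]
theorem finsetInter [PolyOrd β] {inst : DecidableEq β} {s t : α → Finset β} (hs : IsPolyTime s)
    (ht : IsPolyTime t) : IsPolyTime (fun x => @Inter.inter _ (@Finset.instInter _ inst) (s x) (t x)) :=
  of_toFinset_eq (l := fun x => ((s x).sort (· ≤ ·)).filter (fun b => decide (b ∈ t x)))
    (by fun_prop) (fun x b => by simp)

@[fun_prop]
theorem finsetSDiff [PolyOrd β] {inst : DecidableEq β} {s t : α → Finset β} (hs : IsPolyTime s)
    (ht : IsPolyTime t) : IsPolyTime (fun x => @SDiff.sdiff _ (@Finset.instSDiff _ inst) (s x) (t x)) :=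
  of_toFinset_eq (l := fun x => ((s x).sort (· ≤ ·)).filter (fun b => decide (¬ b ∈ t x)))
    (by fun_prop) (fun x b => by simp)

@[fun_prop]
theorem finsetInsert [PolyOrd β] {inst : DecidableEq β} {a : α → β} {s : α → Finset β}
    (ha : IsPolyTime a) (hs : IsPolyTime s) :
    IsPolyTime (fun x => @Insert.insert _ _ (@Finset.instInsert _ inst) (a x) (s x)) :=
  of_toFinset_eq (ha.cons hs.finsetSort) (fun x b => by simp)

@[fun_prop]
theorem finsetErase [PolyOrd β] {inst : DecidableEq β} {a : α → β} {s : α → Finset β}
    (hs : IsPolyTime s) (ha : IsPolyTime a) :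
    IsPolyTime (fun x => @Finset.erase _ inst (s x) (a x)) :=
  of_toFinset_eq (l := fun x => ((s x).sort (· ≤ ·)).filter (fun b => decide (b ≠ a x)))
    (by fun_prop) (fun x b => by simp [and_comm])

@[fun_prop]
theorem finsetSingleton {a : α → β} (ha : IsPolyTime a) :
    IsPolyTime (fun x => ({a x} : Finset β)) :=
  of_sort ((ha.cons (const [])).of_eq (fun x => by simp))

@[fun_prop]
theorem finsetRange {n : α → ℕ} (hn : IsPolyTime n) (hb : PolyBdd n) :
    IsPolyTime (fun x => Finset.range (n x)) :=
  of_sort ((range hn hb).of_eq (fun x => (Finset.sort_range _).symm))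

@[fun_prop]
theorem finsetIco {m n : α → ℕ} (hm : IsPolyTime m) (hn : IsPolyTime n) (hb : PolyBdd n) :
    IsPolyTime (fun x => Finset.Ico (m x) (n x)) :=
  of_toFinset_eq (l := fun x => (List.range (n x)).filter (fun b => decide (m x ≤ b)))
    (by fun_prop) (fun x b => by simp [and_comm])

@[fun_prop]
theorem finsetIcc {m n : α → ℕ} (hm : IsPolyTime m) (hn : IsPolyTime n) (hb : PolyBdd n) :
    IsPolyTime (fun x => Finset.Icc (m x) (n x)) :=
  of_toFinset_eq (l := fun x => (List.range (n x + 1)).filter (fun b => decide (m x ≤ b)))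
    (by fun_prop) (fun x b => by simp [and_comm])

omit [N487b59b3 β] [N487b59b3 γ] [LinearOrder γ] in
theorem sum_eq_sort [AddCommMonoid γ] (s : Finset β) (f : β → γ) :
    ∑ b ∈ s, f b = ((s.sort (· ≤ ·)).map f).sum := by
  rw [← Finset.sum_map_toList, ((Finset.sort_perm_toList s (· ≤ ·)).map f).sum_eq]

omit [N487b59b3 β] [N487b59b3 γ] [LinearOrder γ] in
theorem prod_eq_sort [CommMonoid γ] (s : Finset β) (f : β → γ) :
    ∏ b ∈ s, f b = ((s.sort (· ≤ ·)).map f).prod := by
  rw [← Finset.prod_map_toList, ((Finset.sort_perm_toList s (· ≤ ·)).map f).prod_eq]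

@[fun_prop]
theorem finsetSum_nat {f : α → β → ℕ} {s : α → Finset β}
    (hf : IsPolyTime (fun p : α × β => f p.1 p.2)) (hs : IsPolyTime s) :
    IsPolyTime (fun x => ∑ b ∈ s x, f x b) :=
  (map hf hs.finsetSort).nat_sum.of_eq (fun x => (sum_eq_sort _ _).symm)

@[fun_prop]
theorem finsetSum_int {f : α → β → ℤ} {s : α → Finset β}
    (hf : IsPolyTime (fun p : α × β => f p.1 p.2)) (hs : IsPolyTime s) :
    IsPolyTime (fun x => ∑ b ∈ s x, f x b) :=
  (map hf hs.finsetSort).int_sum.of_eq (fun x => (sum_eq_sort _ _).symm)

@[fun_prop]
theorem finsetSum_rat {f : α → β → ℚ} {s : α → Finset β}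
    (hf : IsPolyTime (fun p : α × β => f p.1 p.2)) (hs : IsPolyTime s) :
    IsPolyTime (fun x => ∑ b ∈ s x, f x b) :=
  (map hf hs.finsetSort).rat_sum.of_eq (fun x => (sum_eq_sort _ _).symm)

@[fun_prop]
theorem finsetProd_nat {f : α → β → ℕ} {s : α → Finset β}
    (hf : IsPolyTime (fun p : α × β => f p.1 p.2)) (hs : IsPolyTime s) :
    IsPolyTime (fun x => ∏ b ∈ s x, f x b) :=
  (map hf hs.finsetSort).nat_prod.of_eq (fun x => (prod_eq_sort _ _).symm)

@[fun_prop]
theorem finsetProd_int {f : α → β → ℤ} {s : α → Finset β}
    (hf : IsPolyTime (fun p : α × β => f p.1 p.2)) (hs : IsPolyTime s) :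
    IsPolyTime (fun x => ∏ b ∈ s x, f x b) :=
  (map hf hs.finsetSort).int_prod.of_eq (fun x => (prod_eq_sort _ _).symm)

@[fun_prop]
theorem finsetProd_rat {f : α → β → ℚ} {s : α → Finset β}
    (hf : IsPolyTime (fun p : α × β => f p.1 p.2)) (hs : IsPolyTime s) :
    IsPolyTime (fun x => ∏ b ∈ s x, f x b) :=
  (map hf hs.finsetSort).rat_prod.of_eq (fun x => (prod_eq_sort _ _).symm)

@[fun_prop]
theorem _root_.Pool.Agent.Shared.PolyTime.PolyBdd.finsetSum {f : α → β → ℕ} {s : α → Finset β}
    (hf : PolyBdd (fun p : α × β => f p.1 p.2)) (hs : IsPolyTime s) :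
    PolyBdd (fun x => ∑ b ∈ s x, f x b) :=
  (PolyBdd.sum_map hf hs.finsetSort).of_le (fun x => (sum_eq_sort _ _).le)

end finset

end N68a2faeb.IsPolyTime

namespace Pool.Agent.Shared.PolyTime

open N487b59b3 N68a2faeb

variable {α β γ : Type}

instance : PolyDecode ℕ := ⟨IsPolyTime.id'.decodeNat.some⟩

instance : PolyDecode Bool :=
  ⟨IsPolyTime.of_eq (f := fun l : List Bool => if l.length = 1 then l.head? else none)
    (by fun_prop) (fun l => by rcases l with _ | ⟨b, _ | ⟨c, l⟩⟩ <;> rfl)⟩

instance : PolyDecode Unit :=
  ⟨IsPolyTime.of_eq (f := fun l : List Bool => if l = [] then some () else none)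
    (by fun_prop) (fun l => by cases l <;> rfl)⟩

instance : PolyDecode Raw := ⟨IsPolyTime.id'.rawMk.some⟩

section

variable [N487b59b3 α] [N487b59b3 β]

instance [PolyDecode α] [PolyDecode β] : PolyDecode (α × β) :=
  ⟨IsPolyTime.of_eq (f := fun l : List Bool => (undelimit l).bind (fun p =>
    (bitDecode p.1 : Option α).bind (fun a => (bitDecode p.2 : Option β).map (fun b => (a, b)))))
    (by fun_prop) (fun l => by
      change _ = (match undelimit l with
        | none => none
        | some (block, rest) =>
          match (bitDecode block : Option α), (bitDecode rest : Option β) with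
          | some a, some b => some (a, b)
          | _, _ => none)
      rcases undelimit l with _ | ⟨u, v⟩
      · rfl
      · dsimp only [Option.bind_some]
        cases (bitDecode u : Option α) <;> cases (bitDecode v : Option β) <;> rfl)⟩

instance [PolyDecode α] : PolyDecode (List α) :=
  ⟨show IsPolyTime (fun l : List Bool => (undelimitBlocks l).bind
    (fun bs => bs.mapM (fun b => (bitDecode b : Option α)))) by fun_prop⟩

instance [PolyDecode α] [PolyDecode β] : PolyDecode (α ⊕ β) :=
  ⟨IsPolyTime.of_eq (f := fun l : List Bool => if l = [] then none else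
    bif l.headD false then (bitDecode l.tail : Option β).map Sum.inr
    else (bitDecode l.tail : Option α).map Sum.inl)
    (by fun_prop) (fun l => by rcases l with _ | ⟨_ | _, l⟩ <;> rfl)⟩

instance [PolyDecode α] : PolyDecode (Option α) :=
  ⟨IsPolyTime.of_eq (f := fun l : List Bool => (bitDecode l : Option (List α)).bind
    (fun r => if r.length ≤ 1 then some r.head? else none)) (by fun_prop) (fun l => by
      change _ = (bitDecode l : Option (List α)).bind _
      congr 1
      funext r
      rcases r with _ | ⟨b, _ | ⟨c, r⟩⟩ <;> rfl)⟩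

instance [h : PolyDecode α] : PolyDecode (Lex α) := h

instance [LinearOrder α] [PolyOrd α] [PolyDecode α] : PolyDecode (Finset α) :=
  ⟨show IsPolyTime (fun l : List Bool => (bitDecode l : Option (List α)).bind
    (fun r => some r.toFinset)) by fun_prop⟩

/-- A dependent conditional producing an element of a type whose code is the code of `f x`. -/
theorem _root_.N68a2faeb.IsPolyTime.dite_some [N487b59b3 γ] {p : α → Prop} [DecidablePred p]
    {f : α → β} {g : ∀ x, p x → γ} (hp : IsPolyTime (fun x => decide (p x))) (hf : IsPolyTime f)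
    (h : ∀ x hx, bitEncode (g x hx) = bitEncode (f x)) :
    IsPolyTime (fun x => if hx : p x then some (g x hx) else none) :=
  (IsPolyTime.ite hp hf.some (IsPolyTime.const none)).of_enc_eq (fun x => by
    by_cases hx : p x
    · simp only [hx, dif_pos, if_pos, enc_option, Option.toList_some, enc_cons, h, enc_nil]
    · simp only [hx, dif_neg, if_neg, not_false_eq_true]; rfl)

instance (n : ℕ) : PolyDecode (Fin n) :=
  ⟨IsPolyTime.optionBind (g := fun l => (bitDecode l : Option ℕ))
    (c := fun _ m => if h : m < n then some (⟨m, h⟩ : Fin n) else none) (by fun_prop)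
    (IsPolyTime.dite_some (f := fun p : List Bool × ℕ => p.2) (by fun_prop) (by fun_prop)
      (fun _ _ => rfl))⟩

instance (n : ℕ) [PolyDecode β] : PolyDecode (Fin n → β) :=
  ⟨IsPolyTime.optionBind (g := fun l => (bitDecode l : Option (List β)))
    (c := fun _ l => if h : l.length = n then some (fun i : Fin n => l.get (i.cast h.symm)) else none)
    (by fun_prop)
    (IsPolyTime.dite_some (f := fun p : List Bool × List β => p.2) (by fun_prop) (by fun_prop)
      (fun p h => by
        rw [enc_finFun]
        congr 1
        subst h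
        simp))⟩

/-- Decoding for a subtype with a polynomial-time predicate. -/
theorem polyDecode_ofSubtype [PolyDecode α] {p : α → Prop} [DecidablePred p]
    (hp : IsPolyTime (fun a => decide (p a))) : @PolyDecode (Subtype p) (ofSubtype (p := p)) := by
  let _ := ofSubtype (p := p)
  exact ⟨IsPolyTime.optionBind (g := fun l => (bitDecode l : Option α))
    (c := fun _ a => if h : p a then some (⟨a, h⟩ : Subtype p) else none) (by fun_prop)
    (IsPolyTime.dite_some (f := fun y : List Bool × α => y.2) (hp.comp (by fun_prop))
      (by fun_prop) (fun _ _ => rfl))⟩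

/-- Decoding for an encoding defined by `ofLeftInverse`. -/
theorem polyDecode_ofLeftInverse [PolyDecode β] (f : γ → β) (g : β → Option γ)
    (h : ∀ x, g (f x) = some x)
    (hg : letI := ofLeftInverse f g h; IsPolyTime g) : @PolyDecode γ (ofLeftInverse f g h) := by
  let _ := ofLeftInverse f g h
  exact ⟨IsPolyTime.optionBind (g := fun l => (bitDecode l : Option β)) (c := fun _ => g)
    (by fun_prop) (hg.comp (by fun_prop))⟩

end

instance : PolyDecode ℕ+ := polyDecode_ofSubtype (p := fun n : ℕ => 0 < n) (by fun_prop)

instance : PolyDecode ℤ :=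
  ⟨show IsPolyTime (fun l : List Bool => (bitDecode l : Option (ℕ × ℕ)).bind
    (fun p => some ((p.1 : ℤ) - (p.2 : ℤ)))) by fun_prop⟩

instance : PolyDecode ℚ :=
  ⟨show IsPolyTime (fun l : List Bool => (bitDecode l : Option (ℤ × ℕ)).bind
    (fun p => some ((p.1 : ℚ) / (p.2 : ℚ)))) by fun_prop⟩

@[fun_prop]
theorem _root_.N68a2faeb.IsPolyTime.pnatVal [N487b59b3 α] {f : α → ℕ+} (hf : IsPolyTime f) :
    IsPolyTime (fun x => (f x : ℕ)) := hf.of_enc_eq (fun _ => rfl)

end Pool.Agent.Shared.PolyTime
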