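import Pool.Agent.Shared.PolyTime.List

/-!
Integers, rationals, and linear orders with a polynomial-time comparison.
-/

set_option linter.unusedVariables false

namespace Pool.Agent.Shared.PolyTime

open N487b59b3 N68a2faeb

theorem bsize_int (z : ℤ) : bsize z = 2 * bsize z.toNat + 1 + bsize (-z).toNat :=
  bsize_pair z.toNat (-z).toNat

theorem bsize_int_le (z : ℤ) : bsize z ≤ 2 * bsize z.natAbs + 1 := by
  rw [bsize_int]
  rcases le_total 0 z with h | h
  · rw [show (-z).toNat = 0 by omega, show z.toNat = z.natAbs by omega]; simp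
  · rw [show (-z).toNat = z.natAbs by omega, show z.toNat = 0 by omega]; simp; omega

theorem bsize_natAbs_le (z : ℤ) : bsize z.natAbs ≤ bsize z := by
  rw [bsize_int]
  rcases le_total 0 z with h | h
  · rw [show z.toNat = z.natAbs by omega]; omega
  · rw [show (-z).toNat = z.natAbs by omega]; omega

/-- A size bound for an integer from a bound on its absolute value. -/
theorem bsize_int_le_of_natAbs_le {z : ℤ} {n : ℕ} (h : z.natAbs ≤ n) :
    bsize z ≤ 2 * bsize n + 1 :=
  (bsize_int_le z).trans (by have := bsize_nat_mono h; omega)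

theorem bsize_rat (q : ℚ) : bsize q = 2 * bsize q.num + 1 + bsize q.den := bsize_pair q.num q.den

/-- The larger of the binary lengths of numerator and denominator. -/
def qsize (q : ℚ) : ℕ := max (bsize q.num.natAbs) (bsize q.den)

theorem qsize_le_bsize (q : ℚ) : qsize q ≤ bsize q := by
  have := bsize_natAbs_le q.num
  rw [qsize, bsize_rat]; omega

theorem bsize_le_qsize (q : ℚ) : bsize q ≤ 5 * qsize q + 3 := by
  have := bsize_int_le q.num
  rw [qsize, bsize_rat]; omega

theorem qsize_mkRat_le (n : ℤ) (d : ℕ) : qsize (mkRat n d) ≤ max (bsize n.natAbs) (bsize d) + 1 := by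
  rw [qsize, Rat.num_mkRat, Rat.den_mkRat]
  split_ifs with h
  · simp
  · have h1 := bsize_nat_mono (Int.natAbs_ediv_le_natAbs n (d.gcd n.natAbs))
    have h2 := bsize_div_le d (d.gcd n.natAbs)
    omega

theorem qsize_add_le (a b : ℚ) : qsize (a + b) ≤ qsize a + qsize b + 2 := by
  rw [Rat.add_def']
  refine (qsize_mkRat_le _ _).trans ?_
  have h1 := bsize_nat_mono (Int.natAbs_add_le (a.num * b.den) (b.num * a.den))
  rw [Int.natAbs_mul, Int.natAbs_mul, Int.natAbs_natCast, Int.natAbs_natCast] at h1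
  have h2 := bsize_add_le (a.num.natAbs * b.den) (b.num.natAbs * a.den)
  have h3 := bsize_mul_le a.num.natAbs b.den
  have h4 := bsize_mul_le b.num.natAbs a.den
  have h5 := bsize_mul_le a.den b.den
  simp only [qsize]
  omega

theorem qsize_mul_le (a b : ℚ) : qsize (a * b) ≤ qsize a + qsize b + 1 := by
  rw [Rat.mul_def']
  refine (qsize_mkRat_le _ _).trans ?_
  rw [Int.natAbs_mul]
  have h3 := bsize_mul_le a.num.natAbs b.num.natAbs
  have h5 := bsize_mul_le a.den b.den
  simp only [qsize]
  omega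

theorem qsize_neg (a : ℚ) : qsize (-a) = qsize a := by simp [qsize]

theorem qsize_inv_le (a : ℚ) : qsize a⁻¹ ≤ qsize a := by
  rw [qsize, Rat.num_inv, Rat.den_inv, qsize]
  split_ifs with h
  · obtain rfl : a = 0 := Rat.zero_of_num_zero h
    simp
  · rw [Int.natAbs_mul, Int.natAbs_sign_of_ne_zero h, one_mul, Int.natAbs_natCast]
    omega

/-- Linear orders whose comparison is polynomial-time. -/
class PolyOrd (β : Type) [N487b59b3 β] [LinearOrder β] : Prop where
  le : IsPolyTime (fun p : β × β => decide (p.1 ≤ p.2))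

end Pool.Agent.Shared.PolyTime

namespace N68a2faeb.IsPolyTime

open Pool.Agent.Shared.PolyTime N487b59b3

variable {α β γ δ : Type} [N487b59b3 α] [N487b59b3 β] [N487b59b3 γ] [N487b59b3 δ]

/-! ### Integers -/

@[fun_prop]
theorem toNat_int {f : α → ℤ} (hf : IsPolyTime f) : IsPolyTime (fun x => (f x).toNat) :=
  (hf.of_enc_eq (g := fun x => ((f x).toNat, (-f x).toNat)) (fun _ => rfl)).fst

@[fun_prop]
theorem neg_int {f : α → ℤ} (hf : IsPolyTime f) : IsPolyTime (fun x => -f x) :=
  (hf.of_enc_eq (g := fun x => ((f x).toNat, (-f x).toNat)) (fun _ => rfl)).swap.of_enc_eq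
    (fun x => by rw [enc_int, neg_neg]; rfl)

theorem natCast_sub_natCast {f g : α → ℕ} (hf : IsPolyTime f) (hg : IsPolyTime g) :
    IsPolyTime (fun x => (f x : ℤ) - (g x : ℤ)) :=
  ((hf.sub hg).pair (hg.sub hf)).of_enc_eq (fun x => by
    rw [enc_int]
    congr 2 <;> omega)

@[fun_prop]
theorem natCast_int {f : α → ℕ} (hf : IsPolyTime f) : IsPolyTime (fun x => (f x : ℤ)) :=
  (natCast_sub_natCast hf (const 0)).of_eq (fun x => by simp)

@[fun_prop]
theorem ofNat_int {f : α → ℕ} (hf : IsPolyTime f) : IsPolyTime (fun x => Int.ofNat (f x)) :=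
  hf.natCast_int

@[fun_prop]
theorem negSucc {f : α → ℕ} (hf : IsPolyTime f) : IsPolyTime (fun x => Int.negSucc (f x)) :=
  hf.add_one.natCast_int.neg_int

@[fun_prop]
theorem natAbs {f : α → ℤ} (hf : IsPolyTime f) : IsPolyTime (fun x => (f x).natAbs) :=
  (hf.toNat_int.add hf.neg_int.toNat_int).of_eq (fun x => by omega)

@[fun_prop]
theorem add_int {f g : α → ℤ} (hf : IsPolyTime f) (hg : IsPolyTime g) :
    IsPolyTime (fun x => f x + g x) :=
  (natCast_sub_natCast (hf.toNat_int.add hg.toNat_int)
    (hf.neg_int.toNat_int.add hg.neg_int.toNat_int)).of_eq (fun x => by omega)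

@[fun_prop]
theorem sub_int {f g : α → ℤ} (hf : IsPolyTime f) (hg : IsPolyTime g) :
    IsPolyTime (fun x => f x - g x) :=
  (hf.add_int hg.neg_int).of_eq (fun x => (sub_eq_add_neg _ _).symm)

@[fun_prop]
theorem mul_int {f g : α → ℤ} (hf : IsPolyTime f) (hg : IsPolyTime g) :
    IsPolyTime (fun x => f x * g x) :=
  (natCast_sub_natCast
    ((hf.toNat_int.mul hg.toNat_int).add (hf.neg_int.toNat_int.mul hg.neg_int.toNat_int))
    ((hf.toNat_int.mul hg.neg_int.toNat_int).add (hf.neg_int.toNat_int.mul hg.toNat_int))).of_eq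
    (fun x => by
      conv_rhs => rw [← Int.toNat_sub_toNat_neg (f x), ← Int.toNat_sub_toNat_neg (g x)]
      push_cast
      ring)

@[fun_prop]
theorem decide_int_le {f g : α → ℤ} {inst : ∀ x, Decidable (f x ≤ g x)} (hf : IsPolyTime f)
    (hg : IsPolyTime g) : IsPolyTime (fun x => @decide (f x ≤ g x) (inst x)) :=
  (hf.sub_int hg).toNat_int.decide_eq_zero.decide_congr (fun _ => by omega)

@[fun_prop]
theorem decide_int_lt {f g : α → ℤ} {inst : ∀ x, Decidable (f x < g x)} (hf : IsPolyTime f)
    (hg : IsPolyTime g) : IsPolyTime (fun x => @decide (f x < g x) (inst x)) :=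
  (decide_int_le (inst := fun _ => inferInstance) (hf.add_int (const 1)) hg).decide_congr
    (fun _ => by omega)

@[fun_prop]
theorem abs_int {f : α → ℤ} (hf : IsPolyTime f) : IsPolyTime (fun x => |f x|) :=
  hf.natAbs.natCast_int.of_eq (fun x => Int.natCast_natAbs _)

@[fun_prop]
theorem sign_int {f : α → ℤ} (hf : IsPolyTime f) : IsPolyTime (fun x => (f x).sign) :=
  IsPolyTime.of_eq (f := fun x => if 0 < f x then (1 : ℤ) else if f x = 0 then 0 else -1)
    (by fun_prop) (fun x => by
      split_ifs with h1 h2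
      · exact (Int.sign_eq_one_of_pos h1).symm
      · simp [h2]
      · exact (Int.sign_eq_neg_one_of_neg (by omega)).symm)

@[fun_prop]
theorem div_int {f g : α → ℤ} (hf : IsPolyTime f) (hg : IsPolyTime g) :
    IsPolyTime (fun x => f x / g x) :=
  IsPolyTime.of_eq (f := fun x => if 0 ≤ f x then (g x).sign * (((f x).toNat / (g x).natAbs : ℕ) : ℤ)
    else -((g x).sign * ((((-f x).toNat - 1) / (g x).natAbs + 1 : ℕ) : ℤ))) (by fun_prop)
    (fun x => by
      generalize f x = a
      generalize g x = b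
      rcases a with m | m <;> rcases b with (_ | n) | n
      · simp
      · rw [if_pos (by simp)]
        exact one_mul _
      · rw [if_pos (by simp)]
        exact neg_one_mul _
      · simp
      · rw [if_neg (by simp)]
        exact congrArg Neg.neg (one_mul _)
      · rw [if_neg (by simp)]
        exact (congrArg Neg.neg (neg_one_mul _)).trans (neg_neg _))

@[fun_prop]
theorem mod_int {f g : α → ℤ} (hf : IsPolyTime f) (hg : IsPolyTime g) :
    IsPolyTime (fun x => f x % g x) :=
  (hf.sub_int (hg.mul_int (hf.div_int hg))).of_eq (fun _ => (Int.emod_def _ _).symm)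

@[fun_prop]
theorem gcd_int {f g : α → ℤ} (hf : IsPolyTime f) (hg : IsPolyTime g) :
    IsPolyTime (fun x => Int.gcd (f x) (g x)) := hf.natAbs.gcd hg.natAbs

@[fun_prop]
theorem decide_int_dvd {f g : α → ℤ} {inst : ∀ x, Decidable (f x ∣ g x)} (hf : IsPolyTime f)
    (hg : IsPolyTime g) : IsPolyTime (fun x => @decide (f x ∣ g x) (inst x)) :=
  (decide_nat_dvd (inst := fun _ => inferInstance) hf.natAbs hg.natAbs).decide_congr
    (fun _ => Int.natAbs_dvd_natAbs)

@[fun_prop]
theorem int_sum {l : α → List ℤ} (hl : IsPolyTime l) : IsPolyTime (fun x => (l x).sum) :=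
  IsPolyTime.of_eq (f := fun x => ((((l x).map Int.toNat).sum : ℕ) : ℤ) -
    ((((l x).map (fun z => (-z).toNat)).sum : ℕ) : ℤ)) (by fun_prop) (fun x => by
      induction l x with
      | nil => simp
      | cons a r ih => simp only [List.map_cons, List.sum_cons, ← ih]; omega)

@[fun_prop]
theorem int_prod {l : α → List ℤ} (hl : IsPolyTime l) : IsPolyTime (fun x => (l x).prod) := by
  refine (list_rec₁ List.prod (fun a _ s => a * s) (fun _ _ => List.prod_cons) (by fun_prop)
    (PolyBdd.of_le (g := fun l : List ℤ => 2 * bsize (l.map Int.natAbs).prod + 1) (by fun_prop)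
      fun l => bsize_int_le_of_natAbs_le (le_of_eq ?_))).comp hl
  induction l with
  | nil => rfl
  | cons a r ih => simp [Int.natAbs_mul, ih]

@[fun_prop]
theorem pow_int {f : α → ℤ} {k : α → ℕ} (hf : IsPolyTime f) (hk : IsPolyTime k) (hb : PolyBdd k) :
    IsPolyTime (fun x => f x ^ k x) :=
  (replicate hk hb hf).int_prod.of_eq (fun x => by simp)

/-! ### Rationals -/

@[fun_prop]
theorem num {f : α → ℚ} (hf : IsPolyTime f) : IsPolyTime (fun x => (f x).num) :=
  (hf.of_enc_eq (g := fun x => ((f x).num, (f x).den)) (fun _ => rfl)).fst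

@[fun_prop]
theorem den {f : α → ℚ} (hf : IsPolyTime f) : IsPolyTime (fun x => (f x).den) :=
  (hf.of_enc_eq (g := fun x => ((f x).num, (f x).den)) (fun _ => rfl)).snd

theorem of_num_den {f : α → ℚ} (h1 : IsPolyTime (fun x => (f x).num))
    (h2 : IsPolyTime (fun x => (f x).den)) : IsPolyTime f := (h1.pair h2).of_enc_eq (fun _ => rfl)

@[fun_prop]
protected theorem mkRat {n : α → ℤ} {d : α → ℕ} (hn : IsPolyTime n) (hd : IsPolyTime d) :
    IsPolyTime (fun x => mkRat (n x) (d x)) := by
  refine of_num_den ?_ ?_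
  · simp only [Rat.num_mkRat]; fun_prop
  · simp only [Rat.den_mkRat]; fun_prop

@[fun_prop]
theorem intCast_rat {f : α → ℤ} (hf : IsPolyTime f) : IsPolyTime (fun x => (f x : ℚ)) :=
  of_num_den hf (const 1)

@[fun_prop]
theorem natCast_rat {f : α → ℕ} (hf : IsPolyTime f) : IsPolyTime (fun x => (f x : ℚ)) :=
  of_num_den hf.natCast_int (const 1)

@[fun_prop]
theorem add_rat {f g : α → ℚ} (hf : IsPolyTime f) (hg : IsPolyTime g) :
    IsPolyTime (fun x => f x + g x) := by
  simp only [Rat.add_def']; fun_prop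

@[fun_prop]
theorem mul_rat {f g : α → ℚ} (hf : IsPolyTime f) (hg : IsPolyTime g) :
    IsPolyTime (fun x => f x * g x) := by
  simp only [Rat.mul_def']; fun_prop

@[fun_prop]
theorem neg_rat {f : α → ℚ} (hf : IsPolyTime f) : IsPolyTime (fun x => -f x) :=
  of_num_den hf.num.neg_int hf.den

@[fun_prop]
theorem sub_rat {f g : α → ℚ} (hf : IsPolyTime f) (hg : IsPolyTime g) :
    IsPolyTime (fun x => f x - g x) :=
  (hf.add_rat hg.neg_rat).of_eq (fun x => (sub_eq_add_neg _ _).symm)

@[fun_prop]
theorem inv_rat {f : α → ℚ} (hf : IsPolyTime f) : IsPolyTime (fun x => (f x)⁻¹) := by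
  refine of_num_den ?_ ?_
  · simp only [Rat.num_inv]; fun_prop
  · simp only [Rat.den_inv]; fun_prop

@[fun_prop]
theorem div_rat {f g : α → ℚ} (hf : IsPolyTime f) (hg : IsPolyTime g) :
    IsPolyTime (fun x => f x / g x) :=
  (hf.mul_rat hg.inv_rat).of_eq (fun x => (div_eq_mul_inv _ _).symm)

@[fun_prop]
theorem decide_rat_le {f g : α → ℚ} {inst : ∀ x, Decidable (f x ≤ g x)} (hf : IsPolyTime f)
    (hg : IsPolyTime g) : IsPolyTime (fun x => @decide (f x ≤ g x) (inst x)) :=
  decide_congr (p := fun x => (f x).num * (g x).den ≤ (g x).num * (f x).den)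
    (inst := fun _ => inferInstance) (by fun_prop) (fun _ => (Rat.le_iff _ _).symm)

@[fun_prop]
theorem decide_rat_lt {f g : α → ℚ} {inst : ∀ x, Decidable (f x < g x)} (hf : IsPolyTime f)
    (hg : IsPolyTime g) : IsPolyTime (fun x => @decide (f x < g x) (inst x)) :=
  decide_congr (p := fun x => (f x).num * (g x).den < (g x).num * (f x).den)
    (inst := fun _ => inferInstance) (by fun_prop) (fun _ => (Rat.lt_iff _ _).symm)

@[fun_prop]
theorem abs_rat {f : α → ℚ} (hf : IsPolyTime f) : IsPolyTime (fun x => |f x|) :=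
  IsPolyTime.of_eq (f := fun x => if 0 ≤ f x then f x else -f x) (by fun_prop) (fun x => by
    split_ifs with h
    · exact (abs_of_nonneg h).symm
    · exact (abs_of_neg (not_le.1 h)).symm)

@[fun_prop]
theorem floor_rat {f : α → ℚ} (hf : IsPolyTime f) : IsPolyTime (fun x => ⌊f x⌋) := by
  simp only [Rat.floor_def']; fun_prop

@[fun_prop]
theorem ceil_rat {f : α → ℚ} (hf : IsPolyTime f) : IsPolyTime (fun x => ⌈f x⌉) := by
  simp only [Rat.ceil_def']; fun_prop

@[fun_prop]
theorem natFloor_rat {f : α → ℚ} (hf : IsPolyTime f) : IsPolyTime (fun x => ⌊f x⌋₊) :=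
  hf.floor_rat.toNat_int.of_eq (fun x => Int.floor_toNat _)

@[fun_prop]
theorem natCeil_rat {f : α → ℚ} (hf : IsPolyTime f) : IsPolyTime (fun x => ⌈f x⌉₊) :=
  hf.ceil_rat.toNat_int.of_eq (fun x => Int.ceil_toNat _)

theorem qsize_sum_le (l : List ℚ) : qsize l.sum ≤ bsize l + 1 := by
  induction l with
  | nil => simp [qsize]
  | cons a l ih =>
    have h1 := qsize_add_le a l.sum
    have h2 := qsize_le_bsize a
    have h3 := bsize_rat a
    simp only [List.sum_cons, bsize_cons]
    omega

theorem qsize_prod_le (l : List ℚ) : qsize l.prod ≤ bsize l + 1 := by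
  induction l with
  | nil => simp [qsize]
  | cons a l ih =>
    have h1 := qsize_mul_le a l.prod
    have h2 := qsize_le_bsize a
    simp only [List.prod_cons, bsize_cons]
    omega

@[fun_prop]
theorem rat_sum {l : α → List ℚ} (hl : IsPolyTime l) : IsPolyTime (fun x => (l x).sum) :=
  (list_rec₁ List.sum (fun a _ s => a + s) (fun _ _ => List.sum_cons) (by fun_prop)
    (PolyBdd.of_le (g := fun l : List ℚ => 5 * (bsize l + 1) + 3) (by fun_prop) (fun l => by
      have := qsize_sum_le l; have := bsize_le_qsize l.sum; omega))).comp hl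

@[fun_prop]
theorem rat_prod {l : α → List ℚ} (hl : IsPolyTime l) : IsPolyTime (fun x => (l x).prod) :=
  (list_rec₁ List.prod (fun a _ s => a * s) (fun _ _ => List.prod_cons) (by fun_prop)
    (PolyBdd.of_le (g := fun l : List ℚ => 5 * (bsize l + 1) + 3) (by fun_prop) (fun l => by
      have := qsize_prod_le l; have := bsize_le_qsize l.prod; omega))).comp hl

@[fun_prop]
theorem pow_rat {f : α → ℚ} {k : α → ℕ} (hf : IsPolyTime f) (hk : IsPolyTime k) (hb : PolyBdd k) :
    IsPolyTime (fun x => f x ^ k x) :=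
  (replicate hk hb hf).rat_prod.of_eq (fun x => by simp)

/-! ### Linear orders -/

section order

variable [LinearOrder β] [PolyOrd β]

@[fun_prop]
theorem decide_le {f g : α → β} {inst : ∀ x, Decidable (f x ≤ g x)} (hf : IsPolyTime f)
    (hg : IsPolyTime g) : IsPolyTime (fun x => @decide (f x ≤ g x) (inst x)) :=
  (PolyOrd.le.comp (hf.pair hg)).decide_congr (fun _ => Iff.rfl)

@[fun_prop]
theorem decide_lt {f g : α → β} {inst : ∀ x, Decidable (f x < g x)} (hf : IsPolyTime f)
    (hg : IsPolyTime g) : IsPolyTime (fun x => @decide (f x < g x) (inst x)) :=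
  (PolyOrd.le.comp (hg.pair hf)).not.of_eq (fun x => by rw [Bool.eq_iff_iff]; simp)

@[fun_prop]
protected theorem min {f g : α → β} (hf : IsPolyTime f) (hg : IsPolyTime g) :
    IsPolyTime (fun x => min (f x) (g x)) :=
  IsPolyTime.of_eq (f := fun x => if f x ≤ g x then f x else g x) (by fun_prop)
    (fun _ => (min_def _ _).symm)

@[fun_prop]
protected theorem max {f g : α → β} (hf : IsPolyTime f) (hg : IsPolyTime g) :
    IsPolyTime (fun x => max (f x) (g x)) :=
  IsPolyTime.of_eq (f := fun x => if f x ≤ g x then g x else f x) (by fun_prop)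
    (fun _ => (max_def _ _).symm)

@[fun_prop]
theorem mergeSort_le {l : α → List β} {inst : ∀ a b : β, Decidable (a ≤ b)} (hl : IsPolyTime l) :
    IsPolyTime (fun x => (l x).mergeSort (fun a b => @decide (a ≤ b) (inst a b))) :=
  (insertionSort (R := fun _ (a b : β) => a ≤ b) (inst := fun _ => inst) (by fun_prop) hl).of_eq
    (fun x => (@List.mergeSort_eq_insertionSort _ (· ≤ ·) inst _ _ _ _).symm)

omit [LinearOrder β] [PolyOrd β] in
theorem foldr_choice {f : β → β → β} (hf : IsPolyTime (fun p : β × β => f p.1 p.2))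
    (h : ∀ a b, f a b = a ∨ f a b = b) {l : α → List β} {a : α → β} (hl : IsPolyTime l)
    (ha : IsPolyTime a) : IsPolyTime (fun x => (l x).foldr f (a x)) :=
  foldr_inv (f := fun _ => f) (by fun_prop) ha hl (fun x s => s = a x ∨ s ∈ l x)
    (fun _ => Or.inl rfl) (fun x s b hb hs => by
      rcases h b s with h | h <;> rw [h]
      exacts [Or.inr hb, hs])
    (fun x => bsize (a x) + bsize (l x)) (by fun_prop) (fun x s hs => by
      rcases hs with rfl | hs
      · omega
      · have := bsize_le_of_mem hs; omega)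

@[fun_prop]
theorem foldr_max' {l : α → List β} {a : α → β} (hl : IsPolyTime l) (ha : IsPolyTime a) :
    IsPolyTime (fun x => (l x).foldr max (a x)) := foldr_choice (by fun_prop) max_choice hl ha

@[fun_prop]
theorem foldr_min' {l : α → List β} {a : α → β} (hl : IsPolyTime l) (ha : IsPolyTime a) :
    IsPolyTime (fun x => (l x).foldr min (a x)) := foldr_choice (by fun_prop) min_choice hl ha

@[fun_prop]
theorem foldl_max' {l : α → List β} {a : α → β} (hl : IsPolyTime l) (ha : IsPolyTime a) :
    IsPolyTime (fun x => (l x).foldl max (a x)) :=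
  (foldr_choice (f := fun a b => max b a) (by fun_prop) (fun a b => (max_choice b a).symm)
    hl.reverse ha).of_eq (fun x => by rw [List.foldr_reverse])

@[fun_prop]
theorem foldl_min' {l : α → List β} {a : α → β} (hl : IsPolyTime l) (ha : IsPolyTime a) :
    IsPolyTime (fun x => (l x).foldl min (a x)) :=
  (foldr_choice (f := fun a b => min b a) (by fun_prop) (fun a b => (min_choice b a).symm)
    hl.reverse ha).of_eq (fun x => by rw [List.foldr_reverse])

@[fun_prop]
theorem max? {l : α → List β} (hl : IsPolyTime l) : IsPolyTime (fun x => (l x).max?) :=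
  (listCases (c := fun _ a r => some (r.foldl max a)) hl (const none) (by fun_prop)).of_eq
    (fun x => by cases l x <;> rfl)

@[fun_prop]
theorem min? {l : α → List β} (hl : IsPolyTime l) : IsPolyTime (fun x => (l x).min?) :=
  (listCases (c := fun _ a r => some (r.foldl min a)) hl (const none) (by fun_prop)).of_eq
    (fun x => by cases l x <;> rfl)

end order

end N68a2faeb.IsPolyTime

namespace Pool.Agent.Shared.PolyTime

open N487b59b3 N68a2faeb

instance : PolyOrd ℕ := ⟨by fun_prop⟩
instance : PolyOrd ℤ := ⟨by fun_prop⟩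
instance : PolyOrd ℚ := ⟨by fun_prop⟩
instance : PolyOrd Bool := ⟨IsPolyTime.of_finite _⟩
instance (n : ℕ) : PolyOrd (Fin n) := ⟨IsPolyTime.of_finite _⟩

/-- `Lex α` is encoded as `α`. -/
instance encLex {α : Type} [h : N487b59b3 α] : N487b59b3 (Lex α) := h

variable {α β γ : Type} [N487b59b3 α] [N487b59b3 β] [N487b59b3 γ]

@[fun_prop]
theorem _root_.N68a2faeb.IsPolyTime.toLex {f : α → β} (hf : IsPolyTime f) :
    IsPolyTime (fun x => toLex (f x)) := hf

@[fun_prop]
theorem _root_.N68a2faeb.IsPolyTime.ofLex {f : α → Lex β} (hf : IsPolyTime f) :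
    IsPolyTime (fun x => ofLex (f x)) := hf

instance [LinearOrder β] [PolyOrd β] [LinearOrder γ] [PolyOrd γ] : PolyOrd (β ×ₗ γ) :=
  ⟨IsPolyTime.decide_congr (p := fun p : (β ×ₗ γ) × (β ×ₗ γ) => (ofLex p.1).1 < (ofLex p.2).1 ∨
    ((ofLex p.1).1 = (ofLex p.2).1 ∧ (ofLex p.1).2 ≤ (ofLex p.2).2))
    (inst := fun _ => inferInstance) (by fun_prop) (fun p => Prod.Lex.le_iff.symm)⟩

@[fun_prop]
theorem PolyBdd.natAbs_natCast {g : α → ℕ} (hg : PolyBdd g) :
    PolyBdd (fun x => ((g x : ℤ)).natAbs) := hg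

end Pool.Agent.Shared.PolyTime
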