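import Pool.Agent.Shared.PolyTime.Bridge

/-!
Closure properties of `IsPolyTime`: composition, pairs, Booleans, conditionals, finite types,
basic list operations, bounded iteration.  `fun_prop` is set up for `IsPolyTime` and `PolyBdd`.
-/

namespace Pool.Agent.Shared.PolyTime

open N487b59b3

/-- The value `g x` is bounded by a polynomial in the length of the code of `x`. -/
@[fun_prop]
def PolyBdd {α : Type} [N487b59b3 α] (g : α → ℕ) : Prop :=
  ∃ p : Polynomial ℕ, ∀ x, g x ≤ p.eval (bsize x)

end Pool.Agent.Shared.PolyTime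

attribute [fun_prop] N68a2faeb.IsPolyTime

namespace Pool.Agent.Shared.PolyTime.PolyBdd

open N487b59b3 N68a2faeb

variable {α β γ : Type} [N487b59b3 α] [N487b59b3 β] [N487b59b3 γ] {g h : α → ℕ}

theorem bdd (hg : PolyBdd g) : Bdd (fun x : α => N487b59b3.bitEncode x |>.length) g := hg

theorem of_le (hg : PolyBdd g) (hle : ∀ x, h x ≤ g x) : PolyBdd h := Bdd.mono hg hle

@[fun_prop]
theorem const (c : ℕ) : PolyBdd (fun _ : α => c) := Bdd.const _ c

@[fun_prop]
protected theorem bsize {f : α → β} (hf : IsPolyTime f) : PolyBdd (fun x => bsize (f x)) :=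
  (isPolyTime_iff_pt.1 hf).bdd

@[fun_prop]
theorem comp {g : β → ℕ} {f : α → β} (hg : PolyBdd g) (hf : IsPolyTime f) :
    PolyBdd (fun x => g (f x)) := Bdd.trans (PolyBdd.bsize hf) (Bdd.ghost hg f)

@[fun_prop]
theorem add (hg : PolyBdd g) (hh : PolyBdd h) : PolyBdd (fun x => g x + h x) := Bdd.add hg hh

@[fun_prop]
theorem succ (hg : PolyBdd g) : PolyBdd (fun x => (g x).succ) := hg.add (const 1)

@[fun_prop]
theorem mul (hg : PolyBdd g) (hh : PolyBdd h) : PolyBdd (fun x => g x * h x) := Bdd.mul hg hh

@[fun_prop]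
theorem pow (hg : PolyBdd g) (k : ℕ) : PolyBdd (fun x => g x ^ k) := Bdd.pow hg k

@[fun_prop]
theorem eval (hg : PolyBdd g) (p : Polynomial ℕ) : PolyBdd (fun x => p.eval (g x)) := Bdd.eval hg p

@[fun_prop]
theorem sub (hg : PolyBdd g) (h : α → ℕ) : PolyBdd (fun x => g x - h x) :=
  hg.of_le (fun _ => Nat.sub_le _ _)

@[fun_prop]
theorem pred (hg : PolyBdd g) : PolyBdd (fun x => (g x).pred) := hg.of_le (fun _ => Nat.pred_le _)

@[fun_prop]
theorem div (hg : PolyBdd g) (h : α → ℕ) : PolyBdd (fun x => g x / h x) :=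
  hg.of_le (fun _ => Nat.div_le_self _ _)

@[fun_prop]
theorem mod (hg : PolyBdd g) (h : α → ℕ) : PolyBdd (fun x => g x % h x) :=
  hg.of_le (fun _ => Nat.mod_le _ _)

@[fun_prop]
theorem min_left (hg : PolyBdd g) (h : α → ℕ) : PolyBdd (fun x => min (g x) (h x)) :=
  hg.of_le (fun _ => Nat.min_le_left _ _)

@[fun_prop]
theorem min_right (g : α → ℕ) (hh : PolyBdd h) : PolyBdd (fun x => min (g x) (h x)) :=
  hh.of_le (fun _ => Nat.min_le_right _ _)

@[fun_prop]
protected theorem max (hg : PolyBdd g) (hh : PolyBdd h) : PolyBdd (fun x => max (g x) (h x)) :=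
  (hg.add hh).of_le (fun _ => by omega)

@[fun_prop]
protected theorem ite {p : α → Prop} {inst : ∀ x, Decidable (p x)} (hg : PolyBdd g) (hh : PolyBdd h) :
    PolyBdd (fun x => @ite _ (p x) (inst x) (g x) (h x)) :=
  (hg.add hh).of_le (fun _ => by split <;> omega)

@[fun_prop]
protected theorem cond {c : α → Bool} (hg : PolyBdd g) (hh : PolyBdd h) :
    PolyBdd (fun x => bif c x then g x else h x) :=
  (hg.add hh).of_le (fun x => by cases c x <;> simp)

@[fun_prop]
theorem length {l : α → List β} (hl : IsPolyTime l) : PolyBdd (fun x => (l x).length) :=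
  (PolyBdd.bsize hl).of_le (fun _ => length_le_bsize _)

@[fun_prop]
theorem size {n : α → ℕ} (hn : IsPolyTime n) : PolyBdd (fun x => (n x).size) :=
  (PolyBdd.bsize hn).of_le (fun _ => (bsize_nat _).ge)

@[fun_prop]
theorem log2 {n : α → ℕ} (hn : IsPolyTime n) : PolyBdd (fun x => (n x).log2) :=
  (PolyBdd.bsize hn).of_le (fun x => by
    rcases Nat.eq_zero_or_pos (n x) with h | h
    · simp [h]
    · exact ((Nat.log2_lt h.ne').2 (lt_two_pow_bsize _)).le)

@[fun_prop]
theorem toNat_bool (c : α → Bool) : PolyBdd (fun x => (c x).toNat) :=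
  (const 1).of_le (fun _ => Bool.toNat_le _)

@[fun_prop]
theorem fin_val {n : ℕ} (c : α → Fin n) : PolyBdd (fun x => (c x).val) :=
  (const n).of_le (fun x => (c x).2.le)

theorem of_finite_range {σ : Type} [Finite σ] (μ : σ → ℕ) (c : α → σ) :
    PolyBdd (fun x => μ (c x)) := by
  obtain ⟨m, hm⟩ : ∃ m, ∀ s, μ s ≤ m :=
    (Set.finite_range μ).bddAbove.imp fun n hn x => hn ⟨x, rfl⟩
  exact (const m).of_le (fun _ => hm _)

@[fun_prop]
theorem sum_map {f : α → β → ℕ} {l : α → List β}
    (hf : PolyBdd (fun p : α × β => f p.1 p.2)) (hl : IsPolyTime l) :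
    PolyBdd (fun x => ((l x).map (f x)).sum) := by
  obtain ⟨p, hp⟩ := hf
  have h1 : PolyBdd (fun x => (l x).length * p.eval (2 * bsize x + 1 + bsize (l x))) :=
    (length hl).mul (((((const 2).mul (Bdd.refl _)).add (const 1)).add (PolyBdd.bsize hl)).eval p)
  refine h1.of_le fun x => ?_
  refine (List.sum_le_card_nsmul _ (p.eval (2 * bsize x + 1 + bsize (l x))) ?_).trans ?_
  · intro m hm
    obtain ⟨b, hb, rfl⟩ := List.mem_map.1 hm
    refine (hp (x, b)).trans (eval_mono p ?_)
    have := bsize_le_of_mem hb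
    rw [bsize_pair]
    omega
  · simp

end Pool.Agent.Shared.PolyTime.PolyBdd

namespace N68a2faeb.IsPolyTime

open Pool.Agent.Shared.PolyTime N487b59b3

variable {α β γ δ : Type} [N487b59b3 α] [N487b59b3 β] [N487b59b3 γ] [N487b59b3 δ]

theorem pt {f : α → β} (h : IsPolyTime f) : PT f := isPolyTime_iff_pt.1 h

theorem of_pt {f : α → β} (h : PT f) : IsPolyTime f := isPolyTime_iff_pt.2 h

theorem of_comp {f : α → β} (h : Comp bitEncode (fun x => bitEncode (f x))) : IsPolyTime f :=
  isPolyTime_iff_pt.2 h

@[fun_prop]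
theorem id' : IsPolyTime (fun x : α => x) := of_pt PT.id'

@[fun_prop]
theorem const (b : β) : IsPolyTime (fun _ : α => b) := of_pt (PT.const b)

@[fun_prop]
theorem comp {f : β → γ} {g : α → β} (hf : IsPolyTime f) (hg : IsPolyTime g) :
    IsPolyTime (fun x => f (g x)) := of_pt (hf.pt.comp hg.pt)

theorem comp' {f : β → γ} {g : α → β} (hf : IsPolyTime f) (hg : IsPolyTime g) :
    IsPolyTime (f ∘ g) := hf.comp hg

theorem of_eq {f g : α → β} (hf : IsPolyTime f) (h : ∀ x, f x = g x) : IsPolyTime g := by
  obtain rfl : f = g := funext h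
  exact hf

/-- Only the codes of the values matter. -/
theorem of_enc_eq {f : α → β} {g : α → γ} (hf : IsPolyTime f)
    (h : ∀ x, bitEncode (g x) = bitEncode (f x)) : IsPolyTime g :=
  of_comp (Comp.congr hf.pt h)

/-- Only the codes of the arguments matter. -/
theorem of_enc_arg {f : β → γ} (hf : IsPolyTime f) (φ : α → β)
    (h : ∀ x, bitEncode (φ x) = bitEncode x) : IsPolyTime (fun x => f (φ x)) :=
  hf.comp (id'.of_enc_eq h)

@[fun_prop]
theorem pair {f : α → β} {g : α → γ} (hf : IsPolyTime f) (hg : IsPolyTime g) :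
    IsPolyTime (fun x => (f x, g x)) := of_pt (hf.pt.pair hg.pt)

@[fun_prop]
theorem fst {f : α → β × γ} (hf : IsPolyTime f) : IsPolyTime (fun x => (f x).1) := of_pt hf.pt.fst

@[fun_prop]
theorem snd {f : α → β × γ} (hf : IsPolyTime f) : IsPolyTime (fun x => (f x).2) := of_pt hf.pt.snd

/-- A function of two arguments, applied to two polynomial-time functions. -/
theorem comp₂ {f : β → γ → δ} {g : α → β} {h : α → γ}
    (hf : IsPolyTime (fun p : β × γ => f p.1 p.2)) (hg : IsPolyTime g) (hh : IsPolyTime h) :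
    IsPolyTime (fun x => f (g x) (h x)) := hf.comp (hg.pair hh)

theorem of_finite [Finite α] (f : α → β) : IsPolyTime f := of_pt (PT.of_finite f)

theorem finCases {ι : Type} [N487b59b3 ι] [Finite ι] {c : α → ι} {f : ι → α → β}
    (hc : IsPolyTime c) (hf : ∀ i, IsPolyTime (f i)) : IsPolyTime (fun x => f (c x) x) :=
  of_pt (PT.finCases hc.pt (fun i => (hf i).pt))

@[fun_prop]
protected theorem cond {c : α → Bool} {f g : α → β} (hc : IsPolyTime c) (hf : IsPolyTime f)
    (hg : IsPolyTime g) : IsPolyTime (fun x => bif c x then f x else g x) :=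
  of_pt (hc.pt.cond hf.pt hg.pt)

@[fun_prop]
protected theorem ite {p : α → Prop} {inst : ∀ x, Decidable (p x)} {f g : α → β}
    (hc : IsPolyTime (fun x => @decide (p x) (inst x))) (hf : IsPolyTime f) (hg : IsPolyTime g) :
    IsPolyTime (fun x => @ite _ (p x) (inst x) (f x) (g x)) :=
  (hc.cond hf hg).of_eq (fun x => by by_cases h : p x <;> simp [h])

@[fun_prop]
protected theorem not {f : α → Bool} (hf : IsPolyTime f) : IsPolyTime (fun x => !f x) :=
  (of_finite _).comp hf

@[fun_prop]
protected theorem and {f g : α → Bool} (hf : IsPolyTime f) (hg : IsPolyTime g) :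
    IsPolyTime (fun x => f x && g x) := comp₂ (of_finite _) hf hg

@[fun_prop]
protected theorem or {f g : α → Bool} (hf : IsPolyTime f) (hg : IsPolyTime g) :
    IsPolyTime (fun x => f x || g x) := comp₂ (of_finite _) hf hg

@[fun_prop]
protected theorem xor {f g : α → Bool} (hf : IsPolyTime f) (hg : IsPolyTime g) :
    IsPolyTime (fun x => Bool.xor (f x) (g x)) := comp₂ (of_finite _) hf hg

@[fun_prop]
theorem decide_not {p : α → Prop} {inst : ∀ x, Decidable (¬ p x)} [DecidablePred p]
    (hp : IsPolyTime (fun x => decide (p x))) : IsPolyTime (fun x => @decide (¬ p x) (inst x)) :=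
  hp.not.of_eq (fun x => by simp)

@[fun_prop]
theorem decide_and {p q : α → Prop} {inst : ∀ x, Decidable (p x ∧ q x)} [DecidablePred p]
    [DecidablePred q] (hp : IsPolyTime (fun x => decide (p x)))
    (hq : IsPolyTime (fun x => decide (q x))) :
    IsPolyTime (fun x => @decide (p x ∧ q x) (inst x)) :=
  (hp.and hq).of_eq (fun x => by simp)

@[fun_prop]
theorem decide_or {p q : α → Prop} {inst : ∀ x, Decidable (p x ∨ q x)} [DecidablePred p]
    [DecidablePred q] (hp : IsPolyTime (fun x => decide (p x)))
    (hq : IsPolyTime (fun x => decide (q x))) :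
    IsPolyTime (fun x => @decide (p x ∨ q x) (inst x)) :=
  (hp.or hq).of_eq (fun x => by simp)

@[fun_prop]
theorem decide_eq_true {f : α → Bool} {inst : ∀ x, Decidable (f x = true)}
    (hf : IsPolyTime f) : IsPolyTime (fun x => @decide (f x = true) (inst x)) :=
  hf.of_eq (fun x => by simp)

@[fun_prop]
theorem cons {f : α → β} {g : α → List β} (hf : IsPolyTime f) (hg : IsPolyTime g) :
    IsPolyTime (fun x => f x :: g x) := of_pt (hf.pt.cons hg.pt)

@[fun_prop]
theorem append {f g : α → List β} (hf : IsPolyTime f) (hg : IsPolyTime g) :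
    IsPolyTime (fun x => f x ++ g x) :=
  of_comp ((Comp.append hf.pt hg.pt).congr (fun _ => enc_append _ _))

@[fun_prop]
theorem flatMap {f : α → β → List γ} {l : α → List β}
    (hf : IsPolyTime (fun p : α × β => f p.1 p.2)) (hl : IsPolyTime l) :
    IsPolyTime (fun x => (l x).flatMap (f x)) :=
  of_comp ((Comp.flatMap_list (u := fun x b => bitEncode (f x b)) hf.pt hl.pt).congr (fun x => by
    induction l x with
    | nil => rfl
    | cons b r ih => rw [List.flatMap_cons, enc_append, ih, List.flatMap_cons]))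

@[fun_prop]
theorem map {f : α → β → γ} {l : α → List β}
    (hf : IsPolyTime (fun p : α × β => f p.1 p.2)) (hl : IsPolyTime l) :
    IsPolyTime (fun x => (l x).map (f x)) :=
  (flatMap (f := fun x b => [f x b]) (by fun_prop) hl).of_eq
    (fun x => by rw [List.map_eq_flatMap])

@[fun_prop]
theorem filter {f : α → β → Bool} {l : α → List β}
    (hf : IsPolyTime (fun p : α × β => f p.1 p.2)) (hl : IsPolyTime l) :
    IsPolyTime (fun x => (l x).filter (f x)) :=
  (flatMap (f := fun x b => bif f x b then [b] else []) (by fun_prop) hl).of_eq (fun x => by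
    induction l x with
    | nil => rfl
    | cons b r ih => cases h : f x b <;> simp [ih, h])

@[fun_prop]
theorem decide_const {p : Prop} {inst : α → Decidable p} :
    IsPolyTime (fun x => @decide p (inst x)) := by
  classical
  exact (const (decide p)).of_eq (fun x => by congr)

@[fun_prop]
theorem decide_imp {p q : α → Prop} {inst : ∀ x, Decidable (p x → q x)} [DecidablePred p]
    [DecidablePred q] (hp : IsPolyTime (fun x => decide (p x)))
    (hq : IsPolyTime (fun x => decide (q x))) :
    IsPolyTime (fun x => @decide (p x → q x) (inst x)) :=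
  (hp.not.or hq).of_eq (fun x => by by_cases h : p x <;> simp [h])

@[fun_prop]
theorem decide_iff {p q : α → Prop} {inst : ∀ x, Decidable (p x ↔ q x)} [DecidablePred p]
    [DecidablePred q] (hp : IsPolyTime (fun x => decide (p x)))
    (hq : IsPolyTime (fun x => decide (q x))) :
    IsPolyTime (fun x => @decide (p x ↔ q x) (inst x)) :=
  (hp.xor hq).not.of_eq (fun x => by by_cases h : p x <;> by_cases h' : q x <;> simp [h, h'])

/-- Changing the predicate by an equivalence, or the decidability instance. -/
theorem decide_congr {p q : α → Prop} {inst : ∀ x, Decidable (p x)} {inst' : ∀ x, Decidable (q x)}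
    (hp : IsPolyTime (fun x => @decide (p x) (inst x))) (h : ∀ x, p x ↔ q x) :
    IsPolyTime (fun x => @decide (q x) (inst' x)) :=
  hp.of_eq (fun x => by simp [h x])

@[fun_prop]
theorem toNat_bool {f : α → Bool} (hf : IsPolyTime f) : IsPolyTime (fun x => (f x).toNat) :=
  (of_finite _).comp hf

@[fun_prop]
theorem tail {g : α → List β} (hg : IsPolyTime g) : IsPolyTime (fun x => (g x).tail) :=
  of_pt hg.pt.tail

@[fun_prop]
theorem isEmpty {g : α → List β} (hg : IsPolyTime g) : IsPolyTime (fun x => (g x).isEmpty) :=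
  of_pt hg.pt.isEmpty

@[fun_prop]
theorem headD {g : α → List β} {d : α → β} (hg : IsPolyTime g) (hd : IsPolyTime d) :
    IsPolyTime (fun x => (g x).headD (d x)) := of_pt (hg.pt.headD hd.pt)

@[fun_prop]
theorem listCases {g : α → List β} {n : α → γ} {c : α → β → List β → γ} (hg : IsPolyTime g)
    (hn : IsPolyTime n) (hc : IsPolyTime (fun p : α × β × List β => c p.1 p.2.1 p.2.2)) :
    IsPolyTime (fun x => (List.casesOn (motive := fun _ => γ) (g x) (n x) (c x))) :=
  of_pt (PT.listCases hg.pt hn.pt hc.pt)

@[fun_prop]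
theorem boolCases {c : α → Bool} {f g : α → β} (hc : IsPolyTime c) (hf : IsPolyTime f)
    (hg : IsPolyTime g) :
    IsPolyTime (fun x => (Bool.casesOn (motive := fun _ => β) (c x) (f x) (g x))) :=
  (hc.cond hg hf).of_eq (fun x => by cases c x <;> rfl)

/-! ### Options, sums, tuples -/

@[fun_prop]
protected theorem some {f : α → β} (hf : IsPolyTime f) : IsPolyTime (fun x => some (f x)) :=
  (hf.cons (const [])).of_enc_eq (fun _ => rfl)

@[fun_prop]
theorem optionToList {f : α → Option β} (hf : IsPolyTime f) : IsPolyTime (fun x => (f x).toList) :=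
  hf.of_enc_eq (fun _ => rfl)

@[fun_prop]
theorem optionCases {g : α → Option β} {n : α → γ} {c : α → β → γ} (hg : IsPolyTime g)
    (hn : IsPolyTime n) (hc : IsPolyTime (fun p : α × β => c p.1 p.2)) :
    IsPolyTime (fun x => (Option.casesOn (motive := fun _ => γ) (g x) (n x) (c x))) :=
  (listCases (c := fun x b _ => c x b) hg.optionToList hn (by fun_prop)).of_eq
    (fun x => by cases g x <;> rfl)

@[fun_prop]
theorem optionElim {g : α → Option β} {n : α → γ} {c : α → β → γ} (hg : IsPolyTime g)
    (hn : IsPolyTime n) (hc : IsPolyTime (fun p : α × β => c p.1 p.2)) :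
    IsPolyTime (fun x => (g x).elim (n x) (c x)) :=
  (optionCases hg hn hc).of_eq (fun x => by cases g x <;> rfl)

@[fun_prop]
theorem optionGetD {g : α → Option β} {d : α → β} (hg : IsPolyTime g) (hd : IsPolyTime d) :
    IsPolyTime (fun x => (g x).getD (d x)) :=
  (optionCases (c := fun _ b => b) hg hd (by fun_prop)).of_eq (fun x => by cases g x <;> rfl)

@[fun_prop]
theorem optionMap {g : α → Option β} {c : α → β → γ} (hg : IsPolyTime g)
    (hc : IsPolyTime (fun p : α × β => c p.1 p.2)) : IsPolyTime (fun x => (g x).map (c x)) :=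
  (optionCases (c := fun x b => some (c x b)) hg (const none) (by fun_prop)).of_eq
    (fun x => by cases g x <;> rfl)

@[fun_prop]
theorem optionBind {g : α → Option β} {c : α → β → Option γ} (hg : IsPolyTime g)
    (hc : IsPolyTime (fun p : α × β => c p.1 p.2)) : IsPolyTime (fun x => (g x).bind (c x)) :=
  (optionCases hg (const none) hc).of_eq (fun x => by cases g x <;> rfl)

@[fun_prop]
theorem optionAny {g : α → Option β} {c : α → β → Bool} (hg : IsPolyTime g)
    (hc : IsPolyTime (fun p : α × β => c p.1 p.2)) : IsPolyTime (fun x => (g x).any (c x)) :=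
  (optionCases hg (const false) hc).of_eq (fun x => by cases g x <;> rfl)

@[fun_prop]
theorem optionAll {g : α → Option β} {c : α → β → Bool} (hg : IsPolyTime g)
    (hc : IsPolyTime (fun p : α × β => c p.1 p.2)) : IsPolyTime (fun x => (g x).all (c x)) :=
  (optionCases hg (const true) hc).of_eq (fun x => by cases g x <;> rfl)

@[fun_prop]
theorem optionFilter {g : α → Option β} {c : α → β → Bool} (hg : IsPolyTime g)
    (hc : IsPolyTime (fun p : α × β => c p.1 p.2)) : IsPolyTime (fun x => (g x).filter (c x)) :=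
  (optionCases (c := fun x b => bif c x b then some b else none) hg (const none)
    (by fun_prop)).of_eq (fun x => by
      cases g x with
      | none => rfl
      | some b => cases h : c x b <;> simp [h, Option.filter])

@[fun_prop]
theorem isSome {g : α → Option β} (hg : IsPolyTime g) : IsPolyTime (fun x => (g x).isSome) :=
  (optionCases (c := fun _ _ => true) hg (const false) (const _)).of_eq
    (fun x => by cases g x <;> rfl)

@[fun_prop]
theorem isNone {g : α → Option β} (hg : IsPolyTime g) : IsPolyTime (fun x => (g x).isNone) :=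
  (optionCases (c := fun _ _ => false) hg (const true) (const _)).of_eq
    (fun x => by cases g x <;> rfl)

@[fun_prop]
theorem optionOr {f g : α → Option β} (hf : IsPolyTime f) (hg : IsPolyTime g) :
    IsPolyTime (fun x => (f x).or (g x)) :=
  (optionCases (c := fun _ b => some b) hf hg (by fun_prop)).of_eq
    (fun x => by cases f x <;> simp)

@[fun_prop]
protected theorem inl {f : α → β} (hf : IsPolyTime f) : IsPolyTime (fun x => (Sum.inl (f x) : β ⊕ γ)) :=
  of_comp (Comp.cons hf.pt false)

@[fun_prop]
protected theorem inr {f : α → γ} (hf : IsPolyTime f) : IsPolyTime (fun x => (Sum.inr (f x) : β ⊕ γ)) :=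
  of_comp (Comp.cons hf.pt true)

@[fun_prop]
theorem isRight {g : α → β ⊕ γ} (hg : IsPolyTime g) : IsPolyTime (fun x => (g x).isRight) :=
  of_comp ((Comp.headD hg.pt).congr (fun x => by cases g x <;> rfl))

@[fun_prop]
theorem isLeft {g : α → β ⊕ γ} (hg : IsPolyTime g) : IsPolyTime (fun x => (g x).isLeft) :=
  hg.isRight.not.of_eq (fun x => by cases g x <;> rfl)

@[fun_prop]
theorem sumElim {g : α → β ⊕ γ} {l : α → β → δ} {r : α → γ → δ} (hg : IsPolyTime g)
    (hl : IsPolyTime (fun p : α × β => l p.1 p.2)) (hr : IsPolyTime (fun p : α × γ => r p.1 p.2)) :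
    IsPolyTime (fun x => Sum.elim (l x) (r x) (g x)) := by
  refine of_comp (Comp.dcond hg.isRight.pt ?_ ?_)
  · have h1 := Comp.ghost hr.pt (fun x : {x // (g x).isRight = true} =>
      (x.1, (g x.1).getRight x.2))
    refine (((Comp.fork (Comp.refl _) (Comp.tail hg.pt)).ghost Subtype.val).congr
      fun x => ?_).trans (h1.congr fun x => ?_)
    · rw [enc_pair]
      conv_rhs => rw [← Sum.inr_getRight (g x.1) x.2]
      rfl
    · conv_lhs => rw [← Sum.inr_getRight (g x.1) x.2]
      rfl
  · have h1 := Comp.ghost hl.pt (fun x : {x // (g x).isRight = false} =>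
      (x.1, (g x.1).getLeft (by simpa using x.2)))
    refine (((Comp.fork (Comp.refl _) (Comp.tail hg.pt)).ghost Subtype.val).congr
      fun x => ?_).trans (h1.congr fun x => ?_)
    · rw [enc_pair]
      conv_rhs => rw [← Sum.inl_getLeft (g x.1) (by simpa using x.2)]
      rfl
    · conv_lhs => rw [← Sum.inl_getLeft (g x.1) (by simpa using x.2)]
      rfl

@[fun_prop]
theorem sumCases {g : α → β ⊕ γ} {l : α → β → δ} {r : α → γ → δ} (hg : IsPolyTime g)
    (hl : IsPolyTime (fun p : α × β => l p.1 p.2)) (hr : IsPolyTime (fun p : α × γ => r p.1 p.2)) :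
    IsPolyTime (fun x => (Sum.casesOn (motive := fun _ => δ) (g x) (l x) (r x))) :=
  (sumElim hg hl hr).of_eq (fun x => by cases g x <;> rfl)

@[fun_prop]
theorem swap {f : α → β × γ} (hf : IsPolyTime f) : IsPolyTime (fun x => (f x).swap) :=
  hf.snd.pair hf.fst

@[fun_prop]
theorem finPi {n : ℕ} {f : α → Fin n → β} (hf : ∀ i, IsPolyTime (fun x => f x i)) :
    IsPolyTime (fun x i => f x i) := of_pt (PT.finPi (fun i => (hf i).pt))

@[fun_prop]
theorem finApply {n : ℕ} (i : Fin n) : IsPolyTime (fun f : Fin n → β => f i) :=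
  of_pt (PT.id'.finApply i)

theorem finApply₂ {n : ℕ} {f : α → Fin n → β} {i : α → Fin n} (hf : IsPolyTime f)
    (hi : IsPolyTime i) : IsPolyTime (fun x => f x (i x)) :=
  finCases (f := fun j x => f x j) hi (fun j => (finApply j).comp hf)

@[fun_prop]
theorem finVal {n : ℕ} {f : α → Fin n} (hf : IsPolyTime f) : IsPolyTime (fun x => (f x).val) :=
  hf.of_enc_eq (fun _ => rfl)

@[fun_prop]
theorem finMk {n : ℕ} {f : α → ℕ} {h : ∀ x, f x < n} (hf : IsPolyTime f) :
    IsPolyTime (fun x => (⟨f x, h x⟩ : Fin n)) := hf.of_enc_eq (fun _ => rfl)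

@[fun_prop]
theorem ofFn {n : ℕ} {f : α → Fin n → β} (hf : IsPolyTime f) :
    IsPolyTime (fun x => List.ofFn (f x)) := hf.of_enc_eq (fun _ => rfl)

/-- A fixed list of polynomial-time functions. -/
theorem map_const {ι : Type} (l : List ι) {f : ι → α → β} (hf : ∀ i, IsPolyTime (f i)) :
    IsPolyTime (fun x => l.map (fun i => f i x)) := of_pt (PT.map_const l (fun i => (hf i).pt))

/-! ### Raw strings -/

@[fun_prop]
protected theorem bitEncode {f : α → β} (hf : IsPolyTime f) : IsPolyTime (fun x => bitEncode (f x)) :=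
  of_comp ((Comp.post hf.pt (Comp.flatMap_bits (fun b => [true, b, false]))).congr (fun x => by
    induction bitEncode (f x) with
    | nil => rfl
    | cons b l ih => rw [enc_cons, ih]; rfl))

@[fun_prop]
theorem rawBits {f : α → Raw} (hf : IsPolyTime f) : IsPolyTime (fun x => (f x).bits) :=
  hf.bitEncode

@[fun_prop]
theorem rawMk {f : α → List Bool} (hf : IsPolyTime f) : IsPolyTime (fun x => Raw.mk (f x)) :=
  of_comp ((Comp.flatMap_list (u := fun _ b => [b]) (snd id').pt hf.pt).congr
    (fun x => by simp [enc_raw]))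

/-- To compute `g x` it is enough to compute its code, as a list of Booleans. -/
theorem of_bits {g : α → β} (h : IsPolyTime (fun x => bitEncode (g x))) : IsPolyTime g :=
  h.rawMk.of_enc_eq (fun _ => rfl)

/-! ### Folds -/

/-- `foldl`, given a polynomial bound `B` on the code length of all intermediate states. -/
theorem foldl {σ : Type} [N487b59b3 σ] {f : α → σ → β → σ} {init : α → σ} {l : α → List β}
    (hf : IsPolyTime (fun p : α × σ × β => f p.1 p.2.1 p.2.2)) (hi : IsPolyTime init)
    (hl : IsPolyTime l) (B : α → ℕ) (hB : PolyBdd B)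
    (hb : ∀ x i, bsize (((l x).take i).foldl (f x) (init x)) ≤ B x) :
    IsPolyTime (fun x => (l x).foldl (f x) (init x)) :=
  of_pt (PT.foldl hf.pt hi.pt hl.pt ((Bdd.ghost hB Prod.fst).mono (fun y => hb y.1 y.2)))

/-- `foldl` with an invariant `I` that bounds the size of the state. -/
theorem foldl_inv {σ : Type} [N487b59b3 σ] {f : α → σ → β → σ} {init : α → σ} {l : α → List β}
    (hf : IsPolyTime (fun p : α × σ × β => f p.1 p.2.1 p.2.2)) (hi : IsPolyTime init)
    (hl : IsPolyTime l) (I : α → σ → Prop) (h0 : ∀ x, I x (init x))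
    (hI : ∀ x s b, b ∈ l x → I x s → I x (f x s b)) (B : α → ℕ) (hB : PolyBdd B)
    (hb : ∀ x s, I x s → bsize s ≤ B x) : IsPolyTime (fun x => (l x).foldl (f x) (init x)) := by
  refine foldl hf hi hl B hB fun x i => hb x _ ?_
  have : ∀ (r : List β) (s : σ), (∀ b ∈ r, b ∈ l x) → I x s → I x (r.foldl (f x) s) := by
    intro r
    induction r with
    | nil => exact fun s _ hs => hs
    | cons b r ih =>
      exact fun s hr hs => ih _ (fun c hc => hr c (by simp [hc])) (hI x s b (hr b (by simp)) hs)
  exact this _ _ (fun b hb => List.mem_of_mem_take hb) (h0 x)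

/-- `foldl` where each step increases the size of the state by at most `B x`. -/
theorem foldl_grow {σ : Type} [N487b59b3 σ] {f : α → σ → β → σ} {init : α → σ} {l : α → List β}
    (hf : IsPolyTime (fun p : α × σ × β => f p.1 p.2.1 p.2.2)) (hi : IsPolyTime init)
    (hl : IsPolyTime l) (B : α → ℕ) (hB : PolyBdd B)
    (hb : ∀ x s b, b ∈ l x → bsize (f x s b) ≤ bsize s + B x) :
    IsPolyTime (fun x => (l x).foldl (f x) (init x)) := by
  refine foldl hf hi hl (fun x => bsize (init x) + (l x).length * B x) (by fun_prop) fun x i => ?_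
  have : ∀ (r : List β) (s : σ), (∀ b ∈ r, b ∈ l x) →
      bsize (r.foldl (f x) s) ≤ bsize s + r.length * B x := by
    intro r
    induction r with
    | nil => exact fun s _ => by simp
    | cons b r ih =>
      intro s hr
      have h1 := ih (f x s b) (fun c hc => hr c (by simp [hc]))
      have h2 := hb x s b (hr b (by simp))
      rw [List.foldl_cons, List.length_cons, add_mul]
      omega
  exact (this _ _ (fun b hb => List.mem_of_mem_take hb)).trans
    (Nat.add_le_add_left (Nat.mul_le_mul_right _ (List.length_take_le' _ _)) _)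

/-- `foldl` with a finite state type. -/
theorem foldl_finite {σ : Type} [N487b59b3 σ] [Finite σ] {f : α → σ → β → σ} {init : α → σ}
    {l : α → List β} (hf : IsPolyTime (fun p : α × σ × β => f p.1 p.2.1 p.2.2))
    (hi : IsPolyTime init) (hl : IsPolyTime l) :
    IsPolyTime (fun x => (l x).foldl (f x) (init x)) := by
  obtain ⟨m, hm⟩ : ∃ m, ∀ s : σ, bsize s ≤ m :=
    (Set.finite_range fun s : σ => bsize s).bddAbove.imp fun n hn x => hn ⟨x, rfl⟩
  exact foldl hf hi hl (fun _ => m) (by fun_prop) (fun _ _ => hm _)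

@[fun_prop]
theorem reverse {l : α → List β} (hl : IsPolyTime l) : IsPolyTime (fun x => (l x).reverse) :=
  (foldl (f := fun _ s b => b :: s) (init := fun _ => []) (by fun_prop) (by fun_prop) hl
    (fun x => bsize (l x)) (by fun_prop) (fun x i => by
      simpa using bsize_sublist (List.take_sublist i (l x)))).of_eq (fun x => by simp)

/-- `foldr`, given a polynomial bound `B` on the code length of all intermediate states. -/
theorem foldr {σ : Type} [N487b59b3 σ] {f : α → β → σ → σ} {init : α → σ} {l : α → List β}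
    (hf : IsPolyTime (fun p : α × β × σ => f p.1 p.2.1 p.2.2)) (hi : IsPolyTime init)
    (hl : IsPolyTime l) (B : α → ℕ) (hB : PolyBdd B)
    (hb : ∀ x i, bsize (((l x).drop i).foldr (f x) (init x)) ≤ B x) :
    IsPolyTime (fun x => (l x).foldr (f x) (init x)) :=
  (foldl (f := fun x s b => f x b s) (by fun_prop) hi hl.reverse B hB (fun x i => by
    rw [List.take_reverse, List.foldl_reverse]; exact hb x _)).of_eq
    (fun x => by rw [List.foldl_reverse])

theorem foldr_inv {σ : Type} [N487b59b3 σ] {f : α → β → σ → σ} {init : α → σ} {l : α → List β}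
    (hf : IsPolyTime (fun p : α × β × σ => f p.1 p.2.1 p.2.2)) (hi : IsPolyTime init)
    (hl : IsPolyTime l) (I : α → σ → Prop) (h0 : ∀ x, I x (init x))
    (hI : ∀ x s b, b ∈ l x → I x s → I x (f x b s)) (B : α → ℕ) (hB : PolyBdd B)
    (hb : ∀ x s, I x s → bsize s ≤ B x) : IsPolyTime (fun x => (l x).foldr (f x) (init x)) :=
  (foldl_inv (f := fun x s b => f x b s) (by fun_prop) hi hl.reverse I h0
    (fun x s b hb => hI x s b (by simpa using hb)) B hB hb).of_eq
    (fun x => by rw [List.foldl_reverse])

theorem foldr_grow {σ : Type} [N487b59b3 σ] {f : α → β → σ → σ} {init : α → σ} {l : α → List β}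
    (hf : IsPolyTime (fun p : α × β × σ => f p.1 p.2.1 p.2.2)) (hi : IsPolyTime init)
    (hl : IsPolyTime l) (B : α → ℕ) (hB : PolyBdd B)
    (hb : ∀ x b s, b ∈ l x → bsize (f x b s) ≤ bsize s + B x) :
    IsPolyTime (fun x => (l x).foldr (f x) (init x)) :=
  (foldl_grow (f := fun x s b => f x b s) (by fun_prop) hi hl.reverse B hB
    (fun x s b h => hb x b s (by simpa using h))).of_eq (fun x => by rw [List.foldl_reverse])

theorem foldr_finite {σ : Type} [N487b59b3 σ] [Finite σ] {f : α → β → σ → σ} {init : α → σ}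
    {l : α → List β} (hf : IsPolyTime (fun p : α × β × σ => f p.1 p.2.1 p.2.2))
    (hi : IsPolyTime init) (hl : IsPolyTime l) :
    IsPolyTime (fun x => (l x).foldr (f x) (init x)) :=
  (foldl_finite (f := fun x s b => f x b s) (by fun_prop) hi hl.reverse).of_eq
    (fun x => by rw [List.foldl_reverse])

theorem bsize_zip_le (l : List β) (r : List γ) : bsize (l.zip r) ≤ 2 * bsize l + bsize r := by
  induction l generalizing r with
  | nil => simp
  | cons a l ih =>
    cases r with
    | nil => simp
    | cons b r => have := ih r; simp; omega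

@[fun_prop]
theorem zip {l : α → List β} {r : α → List γ} (hl : IsPolyTime l) (hr : IsPolyTime r) :
    IsPolyTime (fun x => (l x).zip (r x)) := by
  let F : List γ × List (β × γ) → β → List γ × List (β × γ) := fun s a =>
    List.casesOn (motive := fun _ => List γ × List (β × γ)) s.1 s (fun b t => (t, s.2 ++ [(a, b)]))
  have key : ∀ (L : List β) (t : List γ) (acc : List (β × γ)),
      L.foldl F (t, acc) = (t.drop L.length, acc ++ L.zip t) := by
    intro L
    induction L with
    | nil => intro t acc; simp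
    | cons a L ih =>
      intro t acc
      cases t with
      | nil => simpa [F] using ih [] acc
      | cons b t => simpa [F] using ih t (acc ++ [(a, b)])
  refine (foldl (f := fun _ => F) (init := fun x => (r x, [])) (by simp only [F]; fun_prop)
    (by fun_prop) hl (fun x => 2 * bsize (r x) + 1 + (2 * bsize (l x) + bsize (r x)))
    (by fun_prop) fun x i => ?_).snd.of_eq (fun x => by simp [key])
  rw [key, bsize_pair, List.nil_append]
  have h1 := bsize_sublist (List.drop_sublist ((l x).take i).length (r x))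
  have h2 := bsize_zip_le ((l x).take i) (r x)
  have h3 := bsize_sublist (List.take_sublist i (l x))
  omega

@[fun_prop]
theorem any {f : α → β → Bool} {l : α → List β}
    (hf : IsPolyTime (fun p : α × β => f p.1 p.2)) (hl : IsPolyTime l) :
    IsPolyTime (fun x => (l x).any (f x)) :=
  (filter hf hl).isEmpty.not.of_eq (fun x => by
    rw [Bool.eq_iff_iff]; simp [List.filter_eq_nil_iff])

@[fun_prop]
theorem all {f : α → β → Bool} {l : α → List β}
    (hf : IsPolyTime (fun p : α × β => f p.1 p.2)) (hl : IsPolyTime l) :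
    IsPolyTime (fun x => (l x).all (f x)) :=
  (any (f := fun x b => !f x b) hf.not hl).not.of_eq (fun x => by
    rw [Bool.eq_iff_iff]; simp)

@[fun_prop]
theorem decide_forall_mem {p : α → β → Prop} {l : α → List β}
    {inst : ∀ x, Decidable (∀ b ∈ l x, p x b)} [∀ x b, Decidable (p x b)]
    (hp : IsPolyTime (fun y : α × β => decide (p y.1 y.2))) (hl : IsPolyTime l) :
    IsPolyTime (fun x => @decide (∀ b ∈ l x, p x b) (inst x)) :=
  (all (f := fun x b => decide (p x b)) hp hl).of_eq (fun x => by rw [Bool.eq_iff_iff]; simp)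

@[fun_prop]
theorem decide_exists_mem {p : α → β → Prop} {l : α → List β}
    {inst : ∀ x, Decidable (∃ b ∈ l x, p x b)} [∀ x b, Decidable (p x b)]
    (hp : IsPolyTime (fun y : α × β => decide (p y.1 y.2))) (hl : IsPolyTime l) :
    IsPolyTime (fun x => @decide (∃ b ∈ l x, p x b) (inst x)) :=
  (any (f := fun x b => decide (p x b)) hp hl).of_eq (fun x => by rw [Bool.eq_iff_iff]; simp)

@[fun_prop]
theorem decide_forall_finite {ι : Type} [Finite ι] {p : α → ι → Prop}
    {inst : ∀ x, Decidable (∀ i, p x i)} [∀ x i, Decidable (p x i)]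
    (hp : ∀ i, IsPolyTime (fun x => decide (p x i))) :
    IsPolyTime (fun x => @decide (∀ i, p x i) (inst x)) := by
  have := Fintype.ofFinite ι
  exact (all (f := fun _ b => b) (by fun_prop) (map_const Finset.univ.toList hp)).of_eq
    (fun x => by rw [Bool.eq_iff_iff]; simp)

@[fun_prop]
theorem decide_exists_finite {ι : Type} [Finite ι] {p : α → ι → Prop}
    {inst : ∀ x, Decidable (∃ i, p x i)} [∀ x i, Decidable (p x i)]
    (hp : ∀ i, IsPolyTime (fun x => decide (p x i))) :
    IsPolyTime (fun x => @decide (∃ i, p x i) (inst x)) := by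
  have := Fintype.ofFinite ι
  exact (any (f := fun _ b => b) (by fun_prop) (map_const Finset.univ.toList hp)).of_eq
    (fun x => by rw [Bool.eq_iff_iff]; simp)

end N68a2faeb.IsPolyTime
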