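import Pool.Agent.Shared.PolyTime.ToTM2
import Pool.Agent.Shared.PolyTime.Enc

/-!
Simulation of a `FinTM2` by a stack machine, and the equivalence of `IsPolyTime` with `Comp`.
-/

namespace Pool.Agent.Shared.PolyTime

open Function N487b59b3 Turing Turing.TM2

/-- Typed form of `Comp`. -/
def PT {α β : Type} [N487b59b3 α] [N487b59b3 β] (f : α → β) : Prop :=
  Comp bitEncode (fun x => bitEncode (f x))

namespace PT

variable {α β γ : Type} [N487b59b3 α] [N487b59b3 β] [N487b59b3 γ]

theorem id' : PT (fun x : α => x) := Comp.refl _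

theorem const (b : β) : PT (fun _ : α => b) := Comp.const _ _

theorem comp {f : β → γ} {g : α → β} (hf : PT f) (hg : PT g) : PT (fun x => f (g x)) :=
  Comp.trans hg (Comp.ghost hf g)

theorem of_eq {f g : α → β} (hf : PT f) (h : ∀ x, g x = f x) : PT g := by
  obtain rfl : g = f := funext h
  exact hf

theorem pair {f : α → β} {g : α → γ} (hf : PT f) (hg : PT g) : PT (fun x => (f x, g x)) :=
  Comp.fork hf hg

theorem fst {f : α → β × γ} (hf : PT f) : PT (fun x => (f x).1) :=
  (Comp.undelim_fst hf).congr (fun x => by simp [enc_prod])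

theorem snd {f : α → β × γ} (hf : PT f) : PT (fun x => (f x).2) :=
  (Comp.undelim_snd hf).congr (fun x => by simp [enc_prod])

theorem cond {c : α → Bool} {f g : α → β} (hc : PT c) (hf : PT f) (hg : PT g) :
    PT (fun x => bif c x then f x else g x) :=
  (Comp.cond hc hf hg).congr (fun x => by dsimp only; cases c x <;> rfl)

theorem of_finite [Finite α] (f : α → β) : PT f := Comp.of_finite bitEncode_injective _

theorem cons {f : α → β} {g : α → List β} (hf : PT f) (hg : PT g) : PT (fun x => f x :: g x) :=
  Comp.fork hf hg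

theorem tail {g : α → List β} (hg : PT g) : PT (fun x => (g x).tail) :=
  (Comp.undelim_snd hg).congr (fun x => by
    dsimp only
    cases g x with
    | nil => rfl
    | cons a l => simp [enc_cons])

theorem isEmpty {g : α → List β} (hg : PT g) : PT (fun x => (g x).isEmpty) :=
  (Comp.isNil hg).congr (fun x => by
    dsimp only
    rw [enc_bool]
    congr 1
    cases g x with
    | nil => rfl
    | cons a l =>
      have : bitEncode (a :: l) ≠ [] := by rw [Ne, enc_eq_nil_iff]; simp
      simpa using this)

theorem headD {g : α → List β} {d : α → β} (hg : PT g) (hd : PT d) :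
    PT (fun x => (g x).headD (d x)) :=
  (Comp.cond (isEmpty hg) hd (Comp.undelim_fst hg)).congr (fun x => by
    dsimp only
    cases g x with
    | nil => rfl
    | cons a l => simp [enc_cons])

theorem getD_const {g : α → List β} {d : α → β} (hg : PT g) (hd : PT d) (i : ℕ) :
    PT (fun x => (g x).getD i (d x)) := by
  induction i generalizing g with
  | zero => exact (headD hg hd).of_eq (fun x => by cases g x <;> rfl)
  | succ i ih => exact (ih (tail hg)).of_eq (fun x => by cases g x <;> simp)

theorem map_const {ι : Type} (l : List ι) {f : ι → α → β} (hf : ∀ i, PT (f i)) :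
    PT (fun x => l.map (fun i => f i x)) := by
  induction l with
  | nil => exact const _
  | cons i l ih => exact cons (hf i) ih

theorem finPi {n : ℕ} {f : α → Fin n → β} (hf : ∀ i, PT (fun x => f x i)) : PT f :=
  Comp.congr (map_const (List.finRange n) (f := fun i x => f x i) hf) (fun x => by
    rw [enc_finFun, List.ofFn_eq_map])

theorem finApply {n : ℕ} {f : α → Fin n → β} (hf : PT f) (i : Fin n) : PT (fun x => f x i) := by
  rcases isEmpty_or_nonempty α with h | ⟨⟨x₀⟩⟩
  · exact of_finite _
  · have h1 : PT (fun x => List.ofFn (f x)) := hf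
    exact (getD_const h1 (const (f x₀ i)) i).of_eq (fun x => by simp)

theorem finUpdate {n : ℕ} {f : α → Fin n → β} {g : α → β} (hf : PT f) (hg : PT g) (i : Fin n) :
    PT (fun x => update (f x) i (g x)) := by
  refine finPi fun j => ?_
  by_cases h : j = i
  · subst h; exact hg.of_eq (fun x => by simp)
  · exact (finApply hf j).of_eq (fun x => by simp [update_of_ne h])

theorem finCases {ι : Type} [N487b59b3 ι] [Finite ι] {c : α → ι} {f : ι → α → β} (hc : PT c)
    (hf : ∀ i, PT (f i)) : PT (fun x => f (c x) x) := by
  classical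
  rcases isEmpty_or_nonempty α with h | ⟨⟨x₀⟩⟩
  · exact of_finite _
  have := Fintype.ofFinite ι
  have key : ∀ l : List ι, PT (fun x => if c x ∈ l then f (c x) x else f (c x₀) x) := by
    intro l
    induction l with
    | nil => exact (hf (c x₀)).of_eq (fun x => by simp)
    | cons i l ih =>
      refine (cond (comp (of_finite (fun j => decide (j = i))) hc) (hf i) ih).of_eq fun x => ?_
      by_cases h : c x = i <;> simp [h]
  exact (key Finset.univ.toList).of_eq (fun x => by simp)

theorem bdd {f : α → β} (hf : PT f) : Bdd (fun x : α => bsize x) (fun x => bsize (f x)) :=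
  Comp.bdd hf

/-- Iteration, with the number of rounds given as the length of a raw string. -/
theorem iterate {f : β → β} {g : α → β} {cnt : α → List Bool} (hf : PT f) (hg : PT g)
    (hc : Comp bitEncode cnt)
    (hb : Bdd (fun y : {y : α × ℕ // y.2 < (cnt y.1).length} => bsize y.1.1)
      (fun y => bsize (f^[y.1.2] (g y.1.1)))) :
    PT (fun x => f^[(cnt x).length] (g x)) :=
  Comp.iter (fun x i => bitEncode (f^[i] (g x))) hc hg
    ((Comp.ghost hf (fun y : {y : α × ℕ // y.2 < (cnt y.1).length} =>
      f^[y.1.2] (g y.1.1))).congr (fun y => by rw [Function.iterate_succ_apply'])) hb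

theorem listCases {g : α → List β} {n : α → γ} {c : α → β → List β → γ} (hg : PT g) (hn : PT n)
    (hc : PT (fun p : α × β × List β => c p.1 p.2.1 p.2.2)) :
    PT (fun x => (List.casesOn (g x) (n x) (c x) : γ)) := by
  refine Comp.dcond (isEmpty hg) ?_ ?_
  · refine (Comp.ghost hn Subtype.val).congr fun x => ?_
    have : g x.1 = [] := by simpa using x.2
    simp only [this]
  · have hne : ∀ x : {x // (g x).isEmpty = false}, g x.1 ≠ [] := fun x => by simpa using x.2
    have h1 := Comp.ghost hc (fun x : {x // (g x).isEmpty = false} =>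
      (x.1, (g x.1).head (hne x), (g x.1).tail))
    refine ((Comp.ghost (pair id' hg) Subtype.val).congr fun x => ?_).trans (h1.congr fun x => ?_)
    · simp only [enc_pair]
      rw [← enc_cons, List.cons_head_tail]
    · dsimp only
      conv_lhs => rw [← List.cons_head_tail (hne x)]

theorem foldl {σ : Type} [N487b59b3 σ] {f : α → σ → β → σ} {init : α → σ} {l : α → List β}
    (hf : PT (fun p : α × σ × β => f p.1 p.2.1 p.2.2)) (hi : PT init) (hl : PT l)
    (hb : Bdd (fun y : α × ℕ => bsize y.1)
      (fun y => bsize (((l y.1).take y.2).foldl (f y.1) (init y.1)))) :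
    PT (fun x => (l x).foldl (f x) (init x)) := by
  let F : α × List β × σ → α × List β × σ := fun s =>
    List.casesOn s.2.1 s (fun b r => (s.1, r, f s.1 s.2.2 b))
  have hF : PT F := listCases (c := fun (s : α × List β × σ) b r => (s.1, r, f s.1 s.2.2 b))
    id'.snd.fst id' (id'.fst.fst.pair (id'.snd.snd.pair
      (hf.comp (id'.fst.fst.pair (id'.fst.snd.snd.pair id'.snd.fst)))))
  have key : ∀ (x : α) (i : ℕ) (r : List β) (s : σ),
      F^[i] (x, r, s) = (x, r.drop i, (r.take i).foldl (f x) s) := by
    intro x i
    induction i with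
    | zero => intro r s; rfl
    | succ i ih =>
      intro r s
      rw [Function.iterate_succ_apply]
      cases r with
      | nil => exact (ih [] s).trans (by simp)
      | cons b r => exact (ih r _).trans (by simp)
  have h := iterate (cnt := fun x => bitEncode (l x)) hF (id'.pair (hl.pair hi)) hl (by
    have h1 := hl.bdd.ghost (fun y : {y : α × ℕ // y.2 < (bitEncode (l y.1)).length} => y.1.1)
    have h2 := hb.ghost (fun y : {y : α × ℕ // y.2 < (bitEncode (l y.1)).length} => y.1)
    refine ((((Bdd.const _ 2).mul (Bdd.refl _)).add (Bdd.const _ 1)).add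
      ((((Bdd.const _ 2).mul h1).add (Bdd.const _ 1)).add h2)).mono fun y => ?_
    rw [key]
    have := bsize_sublist (List.drop_sublist y.1.2 (l y.1.1))
    simp only [bsize_pair]
    omega)
  refine h.snd.snd.of_eq fun x => ?_
  rw [key, List.take_of_length_le (i := (bitEncode (l x)).length) (length_le_bsize _)]

end PT

/-- Raw bit strings, encoded by themselves. -/
structure Raw : Type where
  bits : List Bool

instance encRaw : N487b59b3 Raw where
  encode := Raw.bits
  decode l := some ⟨l⟩
  decode_encode _ := rfl

theorem enc_raw (r : Raw) : bitEncode r = r.bits := rfl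

@[simp] theorem bsize_raw (r : Raw) : bsize r = r.bits.length := rfl

namespace Comp

variable {α : Type} {e : α → List Bool}

/-- A computable string at least as long as a given polynomial bound. -/
theorem exists_long {g : α → ℕ} (hg : Bdd (fun x => (e x).length) g) :
    ∃ cnt : α → List Bool, Comp e cnt ∧ ∀ x, g x ≤ (cnt x).length := by
  obtain ⟨p, hp⟩ := hg
  suffices ∃ cnt : α → List Bool, Comp e cnt ∧ ∀ x, p.eval (e x).length ≤ (cnt x).length by
    obtain ⟨cnt, h1, h2⟩ := this
    exact ⟨cnt, h1, fun x => (hp x).trans (h2 x)⟩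
  clear hp
  induction p using Polynomial.induction_on' with
  | add p q ihp ihq =>
    obtain ⟨c1, h1, h1'⟩ := ihp
    obtain ⟨c2, h2, h2'⟩ := ihq
    exact ⟨_, h1.append h2, fun x => by
      have := h1' x; have := h2' x; simp; omega⟩
  | monomial n a =>
    induction n with
    | zero => exact ⟨_, const e (List.replicate a true), fun x => by simp⟩
    | succ n ih =>
      obtain ⟨c, h1, h2⟩ := ih
      have hlen : ∀ (l : List Bool) (i : ℕ), (List.replicate i l).flatten.length = i * l.length := by
        intro l i; simp
      have h3 : Comp e (fun x => delimit (c x) ++ (List.replicate (e x).length (c x)).flatten) := by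
        refine Comp.iter (fun x i => delimit (c x) ++ (List.replicate i (c x)).flatten) (refl e)
          ((h1.fork (nil e)).congr (fun x => by simp)) ?_ ?_
        · exact (((refl _).undelim_fst).fork
            (((refl _).undelim_fst).append (refl _).undelim_snd)).congr
            (fun y => by simp [List.replicate_succ])
        · have h4 := h1.bdd.ghost (fun y : {y : α × ℕ // y.2 < (e y.1).length} => y.1.1)
          refine ((((Bdd.const _ 2).mul h4).add (Bdd.const _ 1)).add
            ((Bdd.refl _).mul h4)).mono fun y => ?_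
          rw [List.length_append, length_delimit, hlen]
          exact Nat.add_le_add_left (Nat.mul_le_mul_right _ y.2.le) _
      refine ⟨_, h3.undelim_snd, fun x => ?_⟩
      have := h2 x
      simp only [Polynomial.eval_monomial, undelim_delimit, hlen] at this ⊢
      calc a * (e x).length ^ (n + 1) = (e x).length * (a * (e x).length ^ n) := by ring
        _ ≤ _ := Nat.mul_le_mul_left _ this

/-- Apply a fixed block code to each bit. -/
theorem flatMap_bits (u : Bool → List Bool) : Comp id (fun l : List Bool => l.flatMap u) := by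
  have h : Comp id (fun l : List Bool =>
      delimit (l.drop l.length) ++ (l.take l.length).flatMap u) := by
    refine Comp.iter (fun l i => delimit (l.drop i) ++ (l.take i).flatMap u) (refl id)
      (((refl id).fork (nil _)).congr (fun x => by simp)) ?_ ?_
    · refine (((refl _).undelim_fst.tail).fork (((refl _).undelim_snd).append
        (Comp.cond (refl _).undelim_fst.headD (const _ (u true)) (const _ (u false))))).congr ?_
      rintro ⟨⟨l, i⟩, hi⟩
      simp only [id] at hi
      simp only [undelim_delimit, List.tail_drop, List.take_add_one, List.flatMap_append]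
      congr 2
      rw [List.getElem?_eq_getElem hi, List.drop_eq_getElem_cons hi]
      cases l[i] <;> simp
    · refine ((((Bdd.const _ 2).mul (Bdd.refl _)).add (Bdd.const _ 1)).add
        ((Bdd.refl _).mul (Bdd.const _ ((u true).length + (u false).length)))).mono ?_
      rintro ⟨⟨l, i⟩, hi⟩
      have h1 : ∀ l : List Bool,
          (l.flatMap u).length ≤ l.length * ((u true).length + (u false).length) := by
        intro l
        induction l with
        | nil => simp
        | cons b l ih =>
          rw [List.flatMap_cons, List.length_append, List.length_cons, add_mul]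
          cases b <;> omega
      have h2 := h1 (l.take i)
      have h3 : (l.take i).length ≤ l.length := by simp
      have h4 := Nat.mul_le_mul_right ((u true).length + (u false).length) h3
      simp only [List.length_append, length_delimit, List.length_drop, id]
      omega
  exact h.undelim_snd.congr (fun l => by simp)

/-- Concatenate computable strings along a list, with a parameter. -/
theorem flatMap_list {α β : Type} [N487b59b3 α] [N487b59b3 β] {u : α → β → List Bool}
    {l : α → List β} (hu : Comp bitEncode (fun p : α × β => u p.1 p.2)) (hl : PT l) :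
    Comp bitEncode (fun x => (l x).flatMap (u x)) := by
  have key : ∀ (x : α) (r : List β) (s : Raw),
      r.foldl (fun s b => (⟨s.bits ++ u x b⟩ : Raw)) s = ⟨s.bits ++ r.flatMap (u x)⟩ := by
    intro x r
    induction r with
    | nil => intro s; simp
    | cons b r ih => intro s; simp [ih]
  have h := PT.foldl (f := fun x (s : Raw) b => (⟨s.bits ++ u x b⟩ : Raw))
    (init := fun _ => ⟨[]⟩) (l := l)
    (Comp.append (PT.id'.snd.fst) (Comp.trans (PT.id'.fst.pair PT.id'.snd.snd)
      (hu.ghost (fun p : α × Raw × β => (p.1, p.2.2))))) (PT.const _) hl (by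
      obtain ⟨p, hp⟩ := hu.bdd
      have h1 := hl.bdd.ghost (fun y : α × ℕ => y.1)
      refine (h1.mul (((((Bdd.const _ 2).mul (Bdd.refl _)).add (Bdd.const _ 1)).add h1).eval p)).mono
        fun y => ?_
      rw [key, bsize_raw, List.nil_append, List.length_flatMap]
      refine (List.sum_le_card_nsmul _ (p.eval (2 * bsize y.1 + 1 + bsize (l y.1))) ?_).trans ?_
      · intro m hm
        obtain ⟨b, hb, rfl⟩ := List.mem_map.1 hm
        refine (hp (y.1, b)).trans (eval_mono p ?_)
        have := bsize_le_of_mem (List.mem_of_mem_take hb)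
        change bsize (y.1, b) ≤ _
        rw [bsize_pair]
        omega
      · rw [smul_eq_mul, List.length_map]
        exact Nat.mul_le_mul_right _ ((List.length_take_le' _ _).trans (length_le_bsize _)))
  exact Comp.congr h (fun x => by simp [key, enc_raw])

end Comp

section sim

variable {K : Type} [DecidableEq K] {Γ : K → Type} {Λ σ B : Type} {n : ℕ}

/-- Simulation of one TM2 statement on coded stacks. -/
def simStmt (e : K → Fin n) (code : ∀ k, Γ k → B) (dec : ∀ k, B → Option (Γ k)) (dflt : B) :
    Stmt Γ Λ σ → σ × (Fin n → List B) → Option Λ × σ × (Fin n → List B)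
  | .push k f q, s => simStmt e code dec dflt q
      (s.1, update s.2 (e k) (code k (f s.1) :: s.2 (e k)))
  | .peek k f q, s => simStmt e code dec dflt q (f s.1 (dec k ((s.2 (e k)).headD dflt)), s.2)
  | .pop k f q, s => simStmt e code dec dflt q
      (f s.1 (dec k ((s.2 (e k)).headD dflt)), update s.2 (e k) (s.2 (e k)).tail)
  | .load a q, s => simStmt e code dec dflt q (a s.1, s.2)
  | .branch f q₁ q₂, s =>
      bif f s.1 then simStmt e code dec dflt q₁ s else simStmt e code dec dflt q₂ s
  | .goto f, s => (some (f s.1), s)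
  | .halt, s => (none, s)

omit [DecidableEq K] in
theorem pt_simStmt [N487b59b3 Λ] [N487b59b3 σ] [N487b59b3 B] [Finite σ] [Finite B]
    (e : K → Fin n) (code : ∀ k, Γ k → B) (dec : ∀ k, B → Option (Γ k)) (dflt : B)
    (q : Stmt Γ Λ σ) : PT (simStmt e code dec dflt q) := by
  induction q with
  | push k f q ih =>
    exact ih.comp (PT.id'.fst.pair (PT.id'.snd.finUpdate
      (((PT.of_finite (fun v => code k (f v))).comp PT.id'.fst).cons (PT.id'.snd.finApply _)) _))
  | peek k f q ih =>
    exact ih.comp (((PT.of_finite (fun p : σ × B => f p.1 (dec k p.2))).comp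
      (PT.id'.fst.pair ((PT.id'.snd.finApply _).headD (PT.const _)))).pair PT.id'.snd)
  | pop k f q ih =>
    exact ih.comp (((PT.of_finite (fun p : σ × B => f p.1 (dec k p.2))).comp
      (PT.id'.fst.pair ((PT.id'.snd.finApply _).headD (PT.const _)))).pair
      (PT.id'.snd.finUpdate (PT.id'.snd.finApply _).tail _))
  | load a q ih => exact ih.comp (((PT.of_finite a).comp PT.id'.fst).pair PT.id'.snd)
  | branch f q₁ q₂ ih₁ ih₂ => exact PT.cond ((PT.of_finite f).comp PT.id'.fst) ih₁ ih₂
  | goto f => exact ((PT.of_finite (fun v => some (f v))).comp PT.id'.fst).pair PT.id'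
  | halt => exact (PT.const _).pair PT.id'

/-- The number of `push` instructions on a path through a statement is at most `depth`. -/
def depth : Stmt Γ Λ σ → ℕ
  | .push _ _ q => depth q + 1
  | .peek _ _ q => depth q
  | .pop _ _ q => depth q
  | .load _ q => depth q
  | .branch _ q₁ q₂ => depth q₁ + depth q₂
  | .goto _ => 0
  | .halt => 0

omit [DecidableEq K] in
theorem length_simStmt (e : K → Fin n) (code : ∀ k, Γ k → B) (dec : ∀ k, B → Option (Γ k))
    (dflt : B) (q : Stmt Γ Λ σ) (s : σ × (Fin n → List B)) (j : Fin n) :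
    ((simStmt e code dec dflt q s).2.2 j).length ≤ (s.2 j).length + depth q := by
  induction q generalizing s with
  | push k f q ih =>
    refine (ih _).trans ?_
    by_cases h : j = e k
    · subst h; simp [depth]; omega
    · simp [depth, update_of_ne h]
  | peek k f q ih => exact ih _
  | pop k f q ih =>
    refine (ih _).trans ?_
    by_cases h : j = e k
    · subst h; simp [depth]
    · simp [depth, update_of_ne h]
  | load a q ih => exact ih _
  | branch f q₁ q₂ ih₁ ih₂ =>
    have h1 := ih₁ s
    have h2 := ih₂ s
    simp only [simStmt, depth]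
    cases f s.1 <;> simp only [cond_true, cond_false] <;> omega
  | goto f => simp [simStmt]
  | halt => simp [simStmt]

/-- The symbols that a statement can push. -/
def pushes : Stmt Γ Λ σ → Set (Σ k, Γ k)
  | .push k f q => Set.range (fun v => ⟨k, f v⟩) ∪ pushes q
  | .peek _ _ q => pushes q
  | .pop _ _ q => pushes q
  | .load _ q => pushes q
  | .branch _ q₁ q₂ => pushes q₁ ∪ pushes q₂
  | .goto _ => ∅
  | .halt => ∅

omit [DecidableEq K] in
theorem pushes_finite [Finite σ] (q : Stmt Γ Λ σ) : (pushes q).Finite := by
  induction q with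
  | push k f q ih => exact (Set.finite_range _).union ih
  | peek k f q ih => exact ih
  | pop k f q ih => exact ih
  | load a q ih => exact ih
  | branch f q₁ q₂ ih₁ ih₂ => exact ih₁.union ih₂
  | goto f => exact Set.finite_empty
  | halt => exact Set.finite_empty

theorem simStmt_spec (e : K → Fin n) (he : Injective e) (code : ∀ k, Γ k → B)
    (dec : ∀ k, B → Option (Γ k)) (dflt : B) (R : Set (Σ k, Γ k))
    (hd : ∀ k, dec k dflt = none) (hR : ∀ k g, ⟨k, g⟩ ∈ R → dec k (code k g) = some g)
    (q : Stmt Γ Λ σ) (hq : pushes q ⊆ R) (v : σ) (S : ∀ k, List (Γ k)) (T : Fin n → List B)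
    (hS : ∀ k, ∀ g ∈ S k, (⟨k, g⟩ : Σ k, Γ k) ∈ R) (hT : ∀ k, T (e k) = (S k).map (code k)) :
    (simStmt e code dec dflt q (v, T)).1 = (stepAux q v S).l ∧
    (simStmt e code dec dflt q (v, T)).2.1 = (stepAux q v S).var ∧
    (∀ k, ∀ g ∈ (stepAux q v S).stk k, (⟨k, g⟩ : Σ k, Γ k) ∈ R) ∧
    ∀ k, (simStmt e code dec dflt q (v, T)).2.2 (e k) = ((stepAux q v S).stk k).map (code k) := by
  have hhead : ∀ (S : ∀ k, List (Γ k)) (T : Fin n → List B),
      (∀ k, ∀ g ∈ S k, (⟨k, g⟩ : Σ k, Γ k) ∈ R) → (∀ k, T (e k) = (S k).map (code k)) →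
      ∀ k, dec k ((T (e k)).headD dflt) = (S k).head? := by
    intro S T hS hT k
    rw [hT]
    have := hS k
    cases h : S k with
    | nil => exact hd k
    | cons g l => exact hR k g (this g (by simp [h]))
  induction q generalizing v S T with
  | push k f q ih =>
    refine ih (fun x hx => hq (Or.inr hx)) v (update S k (f v :: S k)) _ (fun k' => ?_)
      (fun k' => ?_)
    · by_cases h : k' = k
      · subst h
        rw [update_self]
        intro g hg
        rcases List.mem_cons.1 hg with rfl | hg
        · exact hq (Or.inl ⟨v, rfl⟩)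
        · exact hS _ _ hg
      · rw [update_of_ne h]; exact hS k'
    · by_cases h : k' = k
      · subst h; simp [hT]
      · simp only [update_of_ne h, update_of_ne (he.ne h), hT]
  | peek k f q ih =>
    simp only [simStmt, stepAux, hhead S T hS hT]
    exact ih hq _ S T hS hT
  | pop k f q ih =>
    simp only [simStmt, stepAux, hhead S T hS hT]
    refine ih hq _ (update S k (S k).tail) _ (fun k' => ?_) (fun k' => ?_)
    · by_cases h : k' = k
      · subst h
        rw [update_self]
        exact fun g hg => hS _ _ (List.mem_of_mem_tail hg)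
      · rw [update_of_ne h]; exact hS k'
    · by_cases h : k' = k
      · subst h; simp [hT]
      · simp only [update_of_ne h, update_of_ne (he.ne h), hT]
  | load a q ih => exact ih hq _ S T hS hT
  | branch f q₁ q₂ ih₁ ih₂ =>
    simp only [simStmt, stepAux]
    cases f v
    · exact ih₂ (fun x hx => hq (Or.inr hx)) v S T hS hT
    · exact ih₁ (fun x hx => hq (Or.inl hx)) v S T hS hT
  | goto f => exact ⟨rfl, rfl, hS, hT⟩
  | halt => exact ⟨rfl, rfl, hS, hT⟩

/-- Simulation of one TM2 step; halted configurations are fixed. -/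
def simStep (e : K → Fin n) (code : ∀ k, Γ k → B) (dec : ∀ k, B → Option (Γ k)) (dflt : B)
    (m : Λ → Stmt Γ Λ σ) (c : Option Λ × σ × (Fin n → List B)) :
    Option Λ × σ × (Fin n → List B) :=
  match c.1 with
  | none => c
  | some l => simStmt e code dec dflt (m l) c.2

theorem simStep_run (e : K → Fin n) (he : Injective e) (code : ∀ k, Γ k → B)
    (dec : ∀ k, B → Option (Γ k)) (dflt : B) (R : Set (Σ k, Γ k))
    (hd : ∀ k, dec k dflt = none) (hR : ∀ k g, ⟨k, g⟩ ∈ R → dec k (code k g) = some g)
    (m : Λ → Stmt Γ Λ σ) (hm : ∀ l, pushes (m l) ⊆ R) (t : ℕ) (c c' : Cfg Γ Λ σ)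
    (hrun : (flip bind (step m))^[t] (some c) = some c') (T : Fin n → List B)
    (hS : ∀ k, ∀ g ∈ c.stk k, (⟨k, g⟩ : Σ k, Γ k) ∈ R)
    (hT : ∀ k, T (e k) = (c.stk k).map (code k)) :
    ((simStep e code dec dflt m)^[t] (c.l, c.var, T)).1 = c'.l ∧
    (∀ k, ∀ g ∈ c'.stk k, (⟨k, g⟩ : Σ k, Γ k) ∈ R) ∧
    ∀ k, ((simStep e code dec dflt m)^[t] (c.l, c.var, T)).2.2 (e k) =
      (c'.stk k).map (code k) := by
  induction t generalizing c T with
  | zero =>
    obtain rfl : c = c' := Option.some.inj hrun
    exact ⟨rfl, hS, hT⟩
  | succ t ih =>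
    rw [Function.iterate_succ_apply] at hrun ⊢
    obtain ⟨_ | l, v, S⟩ := c
    · have h1 : (flip bind (step m))^[t] (none : Option (Cfg Γ Λ σ)) = none :=
        Function.iterate_fixed rfl t
      exact absurd (h1.symm.trans hrun) (by simp)
    · obtain ⟨h1, h2, h3, h4⟩ := simStmt_spec e he code dec dflt R hd hR (m l) (hm l) v S T hS hT
      have := ih (stepAux (m l) v S) hrun _ h3 h4
      rw [← h1, ← h2] at this
      exact this

end sim

theorem Comp.of_TM2 {α β : Type} {ea : α → List Bool} {eb : β → List Bool} {f : α → β}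
    (h : TM2ComputableInPolyTime ea eb f) : Comp ea (fun x => eb (f x)) := by
  classical
  obtain ⟨⟨tm, inA, outA⟩, p, hp⟩ := h
  have := tm.kFin
  have := tm.ΛFin
  have := tm.σFin
  have := tm.Γk₀Fin
  let n := Fintype.card tm.K
  let e : tm.K ≃ Fin n := Fintype.equivFin tm.K
  let R : Set (Σ k, tm.Γ k) := Set.range (fun g => ⟨tm.k₀, g⟩) ∪ ⋃ l, pushes (tm.m l)
  have hRfin : R.Finite :=
    (Set.finite_range _).union (Set.finite_iUnion fun l => pushes_finite _)
  have : Fintype R := hRfin.fintype
  let code : ∀ k, tm.Γ k → Option R := fun k g => if h : ⟨k, g⟩ ∈ R then some ⟨_, h⟩ else none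
  let dec : ∀ k, Option R → Option (tm.Γ k) := fun k b =>
    b.bind fun r => if h : r.1.1 = k then some (h ▸ r.1.2) else none
  have hR : ∀ k g, ⟨k, g⟩ ∈ R → dec k (code k g) = some g := by
    intro k g h
    simp [code, dec, h]
  let _ : N487b59b3 tm.Λ := encFintype _
  let _ : N487b59b3 tm.σ := encFintype _
  let _ : N487b59b3 R := encFintype _
  let stp := simStep e code dec none tm.m
  have hstp : PT stp := by
    refine (PT.finCases (f := fun (o : Option tm.Λ)
        (c : Option tm.Λ × tm.σ × (Fin n → List (Option R))) =>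
      match o with
      | none => c
      | some l => simStmt e code dec none (tm.m l) c.2) PT.id'.fst ?_).of_eq
      (fun c => by obtain ⟨_ | l, s⟩ := c <;> rfl)
    rintro (_ | l)
    · exact PT.id'
    · exact (pt_simStmt e code dec none (tm.m l)).comp PT.id'.snd
  let cin : Bool → Option R := fun b => code tm.k₀ (inA.symm b)
  let init : List Bool → Option tm.Λ × tm.σ × (Fin n → List (Option R)) := fun l =>
    (some tm.main, tm.initialState, update (fun _ => []) (e tm.k₀) (l.map cin))
  have hinit : Comp id (fun l => bitEncode (init l)) := by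
    have h1 : Comp id (fun l : List Bool => bitEncode (l.map cin)) :=
      (Comp.flatMap_bits (fun b => delimit (bitEncode (cin b)))).congr (fun l => by
        induction l with
        | nil => rfl
        | cons b l ih => rw [List.map_cons, enc_cons, ih, List.flatMap_cons])
    exact h1.trans (Comp.ghost (show PT (fun l : List (Option R) =>
      ((some tm.main, tm.initialState, update (fun _ => []) (e tm.k₀) l) :
        Option tm.Λ × tm.σ × (Fin n → List (Option R)))) from
      (PT.const _).pair ((PT.const _).pair ((PT.const _).finUpdate PT.id' _))) (List.map cin))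
  obtain ⟨D, hD⟩ : ∃ D, ∀ l, depth (tm.m l) ≤ D :=
    (Set.finite_range fun l => depth (tm.m l)).bddAbove.imp fun n hn x => hn ⟨x, rfl⟩
  have hlen : ∀ (l : List Bool) (i : ℕ) (j : Fin n),
      ((stp^[i] (init l)).2.2 j).length ≤ l.length + i * D := by
    intro l i j
    induction i with
    | zero =>
      by_cases h : j = e tm.k₀
      · subst h; simp [init]
      · simp [init, update_of_ne h]
    | succ i ih =>
      rw [Function.iterate_succ_apply']
      generalize stp^[i] (init l) = c at ih ⊢
      obtain ⟨_ | q, s⟩ := c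
      · exact ih.trans (by rw [add_mul]; omega)
      · have h1 := length_simStmt e code dec none (tm.m q) s j
        have h2 := hD q
        refine h1.trans ?_
        simp only at ih
        rw [add_mul]
        omega
  obtain ⟨c₁, hc₁⟩ : ∃ c, ∀ o : Option tm.Λ, bsize o ≤ c :=
    (Set.finite_range fun o : Option tm.Λ => bsize o).bddAbove.imp fun n hn x => hn ⟨x, rfl⟩
  obtain ⟨c₂, hc₂⟩ : ∃ c, ∀ o : tm.σ, bsize o ≤ c :=
    (Set.finite_range fun o : tm.σ => bsize o).bddAbove.imp fun n hn x => hn ⟨x, rfl⟩
  obtain ⟨c₃, hc₃⟩ : ∃ c, ∀ o : Option R, bsize o ≤ c :=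
    (Set.finite_range fun o : Option R => bsize o).bddAbove.imp fun n hn x => hn ⟨x, rfl⟩
  have hsize : ∀ (c : Option tm.Λ × tm.σ × (Fin n → List (Option R))) (m : ℕ),
      (∀ j, (c.2.2 j).length ≤ m) →
      bsize c ≤ 2 * c₁ + 1 + (2 * c₂ + 1 + n * (2 * (m * (2 * c₃ + 1)) + 1)) := by
    rintro ⟨o, v, T⟩ m hm
    have h1 := hc₁ o
    have h2 := hc₂ v
    have h3 : bsize T ≤ n * (2 * (m * (2 * c₃ + 1)) + 1) := by
      have := bsize_list_le (List.ofFn T) (m * (2 * c₃ + 1)) (by
        intro a ha
        obtain ⟨j, rfl⟩ := (List.mem_ofFn' _ _).1 ha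
        exact (bsize_list_le _ c₃ (fun a _ => hc₃ a)).trans (Nat.mul_le_mul_right _ (hm j)))
      rw [List.length_ofFn] at this
      exact this
    simp only [bsize_pair]
    omega
  obtain ⟨cnt, hcnt, hlong⟩ := Comp.exists_long (e := ea) ((Bdd.refl _).eval p)
  have hfin : Comp ea (fun x => bitEncode (stp^[(cnt x).length] (init (ea x)))) := by
    refine Comp.iter (fun x i => bitEncode (stp^[i] (init (ea x)))) hcnt (hinit.ghost ea)
      ((Comp.ghost hstp (fun y : {y : α × ℕ // y.2 < (cnt y.1).length} =>
        stp^[y.1.2] (init (ea y.1.1)))).congr (fun y => by rw [Function.iterate_succ_apply'])) ?_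
    have hc := hcnt.bdd.ghost (fun y : {y : α × ℕ // y.2 < (cnt y.1).length} => y.1.1)
    refine ((Bdd.const _ (2 * c₁ + 1)).add ((Bdd.const _ (2 * c₂ + 1)).add
      ((Bdd.const _ n).mul (((Bdd.const _ 2).mul ((((Bdd.refl _).add
        (hc.mul (Bdd.const _ D))).mul
        (Bdd.const _ (2 * c₃ + 1))))).add (Bdd.const _ 1))))).mono fun y => ?_
    refine hsize _ _ fun j => (hlen _ _ j).trans ?_
    exact Nat.add_le_add_left (Nat.mul_le_mul_right _ y.2.le) _
  let cout : Option R → Bool := fun b => ((dec tm.k₁ b).map outA).getD false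
  have hout : PT (fun c : Option tm.Λ × tm.σ × (Fin n → List (Option R)) => c.2.2 (e tm.k₁)) :=
    PT.id'.snd.snd.finApply _
  have hdec : Comp bitEncode (fun l : List (Option R) => l.flatMap (fun b => [cout b])) :=
    Comp.flatMap_list (u := fun _ b => [cout b]) ((PT.of_finite cout).comp PT.id'.snd) PT.id'
  have hall := (hfin.trans (Comp.ghost hout (fun x => stp^[(cnt x).length] (init (ea x))))).trans
    (hdec.ghost (fun x => (stp^[(cnt x).length] (init (ea x))).2.2 (e tm.k₁)))
  refine hall.congr fun x => ?_
  obtain ⟨⟨t, hrun⟩, ht⟩ := hp x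
  obtain ⟨h1, h2, h3⟩ := simStep_run e e.injective code dec none R (fun _ => rfl) hR tm.m
    (fun l x hx => Or.inr (Set.mem_iUnion.2 ⟨l, hx⟩)) t _ _ hrun
    (update (fun _ => []) (e tm.k₀) ((ea x).map cin))
    (by
      intro k g hg
      by_cases hk : k = tm.k₀
      · subst hk; exact Or.inl ⟨g, rfl⟩
      · simp [initList, hk] at hg)
    (by
      intro k
      by_cases hk : k = tm.k₀
      · subst hk; simp [initList, cin]
      · simp [initList, hk])
  have h4 : stp^[(cnt x).length] (init (ea x)) = stp^[t] (init (ea x)) := by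
    obtain ⟨d, hd⟩ := Nat.exists_eq_add_of_le (ht.trans (hlong x))
    simp only at hd
    rw [hd, add_comm, Function.iterate_add_apply]
    refine Function.iterate_fixed ?_ d
    have h5 : (stp^[t] (init (ea x))).1 = none := h1
    simp only [stp] at h5 ⊢
    rw [simStep, h5]
  have h6 : (stp^[t] (init (ea x))).2.2 (e tm.k₁) =
      ((eb (f x)).map outA.symm).map (code tm.k₁) := by
    have := h3 tm.k₁
    simp only [haltList, dif_pos] at this
    exact this
  have h7 : ∀ g ∈ (eb (f x)).map outA.symm, (⟨tm.k₁, g⟩ : Σ k, tm.Γ k) ∈ R := by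
    have := h2 tm.k₁
    simp only [haltList, dif_pos] at this
    exact this
  rw [h4, h6]
  generalize eb (f x) = l at h7
  induction l with
  | nil => rfl
  | cons b l ih =>
    simp only [List.map_cons, List.flatMap_cons, List.singleton_append]
    rw [← ih (fun g hg => h7 g (List.mem_cons_of_mem _ hg))]
    simp [cout, hR _ _ (h7 _ List.mem_cons_self)]

theorem isPolyTime_iff_comp {α β : Type} [N487b59b3 α] [N487b59b3 β] (f : α → β) :
    N68a2faeb.IsPolyTime f ↔ Comp bitEncode (fun x => bitEncode (f x)) :=
  ⟨fun ⟨h⟩ => Comp.of_TM2 h, fun h => Comp.toTM2 h⟩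

theorem isPolyTime_iff_pt {α β : Type} [N487b59b3 α] [N487b59b3 β] {f : α → β} :
    N68a2faeb.IsPolyTime f ↔ PT f := isPolyTime_iff_comp f

end Pool.Agent.Shared.PolyTime
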