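import Pool.Agent.Shared.PolyTime.SM
import Pool.Prelude.Def_H_e9e0c647

/-!
Closure properties of `Comp`.
-/

namespace Pool.Agent.Shared.PolyTime

open Function N487b59b3

theorem eval_mono (p : Polynomial ℕ) {m n : ℕ} (h : m ≤ n) : p.eval m ≤ p.eval n := by
  rw [Polynomial.eval_eq_sum_range, Polynomial.eval_eq_sum_range]
  exact Finset.sum_le_sum fun i _ => Nat.mul_le_mul_left _ (Nat.pow_le_pow_left h i)

/-- `g` is bounded by a polynomial in the size measure `sz`. -/
def Bdd {α : Type} (sz g : α → ℕ) : Prop := ∃ p : Polynomial ℕ, ∀ x, g x ≤ p.eval (sz x)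

namespace Bdd

variable {α β : Type} {sz g h : α → ℕ}

theorem refl (sz : α → ℕ) : Bdd sz sz := ⟨Polynomial.X, fun x => by simp⟩

theorem const (sz : α → ℕ) (c : ℕ) : Bdd sz (fun _ => c) := ⟨Polynomial.C c, fun x => by simp⟩

theorem add (hg : Bdd sz g) (hh : Bdd sz h) : Bdd sz (fun x => g x + h x) := by
  obtain ⟨p, hp⟩ := hg
  obtain ⟨q, hq⟩ := hh
  exact ⟨p + q, fun x => by rw [Polynomial.eval_add]; exact Nat.add_le_add (hp x) (hq x)⟩

theorem mul (hg : Bdd sz g) (hh : Bdd sz h) : Bdd sz (fun x => g x * h x) := by
  obtain ⟨p, hp⟩ := hg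
  obtain ⟨q, hq⟩ := hh
  exact ⟨p * q, fun x => by rw [Polynomial.eval_mul]; exact Nat.mul_le_mul (hp x) (hq x)⟩

theorem pow (hg : Bdd sz g) (k : ℕ) : Bdd sz (fun x => g x ^ k) := by
  obtain ⟨p, hp⟩ := hg
  exact ⟨p ^ k, fun x => by rw [Polynomial.eval_pow]; exact Nat.pow_le_pow_left (hp x) k⟩

theorem mono (hg : Bdd sz g) (hle : ∀ x, h x ≤ g x) : Bdd sz h := by
  obtain ⟨p, hp⟩ := hg
  exact ⟨p, fun x => (hle x).trans (hp x)⟩

theorem trans (hg : Bdd sz g) (hh : Bdd g h) : Bdd sz h := by
  obtain ⟨p, hp⟩ := hg
  obtain ⟨q, hq⟩ := hh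
  exact ⟨q.comp p, fun x => by
    rw [Polynomial.eval_comp]; exact (hq x).trans (eval_mono q (hp x))⟩

theorem ghost (hg : Bdd sz g) (φ : β → α) : Bdd (fun y => sz (φ y)) (fun y => g (φ y)) := by
  obtain ⟨p, hp⟩ := hg
  exact ⟨p, fun y => hp (φ y)⟩

theorem eval (hg : Bdd sz g) (p : Polynomial ℕ) : Bdd sz (fun x => p.eval (g x)) :=
  hg.trans ⟨p, fun _ => le_rfl⟩

end Bdd

/-- `Impl sz S S'`: one machine with private work stacks maps the stacks `S x` to `S' x`
in time polynomial in `sz x`. -/
def Impl {K : Type} [DecidableEq K] {α : Type} (sz : α → ℕ) (S S' : α → Stk K) : Prop :=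
  ∃ (W : Type) (_ : Fintype W) (_ : DecidableEq W) (M : SM (K ⊕ W)) (p : Polynomial ℕ),
    ∀ x, M.Runs (Sum.elim (S x) (fun _ => [])) (Sum.elim (S' x) (fun _ => [])) (p.eval (sz x))

theorem SM.Runs.enlarge {K W W' : Type} [DecidableEq K] [DecidableEq W] [DecidableEq W']
    {M : SM (K ⊕ W)} {S S' : Stk K} {t : ℕ} {j : W → W'} (hj : Injective j)
    (h : M.Runs (Sum.elim S (fun _ => [])) (Sum.elim S' (fun _ => [])) t) :
    (M.rename (Sum.map id j)).Runs (Sum.elim S (fun _ => [])) (Sum.elim S' (fun _ => [])) t := by
  refine h.rename (Sum.map_injective.2 ⟨injective_id, hj⟩) _ _ ?_ ?_ ?_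
  · rintro (k | k) <;> rfl
  · rintro (k | k) <;> rfl
  · rintro (k | k) hk
    · exact absurd rfl (hk (Sum.inl k))
    · rfl

namespace Impl

variable {K : Type} [DecidableEq K] {α β : Type} {sz : α → ℕ} {S S' S'' : α → Stk K}

theorem intro {W : Type} [Fintype W] [DecidableEq W] (M : SM (K ⊕ W)) (t : α → ℕ)
    (ht : Bdd sz t)
    (h : ∀ x, M.Runs (Sum.elim (S x) (fun _ => [])) (Sum.elim (S' x) (fun _ => [])) (t x)) :
    Impl sz S S' := by
  obtain ⟨p, hp⟩ := ht
  exact ⟨W, inferInstance, inferInstance, M, p, fun x => (h x).mono (hp x)⟩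

theorem of_runs (M : SM K) (t : α → ℕ) (ht : Bdd sz t) (h : ∀ x, M.Runs (S x) (S' x) (t x)) :
    Impl sz S S' := by
  refine intro (W := Empty) (M.rename Sum.inl) t ht fun x => ?_
  refine (h x).rename Sum.inl_injective _ _ (fun _ => rfl) (fun _ => rfl) ?_
  rintro (k | k) hk
  · exact absurd rfl (hk k)
  · rfl

theorem ghost (h : Impl sz S S') (φ : β → α) {sz' : β → ℕ} (hsz : Bdd sz' (fun y => sz (φ y))) :
    Impl sz' (fun y => S (φ y)) (fun y => S' (φ y)) := by
  obtain ⟨W, _, _, M, p, hp⟩ := h
  exact intro M (fun y => p.eval (sz (φ y))) (hsz.eval p) fun y => hp (φ y)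

theorem congr (h : Impl sz S S') {T T' : α → Stk K} (h1 : ∀ x, T x = S x) (h2 : ∀ x, T' x = S' x) :
    Impl sz T T' := by
  obtain rfl : T = S := funext h1
  obtain rfl : T' = S' := funext h2
  exact h

theorem congr_right (h : Impl sz S S') {T' : α → Stk K} (h2 : ∀ x, T' x = S' x) :
    Impl sz S T' := h.congr (fun _ => rfl) h2

theorem skip : Impl sz S S := of_runs SM.skip (fun _ => 0) (Bdd.const _ _) fun _ => SM.runs_skip _ _

theorem seq (h₁ : Impl sz S S') (h₂ : Impl sz S' S'') : Impl sz S S'' := by
  obtain ⟨W₁, _, _, M₁, p₁, hp₁⟩ := h₁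
  obtain ⟨W₂, _, _, M₂, p₂, hp₂⟩ := h₂
  refine ⟨W₁ ⊕ W₂, inferInstance, inferInstance,
    SM.seq (M₁.rename (Sum.map id Sum.inl)) (M₂.rename (Sum.map id Sum.inr)), p₁ + p₂, fun x => ?_⟩
  rw [Polynomial.eval_add]
  exact ((hp₁ x).enlarge Sum.inl_injective).seq ((hp₂ x).enlarge Sum.inr_injective)

theorem case (k : K)
    (hE : Impl (fun x : {x // S x k = []} => sz x.1) (fun x => S x.1) (fun x => S' x.1))
    (hF : Impl (fun x : {x // (S x k).head? = some false} => sz x.1)
      (fun x => update (S x.1) k (S x.1 k).tail) (fun x => S' x.1))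
    (hT : Impl (fun x : {x // (S x k).head? = some true} => sz x.1)
      (fun x => update (S x.1) k (S x.1 k).tail) (fun x => S' x.1)) : Impl sz S S' := by
  obtain ⟨W₁, _, _, M₁, p₁, hp₁⟩ := hE
  obtain ⟨W₂, _, _, M₂, p₂, hp₂⟩ := hF
  obtain ⟨W₃, _, _, M₃, p₃, hp₃⟩ := hT
  refine ⟨W₁ ⊕ W₂ ⊕ W₃, inferInstance, inferInstance,
    SM.case (Sum.inl k) (M₁.rename (Sum.map id Sum.inl))
      (M₂.rename (Sum.map id (fun w => Sum.inr (Sum.inl w))))
      (M₃.rename (Sum.map id (fun w => Sum.inr (Sum.inr w)))), p₁ + p₂ + p₃ + 1, fun x => ?_⟩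
  simp only [Polynomial.eval_add, Polynomial.eval_one]
  rcases hk : S x k with _ | ⟨_ | _, l⟩
  · refine (SM.Runs.case_nil (k := Sum.inl k) hk ((hp₁ ⟨x, hk⟩).enlarge Sum.inl_injective)).mono ?_
    simp only
    omega
  · have h := (hp₂ ⟨x, by simp [hk]⟩).enlarge (W' := W₁ ⊕ W₂ ⊕ W₃)
      (j := fun w => Sum.inr (Sum.inl w)) (Sum.inr_injective.comp Sum.inl_injective)
    simp only [hk, List.tail_cons] at h
    rw [← Sum.update_elim_inl] at h
    refine (SM.Runs.case_false (k := Sum.inl k) hk h).mono ?_
    omega
  · have h := (hp₃ ⟨x, by simp [hk]⟩).enlarge (W' := W₁ ⊕ W₂ ⊕ W₃)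
      (j := fun w => Sum.inr (Sum.inr w)) (Sum.inr_injective.comp Sum.inr_injective)
    simp only [hk, List.tail_cons] at h
    rw [← Sum.update_elim_inl] at h
    refine (SM.Runs.case_true (k := Sum.inl k) hk h).mono ?_
    omega

theorem loop (k : K) (T : α → ℕ → Stk K) (n : α → ℕ) (hn : Bdd sz n)
    (h0 : ∀ x, T x (n x) k = []) (h1 : ∀ x i, i < n x → T x i k ≠ [])
    (body : Impl (fun y : {y : α × ℕ // y.2 < n y.1} => sz y.1.1)
      (fun y => update (T y.1.1 y.1.2) k (T y.1.1 y.1.2 k).tail) (fun y => T y.1.1 (y.1.2 + 1))) :
    Impl sz (fun x => T x 0) (fun x => T x (n x)) := by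
  obtain ⟨W, _, _, M, p, hp⟩ := body
  refine intro (SM.loop (Sum.inl k) (fun _ => M)) (fun x => n x * (p.eval (sz x) + 1) + 1)
    ((hn.mul (((Bdd.refl sz).eval p).add (Bdd.const _ _))).add (Bdd.const _ _)) fun x => ?_
  have key : ∀ d i, i + d = n x → (SM.loop (Sum.inl k) (fun _ => M)).Runs
      (Sum.elim (T x i) (fun _ => [])) (Sum.elim (T x (n x)) (fun _ => []))
      (d * (p.eval (sz x) + 1) + 1) := by
    intro d
    induction d with
    | zero =>
      intro i hi
      obtain rfl : i = n x := hi
      simpa using SM.Runs.loop_nil (k := Sum.inl k) (m := fun _ => M)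
        (S := Sum.elim (T x (n x)) (fun _ => [])) (h0 x)
    | succ d ih =>
      intro i hi
      have hlt : i < n x := by omega
      obtain ⟨b, l, hk⟩ := List.exists_cons_of_ne_nil (h1 x i hlt)
      have h := hp ⟨(x, i), hlt⟩
      simp only [hk, List.tail_cons] at h
      rw [← Sum.update_elim_inl] at h
      refine (SM.Runs.loop_cons (k := Sum.inl k) (m := fun _ => M) hk h
        (ih (i + 1) (by omega))).mono (le_of_eq ?_)
      ring
  exact key (n x) 0 (by simp)

/-- Run a `Comp` machine on the stack `k`. -/
theorem call {e g : α → List Bool} (h : Comp e g) (k : K) (hS : ∀ x, S x k = e x)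
    (hsz : Bdd sz (fun x => (e x).length)) : Impl sz S (fun x => update (S x) k (g x)) := by
  obtain ⟨W, _, _, a, M, p, hp⟩ := h
  let ρ : W → K ⊕ W := fun w => if w = a then Sum.inl k else Sum.inr w
  have hρ : Injective ρ := by
    intro w w' h
    by_cases h1 : w = a <;> by_cases h2 : w' = a <;> simp_all [ρ]
  refine intro (M.rename ρ) (fun x => p.eval (e x).length) (hsz.eval p) fun x => ?_
  refine (hp x).rename hρ _ _ (fun w => ?_) (fun w => ?_) ?_
  · by_cases h1 : w = a <;> simp [ρ, h1, single, hS]
  · by_cases h1 : w = a <;> simp [ρ, h1, single]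
  · rintro (k' | w) hk'
    · have : k' ≠ k := by
        rintro rfl
        exact hk' a (by simp [ρ])
      simp [update_of_ne this]
    · rfl

theorem toComp [Fintype K] {e g : α → List Bool} (a : K)
    (h : Impl (fun x => (e x).length) (fun x => single a (e x)) (fun x => single a (g x))) :
    Comp e g := by
  obtain ⟨W, _, _, M, p, hp⟩ := h
  refine ⟨K ⊕ W, inferInstance, inferInstance, Sum.inl a, M, p, fun x => ?_⟩
  have e1 : ∀ l, (single (Sum.inl a) l : Stk (K ⊕ W)) = Sum.elim (single a l) (fun _ => []) := by
    intro l
    rw [single, single, ← Sum.update_elim_inl]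
    congr 1
    funext k
    cases k <;> rfl
  rw [e1, e1]
  exact hp x

theorem push (k : K) (b : Bool) : Impl sz S (fun x => update (S x) k (b :: S x k)) :=
  of_runs (SM.push k b) (fun _ => 1) (Bdd.const _ _) fun _ => SM.runs_push _ _ _

end Impl

namespace SM

variable {K : Type} [DecidableEq K]

theorem runs_clear (a : K) (l : List Bool) (S : Stk K) (h : S a = l) :
    (loop a (fun _ => skip)).Runs S (update S a []) (l.length + 1) := by
  induction l generalizing S with
  | nil => rw [← h, update_eq_self, h]; exact Runs.loop_nil h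
  | cons b l ih =>
    have := Runs.loop_cons (m := fun _ => skip) h (runs_skip _ 0) (ih (update S a l) (by simp))
    simpa using this

theorem runs_move {a b : K} (hab : a ≠ b) (l : List Bool) (S : Stk K) (h : S a = l) :
    (loop a (fun β => push b β)).Runs S (update (update S a []) b (l.reverse ++ S b))
      (2 * l.length + 1) := by
  induction l generalizing S with
  | nil =>
    have : update (update S a []) b ([].reverse ++ S b) = S := by
      rw [← h, update_eq_self]; simp [h]
    rw [this]; exact Runs.loop_nil h
  | cons β l ih =>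
    have := Runs.loop_cons (m := fun β => push b β) h (runs_push _ _ _)
      (ih _ (by simp [update_of_ne hab]))
    convert this.mono (show _ ≤ 2 * (β :: l).length + 1 by simp; omega) using 1
    funext k
    by_cases h1 : k = b
    · subst h1; simp [update_of_ne hab.symm]
    · by_cases h2 : k = a
      · subst h2; simp [update_of_ne h1]
      · simp [update_of_ne h1, update_of_ne h2]

theorem runs_move2 {a b c : K} (hab : a ≠ b) (hac : a ≠ c) (hbc : b ≠ c) (l : List Bool)
    (S : Stk K) (h : S a = l) :
    (loop a (fun β => seq (push b β) (push c β))).Runs S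
      (update (update (update S a []) b (l.reverse ++ S b)) c (l.reverse ++ S c))
      (3 * l.length + 1) := by
  induction l generalizing S with
  | nil =>
    have : update (update (update S a []) b ([].reverse ++ S b)) c ([].reverse ++ S c) = S := by
      rw [← h, update_eq_self]; simp [h]
    rw [this]; exact Runs.loop_nil h
  | cons β l ih =>
    have := Runs.loop_cons (m := fun β => seq (push b β) (push c β)) h
      ((runs_push _ _ _).seq (runs_push _ _ _))
      (ih _ (by simp [update_of_ne hab, update_of_ne hac]))
    convert this.mono (show _ ≤ 3 * (β :: l).length + 1 by simp; omega) using 1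
    funext k
    by_cases h0 : k = c
    · subst h0; simp [update_of_ne hbc.symm, update_of_ne hac.symm]
    · by_cases h1 : k = b
      · subst h1; simp [update_of_ne hab.symm, update_of_ne hbc]
      · by_cases h2 : k = a
        · subst h2; simp [update_of_ne h1, update_of_ne h0]
        · simp [update_of_ne h1, update_of_ne h2, update_of_ne h0]

/-- The doubling part of `delimit`. -/
def dbl : List Bool → List Bool
  | [] => []
  | b :: l => true :: b :: dbl l

theorem dbl_append (l l' : List Bool) : dbl (l ++ l') = dbl l ++ dbl l' := by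
  induction l with
  | nil => rfl
  | cons b l ih => simp [dbl, ih]

theorem delimit_append (l r : List Bool) : delimit l ++ r = dbl l ++ false :: r := by
  induction l with
  | nil => rfl
  | cons b l ih => simp [dbl, delimit, ih]

theorem runs_moveDbl {a b : K} (hab : a ≠ b) (l : List Bool) (S : Stk K) (h : S a = l) :
    (loop a (fun β => seq (push b β) (push b true))).Runs S
      (update (update S a []) b (dbl l.reverse ++ S b)) (3 * l.length + 1) := by
  induction l generalizing S with
  | nil =>
    have : update (update S a []) b (dbl [].reverse ++ S b) = S := by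
      rw [← h, update_eq_self]; simp [h, dbl]
    rw [this]; exact Runs.loop_nil h
  | cons β l ih =>
    have := Runs.loop_cons (m := fun β => seq (push b β) (push b true)) h
      ((runs_push _ _ _).seq (runs_push _ _ _))
      (ih _ (by simp [update_of_ne hab]))
    convert this.mono (show _ ≤ 3 * (β :: l).length + 1 by simp; omega) using 1
    funext k
    by_cases h1 : k = b
    · subst h1; simp [update_of_ne hab.symm, dbl_append, dbl]
    · by_cases h2 : k = a
      · subst h2; simp [update_of_ne h1]
      · simp [update_of_ne h1, update_of_ne h2]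

end SM

/-- Total version of `undelimit`. -/
def undelim : List Bool → List Bool × List Bool
  | [] => ([], [])
  | false :: r => ([], r)
  | [true] => ([], [])
  | true :: b :: r => (b :: (undelim r).1, (undelim r).2)

@[simp] theorem undelim_delimit (l r : List Bool) : undelim (delimit l ++ r) = (l, r) := by
  induction l with
  | nil => simp [delimit, undelim]
  | cons b l ih => simp [delimit, undelim, ih]

theorem undelim_nil : undelim [] = ([], []) := by simp [undelim]

theorem length_undelim (l : List Bool) :
    (undelim l).1.length + (undelim l).2.length ≤ l.length := by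
  fun_induction undelim l <;> simp_all
  omega

namespace SM

variable {K : Type} [DecidableEq K]

/-- Parse one delimited block from `a` onto `t` (reversed). -/
def parse (a t : K) : SM K where
  Q := Option (Option Bool)
  fin := inferInstance
  start := some none
  δ := fun q => match q with
    | none => .pop a none none (some (some none))
    | some none => .pop a none (some (some (some false))) (some (some (some true)))
    | some (some b) => .push t b (some none)

theorem runs_parse {a t : K} (hat : a ≠ t) (l : List Bool) (S : Stk K) (h : S a = l) :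
    (parse a t).Runs S (update (update S a (undelim l).2) t ((undelim l).1.reverse ++ S t))
      (2 * l.length + 1) := by
  have aux : ∀ (S : Stk K) (v : List Bool), update (update S a v) t (S t) = update S a v := by
    intro S v
    rw [← update_of_ne hat.symm v S, update_eq_self]
  fun_induction undelim l generalizing S with
  | case1 =>
    refine RunsFrom.step (M := parse a t) none _ _ _ ?_
    simp only [parse, Instr.next, Instr.upd, h, List.reverse_nil, List.nil_append, List.tail_nil,
      aux]
    exact RunsFrom.done (M := parse a t) _ _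
  | case2 r =>
    refine RunsFrom.step (M := parse a t) none _ _ _ ?_
    simp only [parse, Instr.next, Instr.upd, h, List.reverse_nil, List.nil_append, List.tail_cons,
      aux]
    exact RunsFrom.done (M := parse a t) _ _
  | case3 =>
    refine RunsFrom.step (M := parse a t) none _ _ _ ?_
    simp only [parse, Instr.next, Instr.upd, h]
    refine RunsFrom.step (M := parse a t) (some none) _ _ _ ?_
    simp only [parse, Instr.next, Instr.upd, List.tail_cons, update_self, List.reverse_nil,
      List.nil_append, List.tail_nil, update_idem, aux]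
    exact RunsFrom.done (M := parse a t) _ _
  | case4 b r ih =>
    have e : 2 * (true :: b :: r).length + 1 = (2 * r.length + 2) + 1 + 1 + 1 := by simp; omega
    rw [e]
    refine RunsFrom.step (M := parse a t) none _ _ _ ?_
    simp only [parse, Instr.next, Instr.upd, h]
    refine RunsFrom.step (M := parse a t) (some none) _ _ _ ?_
    have key : (parse a t).RunsFrom (some (some (some b))) (update S a r)
        (update (update S a (undelim r).2) t ((b :: (undelim r).1).reverse ++ S t))
        (2 * r.length + 2 + 1) := by
      refine RunsFrom.step (M := parse a t) (some (some b)) _ _ _ ?_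
      have := ih (update (update S a r) t (b :: update S a r t)) (by simp [update_of_ne hat])
      have e2 : update (update S a (undelim r).2) t ((b :: (undelim r).1).reverse ++ S t) =
          update (update (update (update S a r) t (b :: update S a r t)) a (undelim r).2) t
            ((undelim r).1.reverse ++ update (update S a r) t (b :: update S a r t) t) := by
        funext k
        by_cases h1 : k = t
        · subst h1; simp [update_of_ne hat.symm]
        · by_cases h2 : k = a
          · subst h2; simp [update_of_ne h1]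
          · simp [update_of_ne h1, update_of_ne h2]
      rw [e2]
      exact this.mono (show _ ≤ 2 * r.length + 2 by omega)
    cases b <;>
      simpa only [parse, Instr.next, Instr.upd, List.tail_cons, update_self, update_idem] using key

end SM

namespace Impl

variable {K : Type} [DecidableEq K] {α : Type} {sz : α → ℕ} {S : α → Stk K}

theorem clear (a : K) (h : Bdd sz (fun x => (S x a).length)) :
    Impl sz S (fun x => update (S x) a []) :=
  of_runs _ _ (h.add (Bdd.const _ 1)) fun _ => SM.runs_clear a _ _ rfl

theorem move {a b : K} (hab : a ≠ b) (h : Bdd sz (fun x => (S x a).length)) :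
    Impl sz S (fun x => update (update (S x) a []) b ((S x a).reverse ++ S x b)) :=
  of_runs _ _ (((Bdd.const _ 2).mul h).add (Bdd.const _ 1)) fun _ => SM.runs_move hab _ _ rfl

theorem move2 {a b c : K} (hab : a ≠ b) (hac : a ≠ c) (hbc : b ≠ c)
    (h : Bdd sz (fun x => (S x a).length)) :
    Impl sz S (fun x => update (update (update (S x) a []) b ((S x a).reverse ++ S x b)) c
      ((S x a).reverse ++ S x c)) :=
  of_runs _ _ (((Bdd.const _ 3).mul h).add (Bdd.const _ 1)) fun _ =>
    SM.runs_move2 hab hac hbc _ _ rfl

theorem moveDbl {a b : K} (hab : a ≠ b) (h : Bdd sz (fun x => (S x a).length)) :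
    Impl sz S (fun x => update (update (S x) a []) b (SM.dbl (S x a).reverse ++ S x b)) :=
  of_runs _ _ (((Bdd.const _ 3).mul h).add (Bdd.const _ 1)) fun _ => SM.runs_moveDbl hab _ _ rfl

theorem parse {a t : K} (hat : a ≠ t) (h : Bdd sz (fun x => (S x a).length)) :
    Impl sz S (fun x => update (update (S x) a (undelim (S x a)).2) t
      ((undelim (S x a)).1.reverse ++ S x t)) :=
  of_runs _ _ (((Bdd.const _ 2).mul h).add (Bdd.const _ 1)) fun _ => SM.runs_parse hat _ _ rfl

end Impl

/-- Four stacks. -/
def mk4 (a b c d : List Bool) : Stk (Fin 4) := ![a, b, c, d]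

@[simp] theorem mk4_0 (a b c d : List Bool) : mk4 a b c d 0 = a := rfl
@[simp] theorem mk4_1 (a b c d : List Bool) : mk4 a b c d 1 = b := rfl
@[simp] theorem mk4_2 (a b c d : List Bool) : mk4 a b c d 2 = c := rfl
@[simp] theorem mk4_3 (a b c d : List Bool) : mk4 a b c d 3 = d := rfl

@[simp] theorem update_mk4_0 (a b c d v : List Bool) : update (mk4 a b c d) 0 v = mk4 v b c d := by
  funext k; fin_cases k <;> rfl
@[simp] theorem update_mk4_1 (a b c d v : List Bool) : update (mk4 a b c d) 1 v = mk4 a v c d := by
  funext k; fin_cases k <;> rfl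
@[simp] theorem update_mk4_2 (a b c d v : List Bool) : update (mk4 a b c d) 2 v = mk4 a b v d := by
  funext k; fin_cases k <;> rfl
@[simp] theorem update_mk4_3 (a b c d v : List Bool) : update (mk4 a b c d) 3 v = mk4 a b c v := by
  funext k; fin_cases k <;> rfl

theorem single_eq_mk4 (l : List Bool) : single (0 : Fin 4) l = mk4 l [] [] [] := by
  funext k; fin_cases k <;> rfl

namespace Comp

variable {α β : Type} {e g h : α → List Bool}

theorem of_impl4 (H : Impl (fun x => (e x).length) (fun x => mk4 (e x) [] [] [])
    (fun x => mk4 (g x) [] [] [])) : Comp e g :=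
  Impl.toComp (0 : Fin 4) (H.congr (fun _ => single_eq_mk4 _) (fun _ => single_eq_mk4 _))

theorem refl (e : α → List Bool) : Comp e e := of_impl4 Impl.skip

theorem congr (H : Comp e g) (hg : ∀ x, h x = g x) : Comp e h := by
  obtain rfl : h = g := funext hg
  exact H

theorem ghost (H : Comp e g) (φ : β → α) : Comp (fun y => e (φ y)) (fun y => g (φ y)) := by
  obtain ⟨K, _, _, a, M, p, hp⟩ := H
  exact ⟨K, inferInstance, inferInstance, a, M, p, fun y => hp (φ y)⟩

theorem bdd (H : Comp e g) : Bdd (fun x => (e x).length) (fun x => (g x).length) := by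
  obtain ⟨K, _, _, a, M, p, hp⟩ := H
  refine ⟨Polynomial.X + p, fun x => ?_⟩
  simpa [single] using (hp x).length_le a

theorem trans (H₁ : Comp e g) (H₂ : Comp g h) : Comp e h := by
  refine of_impl4 ?_
  refine (Impl.call H₁ 0 (fun _ => rfl) (Bdd.refl _)).seq ?_
  exact (Impl.call H₂ 0 (fun _ => by simp) H₁.bdd).congr_right (fun _ => by simp)

/-- Post-composition with a total function on bit strings. -/
theorem post (H : Comp e g) {F : List Bool → List Bool} (hF : Comp id F) :
    Comp e (fun x => F (g x)) := H.trans (hF.ghost g)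

theorem cons (H : Comp e g) (b : Bool) : Comp e (fun x => b :: g x) :=
  H.post (F := fun l => b :: l)
    (of_impl4 ((Impl.push (0 : Fin 4) b).congr_right (fun _ => by simp)))

theorem tail (H : Comp e g) : Comp e (fun x => (g x).tail) := by
  refine H.post (F := List.tail) (of_impl4 (Impl.case 0 ?_ ?_ ?_))
  · exact Impl.skip.congr_right fun x => by
      have := x.2
      simp only [id, mk4_0] at this ⊢
      rw [this]; rfl
  · exact Impl.skip.congr_right fun x => by simp
  · exact Impl.skip.congr_right fun x => by simp

theorem nil (e : α → List Bool) : Comp e (fun _ => []) :=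
  of_impl4 ((Impl.clear (0 : Fin 4) (Bdd.refl _)).congr_right (fun _ => by simp))

theorem const (e : α → List Bool) (c : List Bool) : Comp e (fun _ => c) := by
  induction c with
  | nil => exact nil e
  | cons b c ih => exact ih.cons b

theorem fork (H₁ : Comp e g) (H₂ : Comp e h) : Comp e (fun x => delimit (g x) ++ h x) := by
  refine of_impl4 ?_
  have s1 : Impl (fun x => (e x).length) (fun x => mk4 (e x) [] [] [])
      (fun x => mk4 [] [] (e x).reverse (e x).reverse) :=
    (Impl.move2 (a := (0 : Fin 4)) (b := 2) (c := 3) (by decide) (by decide) (by decide)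
      (Bdd.refl _)).congr_right (fun _ => by simp)
  have s2 : Impl (fun x => (e x).length) (fun x => mk4 [] [] (e x).reverse (e x).reverse)
      (fun x => mk4 (e x) [] [] (e x).reverse) :=
    (Impl.move (a := (2 : Fin 4)) (b := 0) (by decide)
      ((Bdd.refl _).mono (fun _ => by simp))).congr_right (fun _ => by simp)
  have s3 : Impl (fun x => (e x).length) (fun x => mk4 (e x) [] [] (e x).reverse)
      (fun x => mk4 (e x) (e x) [] []) :=
    (Impl.move (a := (3 : Fin 4)) (b := 1) (by decide)
      ((Bdd.refl _).mono (fun _ => by simp))).congr_right (fun _ => by simp)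
  have s4 : Impl (fun x => (e x).length) (fun x => mk4 (e x) (e x) [] [])
      (fun x => mk4 (h x) (e x) [] []) :=
    (Impl.call H₂ (0 : Fin 4) (fun _ => rfl) (Bdd.refl _)).congr_right (fun _ => by simp)
  have s5 : Impl (fun x => (e x).length) (fun x => mk4 (h x) (e x) [] [])
      (fun x => mk4 (h x) (g x) [] []) :=
    (Impl.call H₁ (1 : Fin 4) (fun _ => rfl) (Bdd.refl _)).congr_right (fun _ => by simp)
  have s6 : Impl (fun x => (e x).length) (fun x => mk4 (h x) (g x) [] [])
      (fun x => mk4 (h x) [] (g x).reverse []) :=
    (Impl.move (a := (1 : Fin 4)) (b := 2) (by decide) H₁.bdd).congr_right (fun _ => by simp)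
  have s7 : Impl (fun x => (e x).length) (fun x => mk4 (h x) [] (g x).reverse [])
      (fun x => mk4 (false :: h x) [] (g x).reverse []) :=
    (Impl.push (0 : Fin 4) false).congr_right (fun _ => by simp)
  have s8 : Impl (fun x => (e x).length) (fun x => mk4 (false :: h x) [] (g x).reverse [])
      (fun x => mk4 (delimit (g x) ++ h x) [] [] []) :=
    (Impl.moveDbl (a := (2 : Fin 4)) (b := 0) (by decide)
      (H₁.bdd.mono (fun _ => by simp))).congr_right (fun _ => by simp [SM.delimit_append])
  exact s1.seq (s2.seq (s3.seq (s4.seq (s5.seq (s6.seq (s7.seq s8))))))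

theorem impl_parse : Impl (fun l : List Bool => l.length) (fun l => mk4 l [] [] [])
    (fun l => mk4 (undelim l).2 (undelim l).1.reverse [] []) :=
  (Impl.parse (a := (0 : Fin 4)) (t := 1) (by decide) (Bdd.refl _)).congr_right (fun _ => by simp)

theorem undelim_snd (H : Comp e g) : Comp e (fun x => (undelim (g x)).2) := by
  refine H.post (F := fun l => (undelim l).2) (of_impl4 (impl_parse.seq ?_))
  exact (Impl.clear (1 : Fin 4) ((Bdd.refl _).mono (fun l => by
    have := length_undelim l; simp; omega))).congr_right (fun _ => by simp)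

theorem undelim_append (H : Comp e g) :
    Comp e (fun x => (undelim (g x)).1 ++ (undelim (g x)).2) := by
  refine H.post (F := fun l => (undelim l).1 ++ (undelim l).2) (of_impl4 (impl_parse.seq ?_))
  exact (Impl.move (a := (1 : Fin 4)) (b := 0) (by decide) ((Bdd.refl _).mono (fun l => by
    have := length_undelim l; simp; omega))).congr_right (fun _ => by simp)

theorem undelim_fst (H : Comp e g) : Comp e (fun x => (undelim (g x)).1) := by
  refine H.post (F := fun l => (undelim l).1) (of_impl4 (impl_parse.seq ?_))
  refine (Impl.clear (0 : Fin 4) ((Bdd.refl _).mono (fun l => by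
    have := length_undelim l; simp; omega))).seq ?_
  exact (Impl.move (a := (1 : Fin 4)) (b := 0) (by decide) ((Bdd.refl _).mono (fun l => by
    have := length_undelim l; simp; omega))).congr_right (fun _ => by simp)

theorem append (H₁ : Comp e g) (H₂ : Comp e h) : Comp e (fun x => g x ++ h x) :=
  (H₁.fork H₂).undelim_append.congr (fun _ => by simp)

/-- Case distinction on the first bit of the input; each branch only has to work on the inputs
that reach it. -/
theorem cases
    (hE : Comp (fun _ : {x // e x = []} => []) (fun x => g x.1))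
    (hF : Comp (fun x : {x // (e x).head? = some false} => (e x.1).tail) (fun x => g x.1))
    (hT : Comp (fun x : {x // (e x).head? = some true} => (e x.1).tail) (fun x => g x.1)) :
    Comp e g := by
  refine of_impl4 (Impl.case 0 ?_ ?_ ?_)
  · exact (Impl.call hE (0 : Fin 4) (fun x => x.2) (Bdd.const _ _)).congr_right (fun _ => by simp)
  · exact (Impl.call hF (0 : Fin 4) (fun x => by simp)
      ((Bdd.refl _).mono (fun _ => by simp))).congr_right (fun _ => by simp)
  · exact (Impl.call hT (0 : Fin 4) (fun x => by simp)
      ((Bdd.refl _).mono (fun _ => by simp))).congr_right (fun _ => by simp)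

/-- Branching on a computed bit; each branch only has to work on the inputs that reach it. -/
theorem dcond {c : α → Bool} (hc : Comp e (fun x => [c x]))
    (hT : Comp (fun x : {x // c x = true} => e x.1) (fun x => g x.1))
    (hF : Comp (fun x : {x // c x = false} => e x.1) (fun x => g x.1)) : Comp e g := by
  have h1 : Comp e (fun x => c x :: e x) := (hc.append (refl e)).congr (fun _ => rfl)
  refine h1.trans (cases ?_ ?_ ?_)
  · exact (nil _).congr (fun x => absurd x.2 (by simp))
  · exact hF.ghost (fun x : {x // (c x :: e x).head? = some false} => ⟨x.1, by simpa using x.2⟩)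
  · exact hT.ghost (fun x : {x // (c x :: e x).head? = some true} => ⟨x.1, by simpa using x.2⟩)

theorem cond {c : α → Bool} (hc : Comp e (fun x => [c x])) (H₁ : Comp e g) (H₂ : Comp e h) :
    Comp e (fun x => bif c x then g x else h x) := by
  refine dcond hc ?_ ?_
  · exact (H₁.ghost Subtype.val).congr (fun x => by simp [x.2])
  · exact (H₂.ghost Subtype.val).congr (fun x => by simp [x.2])

theorem eq_cons_of_head {l : List Bool} {b : Bool} (h : l.head? = some b) : l = b :: l.tail := by
  cases l <;> simp_all

theorem isNil (H : Comp e g) : Comp e (fun x => [(g x).isEmpty]) := by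
  refine H.post (F := fun l => [l.isEmpty]) (cases ?_ ?_ ?_)
  · exact (const _ [true]).congr (fun x => by rw [show x.1 = [] from x.2]; rfl)
  · exact (const _ [false]).congr (fun x => by rw [eq_cons_of_head (l := x.1) x.2]; rfl)
  · exact (const _ [false]).congr (fun x => by rw [eq_cons_of_head (l := x.1) x.2]; rfl)

theorem headD (H : Comp e g) : Comp e (fun x => [(g x).headD false]) := by
  refine H.post (F := fun l => [l.headD false]) (cases ?_ ?_ ?_)
  · exact (const _ [false]).congr (fun x => by rw [show x.1 = [] from x.2]; rfl)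
  · exact (const _ [false]).congr (fun x => by rw [eq_cons_of_head (l := x.1) x.2]; rfl)
  · exact (const _ [true]).congr (fun x => by rw [eq_cons_of_head (l := x.1) x.2]; rfl)

/-- Iteration: `T x i` is the state after `i` rounds, one round is computable, the number of
rounds is the length of a computable string, and the states are polynomially bounded. -/
theorem iter {cnt : α → List Bool} (T : α → ℕ → List Bool) (hc : Comp e cnt)
    (h0 : Comp e (fun x => T x 0))
    (hstep : Comp (fun y : {y : α × ℕ // y.2 < (cnt y.1).length} => T y.1.1 y.1.2)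
      (fun y => T y.1.1 (y.1.2 + 1)))
    (hb : Bdd (fun y : {y : α × ℕ // y.2 < (cnt y.1).length} => (e y.1.1).length)
      (fun y => (T y.1.1 y.1.2).length)) :
    Comp e (fun x => T x (cnt x).length) := by
  refine of_impl4 ?_
  have s1 : Impl (fun x => (e x).length) (fun x => mk4 (e x) [] [] [])
      (fun x => mk4 (delimit (cnt x) ++ T x 0) [] [] []) :=
    (Impl.call (hc.fork h0) (0 : Fin 4) (fun _ => rfl) (Bdd.refl _)).congr_right (fun _ => by simp)
  have s2 : Impl (fun x => (e x).length) (fun x => mk4 (delimit (cnt x) ++ T x 0) [] [] [])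
      (fun x => mk4 (T x 0) ((cnt x).reverse.drop 0) [] []) :=
    (Impl.parse (a := (0 : Fin 4)) (t := 1) (by decide) (hc.fork h0).bdd).congr_right
      (fun _ => by simp)
  have s3 := Impl.loop (sz := fun x => (e x).length) (1 : Fin 4)
    (fun x i => mk4 (T x i) ((cnt x).reverse.drop i) [] []) (fun x => (cnt x).length) hc.bdd
    (fun x => by simp) (fun x i hi => by simpa using hi)
    ((Impl.call hstep (0 : Fin 4) (fun _ => by simp) hb).congr_right (fun _ => by simp))
  refine s1.seq (s2.seq (s3.congr_right (fun x => ?_)))
  rw [List.drop_eq_nil_of_le (by simp)]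

/-- Every function of boundedly long inputs is computable. -/
theorem of_short (n : ℕ) (F : List Bool → List Bool) :
    Comp (fun l : {l : List Bool // l.length ≤ n} => l.1) (fun l => F l.1) := by
  induction n generalizing F with
  | zero =>
    exact (const _ (F [])).congr (fun l => by
      rw [List.length_eq_zero_iff.1 (Nat.le_zero.1 l.2)])
  | succ n ih =>
    refine cases ?_ ?_ ?_
    · exact (const _ (F [])).congr (fun l => by rw [l.2])
    · refine ((ih (fun l => F (false :: l))).ghost
        (fun x : {x : {l : List Bool // l.length ≤ n + 1} // x.1.head? = some false} =>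
          ⟨x.1.1.tail, by have := x.1.2; simp; omega⟩)).congr ?_
      exact fun x => congrArg F (eq_cons_of_head x.2)
    · refine ((ih (fun l => F (true :: l))).ghost
        (fun x : {x : {l : List Bool // l.length ≤ n + 1} // x.1.head? = some true} =>
          ⟨x.1.1.tail, by have := x.1.2; simp; omega⟩)).congr ?_
      exact fun x => congrArg F (eq_cons_of_head x.2)

/-- Every function on a finite type with an injective encoding is computable. -/
theorem of_finite [Finite α] (he : Injective e) (g : α → List Bool) : Comp e g := by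
  obtain ⟨n, hn⟩ : ∃ n, ∀ x, (e x).length ≤ n :=
    (Set.finite_range fun x => (e x).length).bddAbove.imp fun n hn x => hn ⟨x, rfl⟩
  exact ((of_short n (extend e g (fun _ => []))).ghost (fun x => ⟨e x, hn x⟩)).congr
    (fun x => (he.extend_apply g _ x).symm)

end Comp

end Pool.Agent.Shared.PolyTime
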