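import Pool.Agent.Shared.PolyTime.Core
import Pool.Prelude.Def_H_3587d628

/-!
A stack machine is a `FinTM2`: `Comp` implies `TM2ComputableInPolyTime`.
-/

namespace Pool.Agent.Shared.PolyTime

open Function Turing Turing.TM2

variable {K : Type} [DecidableEq K]

/-- The TM2 statement executing one instruction. -/
def instrStmt {Q : Type} : Instr K Q → Stmt (fun _ : K => Bool) Q (Option Bool)
  | .push k b q => .push k (fun _ => b) (.goto fun _ => q)
  | .pop k qE qF qT => .pop k (fun _ o => o)
      (.branch (fun v => v.isNone) (.goto fun _ => qE)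
        (.branch (fun v => v.getD false) (.load (fun _ => none) (.goto fun _ => qT))
          (.load (fun _ => none) (.goto fun _ => qF))))

theorem stepAux_instrStmt {Q : Type} (i : Instr K Q) (S : Stk K) :
    stepAux (instrStmt i) none S = ⟨some (i.next S), none, i.upd S⟩ := by
  cases i with
  | push k b q => rfl
  | pop k qE qF qT =>
    simp only [instrStmt, stepAux, Instr.next, Instr.upd]
    rcases S k with _ | ⟨_ | _, l⟩ <;> rfl

/-- The `FinTM2` of a stack machine. -/
noncomputable def SM.toTM [Fintype K] (M : SM K) (a : K) : FinTM2 where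
  K := K
  k₀ := a
  k₁ := a
  Γ _ := Bool
  Λ := Option M.Q
  main := M.start
  ΛFin := by have := M.fin; exact Fintype.ofFinite _
  σ := Option Bool
  initialState := none
  m l := match l with
    | none => .halt
    | some q => instrStmt (M.δ q)

theorem SM.RunsFrom.toTM [Fintype K] {M : SM K} (a : K) {o : Option M.Q} {S S' : Stk K} {t : ℕ}
    (h : M.RunsFrom o S S' t) : ∃ n ≤ t + 1,
      (flip bind (M.toTM a).step)^[n] (some ⟨some o, none, S⟩) = some ⟨none, none, S'⟩ := by
  induction h with
  | done S t => exact ⟨1, by omega, rfl⟩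
  | step q S S' t _ ih =>
    obtain ⟨n, hn, h⟩ := ih
    refine ⟨n + 1, by omega, ?_⟩
    rw [Function.iterate_succ_apply, ← h]
    congr 1
    exact congrArg some (stepAux_instrStmt (M.δ q) S)

theorem Comp.toTM2 {α β : Type} {ea : α → List Bool} {eb : β → List Bool} {f : α → β}
    (h : Comp ea (fun x => eb (f x))) : Nonempty (TM2ComputableInPolyTime ea eb f) := by
  obtain ⟨K, _, _, a, M, p, hp⟩ := h
  choose n hn hrun using fun x => SM.RunsFrom.toTM a (hp x)
  have e1 : ∀ l : List Bool, initList (M.toTM a) l = ⟨some M.start, none, single a l⟩ := by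
    intro l
    simp only [initList, SM.toTM]
    congr 1
    funext k
    by_cases hk : k = a
    · subst hk; simp [single]
    · simp [single, hk]
  have e2 : ∀ l : List Bool, haltList (M.toTM a) l = ⟨none, none, single a l⟩ := by
    intro l
    simp only [haltList, SM.toTM]
    congr 1
    funext k
    by_cases hk : k = a
    · subst hk; simp [single]
    · simp [single, hk]
  refine ⟨{
    tm := M.toTM a
    inputAlphabet := Equiv.refl Bool
    outputAlphabet := Equiv.refl Bool
    time := p + 1
    outputsFun := fun x => ⟨⟨n x, ?_⟩, by simpa using hn x⟩ }⟩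
  have i1 : ∀ l : List Bool, List.map (Equiv.refl Bool).invFun l = l := fun l => List.map_id l
  have h1 := (congrArg (initList (M.toTM a)) (i1 (ea x))).trans (e1 (ea x))
  have h2 := (congrArg (haltList (M.toTM a)) (i1 (eb (f x)))).trans (e2 (eb (f x)))
  exact ((congrArg (fun c => (flip bind (M.toTM a).step)^[n x] (some c)) h1).trans
    (hrun x)).trans (congrArg some h2.symm)

end Pool.Agent.Shared.PolyTime
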